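import Pool.Agent.Helper10.AQ.Stm

/-!
# Assembly: the determinant bound for all large `N`
-/

set_option autoImplicit false
set_option linter.unusedSectionVars false
set_option linter.unusedSimpArgs false
set_option linter.unusedVariables false

open Finset Matrix MeasureTheory Pool.Agent.Helper484 Pool.Agent.Y568.FL Pool.Agent.Helper7.Simplex
  Pool.Agent.Helper58.FU
open scoped ENNReal

namespace Pool.Agent.Helper10.AQ

lemma chi_nonneg (L : ℝ) : 0 ≤ chi L := by
  unfold chi
  linarith [Real.add_one_le_exp L]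

lemma ng_add (z : ℝ) : ng z + ng (-z) = z ^ 2 := by
  unfold ng
  rcases le_total z 0 with h | h
  · rw [min_eq_left h, min_eq_right (by linarith)]; ring
  · rw [min_eq_right h, min_eq_left (by linarith)]; ring

/-- the complement of the range of `I` -/
noncomputable def cpl {m N : ℕ} (I : Fin m → Fin N) : Finset (Fin N) := (univ.image I)ᶜ

lemma mem_cpl {m N : ℕ} {I : Fin m → Fin N} {j : Fin N} : j ∈ cpl I ↔ ¬ ∃ a, I a = j := by
  simp [cpl]

lemma card_cpl {m K N : ℕ} (hN : N = m + K) {I : Fin m → Fin N} (hI : Function.Injective I) :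
    (cpl I).card = K := by
  unfold cpl
  rw [Finset.card_compl, Finset.card_image_of_injective _ hI]
  simp [hN]

section pick

variable {m K N : ℕ} {x : Fin N → Fin m → ℝ} {b : Fin N → ℝ}

/-- For every `k` with a large marginal there is a feasible basis which misses `k` and has a small integral. -/
lemma pick (hSD : 0 < SD x b) {η ρ : ℝ} (hη : 0 < η) (hρ : 0 ≤ ρ)
    (Φ : (Fin m → Fin N) → (Fin K → ℝ) → ℝ) (hΦ : ∀ I v, 0 ≤ Φ I v)
    (hcont : ∀ I, Measurable (Φ I))
    (h : ∫⁻ v : Fin K → ℝ, ENNReal.ofReal (∑ I ∈ FF x b, (|D x I| / SD x b) * Φ I v) ≤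
      ENNReal.ofReal ρ) (k : Fin N) (hk : ρ < η * marg x b k) :
    ∃ I ∈ FF x b, k ∈ cpl I ∧ ∫⁻ v : Fin K → ℝ, ENNReal.ofReal (Φ I v) ≤ ENNReal.ofReal η := by
  classical
  by_contra hcon
  push Not at hcon
  have hp : ∀ I, 0 ≤ |D x I| / SD x b := fun I => div_nonneg (abs_nonneg _) hSD.le
  have hm : ∀ I, Measurable fun v : Fin K → ℝ => ENNReal.ofReal (Φ I v) :=
    fun I => (hcont I).ennreal_ofReal
  have h1 : ENNReal.ofReal (η * marg x b k) ≤ ∫⁻ v : Fin K → ℝ,
      ENNReal.ofReal (∑ I ∈ FF x b, (|D x I| / SD x b) * Φ I v) := by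
    calc ENNReal.ofReal (η * marg x b k)
        = ∑ I ∈ (FF x b).filter (fun I => ¬ ∃ a, I a = k),
            ENNReal.ofReal (|D x I| / SD x b) * ENNReal.ofReal η := by
          unfold marg
          rw [Finset.mul_sum, ENNReal.ofReal_sum_of_nonneg (fun I _ => mul_nonneg hη.le (hp I))]
          refine Finset.sum_congr rfl fun I _ => ?_
          rw [mul_comm, ENNReal.ofReal_mul (hp I)]
      _ ≤ ∑ I ∈ (FF x b).filter (fun I => ¬ ∃ a, I a = k),
            ENNReal.ofReal (|D x I| / SD x b) * ∫⁻ v : Fin K → ℝ, ENNReal.ofReal (Φ I v) := by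
          refine Finset.sum_le_sum fun I hI => ?_
          gcongr
          exact (hcon I (Finset.mem_filter.mp hI).1 (mem_cpl.2 (Finset.mem_filter.mp hI).2)).le
      _ ≤ ∑ I ∈ FF x b, ENNReal.ofReal (|D x I| / SD x b) *
            ∫⁻ v : Fin K → ℝ, ENNReal.ofReal (Φ I v) :=
          Finset.sum_le_sum_of_subset (Finset.filter_subset _ _)
      _ = ∫⁻ v : Fin K → ℝ, ∑ I ∈ FF x b, ENNReal.ofReal (|D x I| / SD x b) *
            ENNReal.ofReal (Φ I v) := by
          rw [lintegral_finsetSum _ (fun I _ => (hm I).const_mul _)]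
          refine Finset.sum_congr rfl fun I _ => ?_
          rw [lintegral_const_mul _ (hm I)]
      _ = ∫⁻ v : Fin K → ℝ, ENNReal.ofReal (∑ I ∈ FF x b, (|D x I| / SD x b) * Φ I v) := by
          congr 1
          funext v
          rw [ENNReal.ofReal_sum_of_nonneg (fun I _ => mul_nonneg (hp I) (hΦ I v))]
          refine Finset.sum_congr rfl fun I _ => ?_
          rw [ENNReal.ofReal_mul (hp I)]
  have h2 := h1.trans h
  rw [ENNReal.ofReal_le_ofReal_iff hρ] at h2
  linarith

end pick

lemma fz_cont : Continuous fz := by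
  have hc : Continuous gtail := continuous_iff_continuousAt.mpr fun u =>
    (J7431.gtail_deriv u).continuousAt
  unfold fz
  refine Continuous.log (J7431.gpdf_cont.div hc fun u => (J7431.gtail_pos u).ne') fun u => ?_
  exact (div_pos (J7431.gpdf_pos u) (J7431.gtail_pos u)).ne'

lemma LL_cont {N K : ℕ} (q : Fin N → ℝ) (w : Fin N → Fin K → ℝ) (T : Finset (Fin N)) :
    Continuous (LL q w T) := by
  have hd : ∀ j, Continuous fun v : Fin K → ℝ => w j ⬝ᵥ v := fun j =>
    Continuous.dotProduct continuous_const continuous_id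
  have hf : ∀ j, Continuous fun v : Fin K → ℝ => fz (w j ⬝ᵥ v) := fun j => fz_cont.comp (hd j)
  unfold LL
  fun_prop

lemma chi_cont : Continuous chi := by
  unfold chi
  fun_prop

/-- the right hand side in terms of the complementary frame -/
lemma rhs_eq {m K N : ℕ} {x : Fin N → Fin m → ℝ} {b : Fin N → ℝ} {u : Fin N → Fin K → ℝ}
    (hc : Compl x u) {I : Fin m → Fin N} (hD : D x I ≠ 0) :
    ∑ j, b j • u j = ∑ j ∈ cpl I, (b j - x j ⬝ᵥ Y x b I) • u j := by
  have h1 : ∑ j, (x j ⬝ᵥ Y x b I) • u j = 0 := by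
    funext c
    simp only [Finset.sum_apply, Pi.smul_apply, smul_eq_mul, Pi.zero_apply, dotProduct,
      Finset.sum_mul]
    rw [Finset.sum_comm]
    refine Finset.sum_eq_zero fun a _ => ?_
    have h2 := hc.mix a c
    calc ∑ j, x j a * Y x b I a * u j c = Y x b I a * ∑ j, x j a * u j c := by
          rw [Finset.mul_sum]
          exact Finset.sum_congr rfl fun j _ => by ring
      _ = 0 := by rw [h2, mul_zero]
  have h3 : ∑ j, b j • u j = ∑ j, (b j - x j ⬝ᵥ Y x b I) • u j := by
    simp only [sub_smul, Finset.sum_sub_distrib, h1, sub_zero]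
  rw [h3]
  symm
  apply Finset.sum_subset (Finset.subset_univ _)
  intro j _ hj
  rw [mem_cpl, not_not] at hj
  obtain ⟨a, rfl⟩ := hj
  rw [dot_Y hD, sub_self, zero_smul]

end Pool.Agent.Helper10.AQ
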