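import Pool.Agent.Helper10.AQ.Asm

/-!
# Assembly: the determinant bound for all large `N`
-/

set_option autoImplicit false
set_option linter.unusedSectionVars false
set_option linter.unusedSimpArgs false
set_option linter.unusedVariables false

open Finset Matrix MeasureTheory Pool.Agent.Helper484 Pool.Agent.Y568.FL Pool.Agent.Helper7.Simplex
  Pool.Agent.Helper58.FU
open scoped ENNReal

namespace Pool.Agent.Helper10.AQ

/-- all modules -/
structure Mods : Prop where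
  stab : S_STAB
  pt : S_PT
  ent : S_ENT
  bdd : S_BDD
  cmp : S_CMP
  ort : S_ORT
  trv : S_TRV
  cnt : S_CNT
  bal : S_BAL

lemma sum_emb {N K : ℕ} (T : Finset (Fin N)) (h : T.card = K) (f : Fin N → ℝ) :
    ∑ j ∈ T, f j = ∑ a : Fin K, f (T.orderEmbOfFin h a) := by
  conv_lhs => rw [← Finset.map_orderEmbOfFin_univ T h]
  rw [Finset.sum_map]
  rfl

theorem main_bound (h : Mods) (K : ℕ) (hK : 1 ≤ K) : ∃ N₀ : ℕ, ∀ N m : ℕ, N₀ ≤ N → N = m + K →
    ∀ (x : Fin N → Fin m → ℝ) (b : Fin N → ℝ), Fr x → Gen x b → (∀ j, 1 / 2 ≤ b j ∧ b j ≤ 2) →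
      SD x b ≤ √(bal N K : ℝ) := by
  classical
  obtain ⟨ε1, hε1, hT⟩ := h.trv K hK
  obtain ⟨ε2, hε2, hO⟩ := h.ort K ε1 hε1
  obtain ⟨B, hB1, hB⟩ := h.bdd K hK
  obtain ⟨R, hR3, hC⟩ := h.cmp K hK B (ε2 / 2) hB1 (half_pos hε2)
  obtain ⟨η, hη, hP⟩ := h.pt K R (by linarith)
  have hS : 0 < √(2 * Real.pi) ^ K := by positivity
  set ε : ℝ := min (1 / 2) (η / (4 * √(2 * Real.pi) ^ K)) with hε
  have hε0 : 0 < ε := lt_min (by norm_num) (by positivity)
  have hεh : ε ≤ 1 / 2 := min_le_left _ _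
  have hεη : ε * √(2 * Real.pi) ^ K ≤ η / 4 := by
    have h1 : ε ≤ η / (4 * √(2 * Real.pi) ^ K) := min_le_right _ _
    calc ε * √(2 * Real.pi) ^ K ≤ η / (4 * √(2 * Real.pi) ^ K) * √(2 * Real.pi) ^ K :=
          mul_le_mul_of_nonneg_right h1 hS.le
      _ = η / 4 := by field_simp
  obtain ⟨N₀, hN₀⟩ := h.ent K hK ε hε0
  refine ⟨max N₀ 1, fun N m hN hNm x b hx hgen hb => ?_⟩
  have hN1 : 0 < N := by have := le_max_right N₀ 1; omega
  have hN2 : N₀ ≤ N := (le_max_left _ _).trans hN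
  have hKR : (0 : ℝ) < K := by exact_mod_cast hK
  have hNR : (0 : ℝ) < N := by exact_mod_cast hN1
  by_contra hcon
  push Not at hcon
  have hSD : 0 < SD x b := (Real.sqrt_nonneg _).trans_lt hcon
  set q : Fin N → ℝ := marg x b with hq
  have hq0 : ∀ j, 0 ≤ q j := marg_nonneg x b
  have hqs : ∑ j, q j = K := sum_marg hNm hSD
  have hent := SD_entropy hNm hx hgen hSD
  obtain ⟨hA, hBd⟩ := hN₀ N hN2 q (SD x b) hq0 hqs hcon.le hent
  have hA2 : ∀ j, |q j * (N / K) - 1| ≤ 1 / 2 := fun j => (hA j).trans hεh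
  have hql : ∀ j, K / (2 * N) ≤ q j := by
    intro j
    have h1 := (abs_le.1 (hA2 j)).1
    have h2 : (1 : ℝ) / 2 ≤ q j * (N / K) := by linarith
    rw [div_le_iff₀ (by positivity)]
    have h3 : q j * (2 * N) = 2 * K * (q j * (N / K)) := by field_simp
    rw [h3]
    nlinarith
  have hqp : ∀ j, 0 < q j := fun j => lt_of_lt_of_le (by positivity) (hql j)
  obtain ⟨u, hc⟩ := exists_compl hNm hx
  set w : Fin N → Fin K → ℝ := fun j => (√(q j))⁻¹ • u j with hw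
  have hsq : ∀ j, 0 < √(q j) := fun j => Real.sqrt_pos.2 (hqp j)
  have huw : ∀ j, √(q j) • w j = u j := by
    intro j
    rw [hw]
    simp only
    rw [smul_smul, mul_inv_cancel₀ (hsq j).ne', one_smul]
  have hfr : ∀ v : Fin K → ℝ, ∑ j, q j * (w j ⬝ᵥ v) ^ 2 = v ⬝ᵥ v := by
    intro v
    rw [← hc.norm v]
    refine Finset.sum_congr rfl fun j _ => ?_
    have h1 : u j ⬝ᵥ v = √(q j) * (w j ⬝ᵥ v) := by
      have h2 := congrArg (fun z => z ⬝ᵥ v) (huw j)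
      simp only [smul_dotProduct, smul_eq_mul] at h2
      exact h2.symm
    rw [h1, mul_pow, Real.sq_sqrt (hq0 j)]
  have hst := h.stab m K N hNm x b u hx hgen hSD hc hqp
  have hΦ0 : ∀ (I : Fin m → Fin N) (v : Fin K → ℝ),
      0 ≤ chi (LL q w (cpl I) v) * Real.exp (-(v ⬝ᵥ v) / 2) := fun I v =>
    mul_nonneg (chi_nonneg _) (Real.exp_pos _).le
  have hΦm : ∀ I : Fin m → Fin N, Measurable fun v : Fin K → ℝ =>
      chi (LL q w (cpl I) v) * Real.exp (-(v ⬝ᵥ v) / 2) := by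
    intro I
    have h1 : Continuous fun v : Fin K → ℝ => v ⬝ᵥ v :=
      Continuous.dotProduct continuous_id continuous_id
    have h2 : Continuous fun v : Fin K → ℝ => chi (LL q w (cpl I) v) :=
      chi_cont.comp (LL_cont q w (cpl I))
    have h3 : Continuous fun v : Fin K → ℝ =>
        chi (LL q w (cpl I) v) * Real.exp (-(v ⬝ᵥ v) / 2) := by fun_prop
    exact h3.measurable
  set ρ : ℝ := (1 / (SD x b * ∏ j, q j ^ (q j / 2)) - 1) * √(2 * Real.pi) ^ K with hρ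
  have hPpos : 0 < ∏ j, q j ^ (q j / 2) :=
    Finset.prod_pos fun j _ => Real.rpow_pos_of_pos (hqp j) _
  have hρ0 : 0 ≤ ρ := by
    rw [hρ]
    refine mul_nonneg ?_ hS.le
    have h1 : 0 < SD x b * ∏ j, q j ^ (q j / 2) := mul_pos hSD hPpos
    have h2 : 1 ≤ 1 / (SD x b * ∏ j, q j ^ (q j / 2)) := by
      rw [le_div_iff₀ h1]; linarith
    linarith
  have hρk : ∀ k, ρ < η * q k := by
    intro k
    have h1 : ρ ≤ ε * (K / N) * √(2 * Real.pi) ^ K :=
      mul_le_mul_of_nonneg_right hBd hS.le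
    have h2 : ε * (K / N) * √(2 * Real.pi) ^ K = (K / N) * (ε * √(2 * Real.pi) ^ K) := by ring
    have h3 : (K / N : ℝ) * (ε * √(2 * Real.pi) ^ K) ≤ (K / N) * (η / 4) :=
      mul_le_mul_of_nonneg_left hεη (by positivity)
    have h4 : η * (K / (2 * N)) ≤ η * q k := mul_le_mul_of_nonneg_left (hql k) hη.le
    have h5 : (K / N : ℝ) * (η / 4) < η * (K / (2 * N)) := by
      have h6 : η * ((K : ℝ) / (2 * N)) = (K / N) * (η / 2) := by field_simp
      rw [h6]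
      have h7 : (0 : ℝ) < K / N := by positivity
      nlinarith
    linarith
  have hint : ∫⁻ v : Fin K → ℝ, ENNReal.ofReal (∑ I ∈ FF x b, (|D x I| / SD x b) *
      (chi (LL q w (cpl I) v) * Real.exp (-(v ⬝ᵥ v) / 2))) ≤ ENNReal.ofReal ρ := by
    refine le_trans (le_of_eq ?_) hst
    congr 1
    funext v
    congr 1
    rw [Finset.sum_mul]
    refine Finset.sum_congr rfl fun I _ => ?_
    rw [mul_assoc]
    rfl
  have hpick : ∀ k, ∃ I ∈ FF x b, k ∈ cpl I ∧ Good q w (cpl I) R := by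
    intro k
    obtain ⟨I, hI, hk, h1⟩ := pick hSD hη hρ0 (fun I v => chi (LL q w (cpl I) v) *
      Real.exp (-(v ⬝ᵥ v) / 2)) hΦ0 hΦm hint k (hρk k)
    exact ⟨I, hI, hk, hP _ h1⟩
  have hinj : ∀ I ∈ FF x b, Function.Injective I := fun I hI =>
    (Finset.mem_filter.mp hI).2.1.injective
  have hgood3 : ∀ T, Good q w T R → Good q w T 3 := fun T hg c hc' =>
    hg c (hc'.trans (pow_le_pow_left₀ (by norm_num) hR3 2))
  have hwB : ∀ j, w j ⬝ᵥ w j ≤ B ^ 2 := by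
    intro j
    obtain ⟨I, hI, hk, hg⟩ := hpick j
    exact hB N q w (cpl I) hN1 hA2 hqs hfr (card_cpl hNm (hinj I hI)) (hgood3 _ hg) j hk
  have hcmp : ∀ I ∈ FF x b, Good q w (cpl I) R → ∀ θ : Fin K → ℝ, θ ⬝ᵥ θ = 1 →
      |∑ j ∈ cpl I, ng (w j ⬝ᵥ θ) - ∑ j, q j * ng (w j ⬝ᵥ θ)| ≤ ε2 / 2 := fun I hI hg =>
    hC N q w (cpl I) hN1 hA2 hqs hwB (card_cpl hNm (hinj I hI)) hg
  have horth : ∀ I ∈ FF x b, Good q w (cpl I) R → ∀ θ : Fin K → ℝ, θ ⬝ᵥ θ = 1 →
      |∑ j ∈ cpl I, (w j ⬝ᵥ θ) ^ 2 - 1| ≤ ε2 := by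
    intro I hI hg θ hθ
    have h1 := hcmp I hI hg θ hθ
    have h2 := hcmp I hI hg (-θ) (by rw [dotProduct_neg, neg_dotProduct, neg_neg, hθ])
    have h3 : ∑ j ∈ cpl I, (w j ⬝ᵥ θ) ^ 2 = ∑ j ∈ cpl I, ng (w j ⬝ᵥ θ) +
        ∑ j ∈ cpl I, ng (w j ⬝ᵥ (-θ)) := by
      rw [← Finset.sum_add_distrib]
      refine Finset.sum_congr rfl fun j _ => ?_
      rw [dotProduct_neg, ng_add]
    have h4 : (1 : ℝ) = ∑ j, q j * ng (w j ⬝ᵥ θ) + ∑ j, q j * ng (w j ⬝ᵥ (-θ)) := by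
      rw [← hθ, ← hfr θ, ← Finset.sum_add_distrib]
      refine Finset.sum_congr rfl fun j _ => ?_
      rw [dotProduct_neg, ← mul_add, ng_add]
    rw [h3]
    rw [abs_le] at h1 h2 ⊢
    constructor <;> linarith
  -- the reference basis
  obtain ⟨I₀, hI₀, -, hg₀⟩ := hpick ⟨0, hN1⟩
  have hc₀ := card_cpl hNm (hinj I₀ hI₀)
  set e : Fin K → Fin K → ℝ := fun a => w ((cpl I₀).orderEmbOfFin hc₀ a) with he
  have hall : ∀ k : Fin N, (∀ a c, |e a ⬝ᵥ e c - if a = c then 1 else 0| ≤ ε1) ∧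
      ∃ a, (w k - e a) ⬝ᵥ (w k - e a) ≤ ε1 ^ 2 := by
    intro k
    obtain ⟨I, hI, hk, hg⟩ := hpick k
    have hcI := card_cpl hNm (hinj I hI)
    obtain ⟨h1, h2⟩ := hO e (fun a => w ((cpl I).orderEmbOfFin hcI a))
      (fun θ hθ => by
        have := horth I₀ hI₀ hg₀ θ hθ
        rwa [sum_emb (cpl I₀) hc₀ (fun j => (w j ⬝ᵥ θ) ^ 2)] at this)
      (fun θ hθ => by
        have := horth I hI hg θ hθ
        rwa [sum_emb (cpl I) hcI (fun j => (w j ⬝ᵥ θ) ^ 2)] at this)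
      (fun θ hθ => by
        have h3 := hcmp I₀ hI₀ hg₀ θ hθ
        have h4 := hcmp I hI hg θ hθ
        rw [sum_emb (cpl I₀) hc₀ (fun j => ng (w j ⬝ᵥ θ))] at h3
        rw [sum_emb (cpl I) hcI (fun j => ng (w j ⬝ᵥ θ))] at h4
        rw [abs_le] at h3 h4 ⊢
        constructor <;> linarith [h3.1, h3.2, h4.1, h4.2])
    refine ⟨h1, ?_⟩
    have h5 : k ∈ Set.range ((cpl I).orderEmbOfFin hcI) := by
      rw [Finset.range_orderEmbOfFin]
      exact hk
    obtain ⟨c, rfl⟩ := h5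
    exact h2 c
  have hort := (hall ⟨0, hN1⟩).1
  choose p hp using fun k => (hall k).2
  have htr : ∀ I ∈ FF x b, ∀ a, ∃ j ∈ (univ.image I)ᶜ, p j = a := by
    intro I hI
    have hF : Fz x b I := (Finset.mem_filter.mp hI).2
    refine hT N q b (fun j => b j - x j ⬝ᵥ Y x b I) w e p (cpl I) hN1 hA2 hfr hort hp hb
      (fun j => sub_nonneg.2 (hF.2.2 j)) ?_
    have h1 := rhs_eq (b := b) hc hF.2.1
    have h2 : ∀ (c : ℝ) (j : Fin N), (c * √(q j)) • w j = c • u j := by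
      intro c j
      rw [mul_smul, huw]
    simp only [h2]
    exact h1
  have h1 := h.cnt m K N hNm hK x b p hx hgen htr
  have h2 := h.bal N K hK (fun a => (univ.filter fun i => p i = a).card) (by
    have := Finset.card_eq_sum_card_fiberwise (f := p) (s := Finset.univ) (t := Finset.univ)
      (fun i _ => Finset.mem_coe.mpr (Finset.mem_univ _))
    rw [Finset.card_univ, Fintype.card_fin] at this
    exact this.symm)
  have h3 : √(∏ a, ((univ.filter fun i => p i = a).card : ℝ)) ≤ √(bal N K : ℝ) := by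
    apply Real.sqrt_le_sqrt
    rw [← Nat.cast_prod]
    exact_mod_cast h2
  linarith

end Pool.Agent.Helper10.AQ
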