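import Pool.Agent.Helper10.AQ.Stm

/-!
# Explicit versions of the modules
-/

set_option autoImplicit false

open Finset Matrix MeasureTheory Pool.Agent.Helper484 Pool.Agent.Y568.FL Pool.Agent.Helper7.Simplex
  Pool.Agent.Helper58.FU
open scoped ENNReal

namespace Pool.Agent.Helper10.AQ

/-- **PTX.** `S_PT` with its explicit constant (the constant of the proof in `PT.lean`, at most). -/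
def S_PTX : Prop := ∀ (K : ℕ) (R : ℝ), 0 ≤ R → ∀ F : (Fin K → ℝ) → ℝ,
  ∫⁻ v : Fin K → ℝ, ENNReal.ofReal (chi (F v) * Real.exp (-(v ⬝ᵥ v) / 2)) ≤
      ENNReal.ofReal ((2 / (K + 1)) ^ K * Real.exp (-(R + 1) ^ 2 / 2) / 6) →
    ∀ c : Fin K → ℝ, c ⬝ᵥ c ≤ R ^ 2 → ∃ v : Fin K → ℝ, (v - c) ⬝ᵥ (v - c) ≤ 1 ∧ |F v| ≤ 1

/-- **ENX.** `S_ENT` with an explicit `N₀`: `100 K² / ε² ≤ N`, `ε ≤ 1/2` (then `ℓ ≥ N / (2 K)`, `N / (8 ℓ²) ≤ K² / (2 N)`,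
and `N (exp (K / (16 ℓ²)) - 1) ≤ K³ / (2 N)`). -/
def S_ENX : Prop := ∀ (K : ℕ), 1 ≤ K → ∀ ε : ℝ, 0 < ε → ε ≤ 1 / 2 → ∀ N : ℕ,
  100 * (K : ℝ) ^ 2 / ε ^ 2 ≤ N →
  ∀ (q : Fin N → ℝ) (Z : ℝ), (∀ j, 0 ≤ q j) → ∑ j, q j = K → √(bal N K : ℝ) ≤ Z →
    Z * ∏ j, q j ^ (q j / 2) ≤ 1 →
    (∀ j, |q j * (N / K) - 1| ≤ ε) ∧ 1 / (Z * ∏ j, q j ^ (q j / 2)) - 1 ≤ ε * (K / N)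

/-- **BDX.** `S_BDD` with `B = 14 K + 29` (as in `BDD.lean`). -/
def S_BDX : Prop := ∀ (K : ℕ), 1 ≤ K → ∀ (N : ℕ) (q : Fin N → ℝ)
  (w : Fin N → Fin K → ℝ) (T : Finset (Fin N)), 0 < N → (∀ j, |q j * (N / K) - 1| ≤ 1 / 2) →
    ∑ j, q j = K → (∀ v : Fin K → ℝ, ∑ j, q j * (w j ⬝ᵥ v) ^ 2 = v ⬝ᵥ v) → T.card = K →
    Good q w T 3 → ∀ j ∈ T, w j ⬝ᵥ w j ≤ (14 * K + 29) ^ 2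

/-- **CMX.** `S_CMP` with `R = 100 K B² / ε` (or a smaller number; any `R` at least this), `B ≥ 1`, `ε ≤ 1`. -/
def S_CMX : Prop := ∀ (K : ℕ), 1 ≤ K → ∀ B ε : ℝ, 1 ≤ B → 0 < ε → ε ≤ 1 → ∀ (N : ℕ)
  (q : Fin N → ℝ) (w : Fin N → Fin K → ℝ) (T : Finset (Fin N)), 0 < N →
    (∀ j, |q j * (N / K) - 1| ≤ 1 / 2) → ∑ j, q j = K → (∀ j, w j ⬝ᵥ w j ≤ B ^ 2) → T.card = K →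
    Good q w T (100 * K * B ^ 2 / ε) → ∀ θ : Fin K → ℝ, θ ⬝ᵥ θ = 1 →
      |∑ j ∈ T, ng (w j ⬝ᵥ θ) - ∑ j, q j * ng (w j ⬝ᵥ θ)| ≤ ε

/-- **ORX.** `S_ORT` with `ε = ε'² / (2000 K⁵)`, `ε' ≤ 1`. Direct proof.
(i) `θ = e_a / |e_a|`: `|e_a|² ≤ 1 + ε`; `∑_a |e_a|² = ∑_c ∑_a (e_a ⬝ e_c^std)² ≥ K (1 - ε)`; so `| |e_a|² - 1 | ≤ 2 K ε`, and for
`a ≠ c`, `(e_a ⬝ e_c)² ≤ |e_a|² (1 + ε - |e_a|²) ≤ 10 K ε`. The same for `w`. (ii) `θ = -w_b / |w_b|`: `∑_a ((e_a ⬝ θ)_-)² ≥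
|w_b|² - ε`, so `∑_a ((e_a ⬝ θ)_+)² ≤ 6 K ε`, that is `e_a ⬝ w_b ≥ -5 √(K ε)` for all `a`, `b`. (iii) Polarisation: for
`b ≠ c`, `∑_a (e_a ⬝ w_b) (e_a ⬝ w_c) ≤ w_b ⬝ w_c + 2 ε ≤ 6 √(K ε)`; each term is at least `-10 √(K ε)`, so each
`(e_a ⬝ w_b) (e_a ⬝ w_c) ≤ 16 K √(K ε)`. (iv) For `b` take `a` with `e_a ⬝ w_b` maximal: it is at least `1 / √(2 K)`; so
`|e_a ⬝ w_c| ≤ 23 K² √ε` for `c ≠ b`. (v) `(e_a ⬝ w_b)² ≥ |e_a|² (1 - ε) - K (23 K² √ε)² ≥ 1 - 600 K⁵ ε`, so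
`|w_b - e_a|² ≤ 2 + 4 K ε - 2 (1 - 600 K⁵ ε) ≤ 1300 K⁵ ε`. -/
def S_ORX : Prop := ∀ (K : ℕ), 1 ≤ K → ∀ ε' : ℝ, 0 < ε' → ε' ≤ 1 → ∀ e w : Fin K → Fin K → ℝ,
  (∀ θ : Fin K → ℝ, θ ⬝ᵥ θ = 1 → |∑ a, (e a ⬝ᵥ θ) ^ 2 - 1| ≤ ε' ^ 2 / (2000 * K ^ 5)) →
  (∀ θ : Fin K → ℝ, θ ⬝ᵥ θ = 1 → |∑ a, (w a ⬝ᵥ θ) ^ 2 - 1| ≤ ε' ^ 2 / (2000 * K ^ 5)) →
  (∀ θ : Fin K → ℝ, θ ⬝ᵥ θ = 1 → |∑ a, ng (e a ⬝ᵥ θ) - ∑ a, ng (w a ⬝ᵥ θ)| ≤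
    ε' ^ 2 / (2000 * K ^ 5)) →
    (∀ a c, |e a ⬝ᵥ e c - if a = c then 1 else 0| ≤ ε') ∧
    ∀ b, ∃ a, (w b - e a) ⬝ᵥ (w b - e a) ≤ ε' ^ 2

/-- **TRX.** `S_TRV` with `ε = 1 / (2000 K)` (as in `TRV.lean`). -/
def S_TRX : Prop := ∀ (K : ℕ), 1 ≤ K → ∀ (N : ℕ) (q b lam : Fin N → ℝ)
  (w : Fin N → Fin K → ℝ) (e : Fin K → Fin K → ℝ) (p : Fin N → Fin K) (T : Finset (Fin N)),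
    0 < N → (∀ j, |q j * (N / K) - 1| ≤ 1 / 2) →
    (∀ v : Fin K → ℝ, ∑ j, q j * (w j ⬝ᵥ v) ^ 2 = v ⬝ᵥ v) →
    (∀ a c, |e a ⬝ᵥ e c - if a = c then 1 else 0| ≤ 1 / (2000 * K)) →
    (∀ k, (w k - e (p k)) ⬝ᵥ (w k - e (p k)) ≤ (1 / (2000 * K)) ^ 2) →
    (∀ j, 1 / 2 ≤ b j ∧ b j ≤ 2) → (∀ j, 0 ≤ lam j) →
    ∑ j, (b j * √(q j)) • w j = ∑ j ∈ T, (lam j * √(q j)) • w j →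
    ∀ a, ∃ j ∈ T, p j = a

/-- the final radius: `100 K (14 K + 29)² / (ε₂ / 2)` with `ε₂ = (1 / (2000 K))² / (2000 K⁵)` -/
noncomputable def RR (K : ℕ) : ℝ :=
  100 * K * (14 * K + 29) ^ 2 / (((1 / (2000 * K)) ^ 2 / (2000 * K ^ 5)) / 2)

/-- the final `η` -/
noncomputable def EE (K : ℕ) : ℝ := (2 / (K + 1)) ^ K * Real.exp (-(RR K + 1) ^ 2 / 2) / 6

/-- **NUM.** The final numerics: with `ε = min (1/2) (EE / (4 √(2π)^K))` and `N ≥ exp (10³⁴ K²⁰)`: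
`100 K² / ε² ≤ N`. (`RR K ≤ 100 K (43 K)² · 1.6 10¹⁰ K⁷ ≤ 3 · 10¹⁵ K¹⁰`, so `(RR + 1)² ≤ 10³¹ K²⁰`;
`1/EE² = 36 ((K+1)/2)^(2K) exp ((RR+1)²)`, `(2π)^K · 36 · 16 · 100 K² · K^(2K) ≤ exp (20 K²)`.) -/
def S_NUM : Prop := ∀ (K : ℕ), 1 ≤ K → ∀ N : ℕ, Real.exp (10 ^ 34 * K ^ 20) ≤ N →
  100 * (K : ℝ) ^ 2 / (min (1 / 2) (EE K / (4 * √(2 * Real.pi) ^ K))) ^ 2 ≤ N

end Pool.Agent.Helper10.AQ
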