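import Pool.Agent.Helper10.AQ.Stm2
import Pool.Agent.Helper58.FU.Geo

/-!
# Equality: statements
-/

set_option autoImplicit false

open Finset Matrix MeasureTheory Pool.Agent.Helper484 Pool.Agent.Y568.FL Pool.Agent.Helper7.Simplex
  Pool.Agent.Helper58.FU
open scoped ENNReal

universe u

namespace Pool.Agent.Helper10.AQ

/-- **BEQ.** Equality in `S_BAL`: equality in `n ≤ ℓ ((ℓ + 1)/ℓ)^(n - ℓ)` for integers `n` only for `n = ℓ, ℓ + 1`; or:
if `n a ≥ n c + 2` then moving one unit from `a` to `c` makes the product larger, against `S_BAL` (all factors are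
positive, as `bal N K > 0`). -/
def S_BEQ : Prop := ∀ (N K : ℕ), 1 ≤ K → K ≤ N → ∀ n : Fin K → ℕ, ∑ a, n a = N → ∏ a, n a = bal N K →
  ∀ a, n a = N / K ∨ n a = N / K + 1

/-- **CEQ.** Equality in `S_CNT`: `SD = √bal` forces `∏ (block sizes) = bal` and `SD * ∏ q_j^(q_j/2) = 1` (as in `CNT.lean`:
`∏ q_j^(q_j/2) ≥ 1 / √(∏ block sizes)`, and `S_BAL`, `SD_entropy`). -/
def S_CEQ : Prop := ∀ (m K N : ℕ), N = m + K → 1 ≤ K → ∀ (x : Fin N → Fin m → ℝ) (b : Fin N → ℝ)
  (p : Fin N → Fin K), Fr x → Gen x b → 0 < SD x b → √(bal N K : ℝ) ≤ SD x b →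
  (∀ I ∈ FF x b, ∀ a, ∃ j ∈ (univ.image I)ᶜ, p j = a) →
    ∏ a, (univ.filter fun i => p i = a).card = bal N K ∧
      1 ≤ SD x b * ∏ j, marg x b j ^ (marg x b j / 2)

/-- **GEQ.** Geometry: if the coordinates `x` of the projection of the centred vertices satisfy
`x_i ⬝ x_j = δ_ij - √(q_i q_j)` for `p i = p j` and `δ_ij` otherwise, with `q > 0`, then the projection was the one to
`blockSpan v p`: `∑ x_j = 0` gives `√q_i ∑_{p j = p i} √q_j = 1`, so `q_i = 1 / (block size)`; so
`|x_i - x_j|² = 2 = |v_i - v_j|²` for `p i = p j`, so `v_i - v_j ∈ E` (an orthogonal projection preserves the norm only on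
its range), the span has dimension `n - k` (`proj_star'`; `p` is surjective), so it is `E`. Use `coord`
(`J7761.R_frame hV v hv`) as in `proj_le'` and `proj_star'` (Helper58/FU/Geo.lean): the hypothesis `H` is for all
centred Parseval frames `x` with the volume of the projection. -/
def S_GEQ : Prop := ∀ (n k : ℕ), k ≤ n → ∀ (V : Type u) [NormedAddCommGroup V] [InnerProductSpace ℝ V]
  [FiniteDimensional ℝ V] [MeasurableSpace V] [BorelSpace V], Module.finrank ℝ V = n →
  ∀ v : Fin (n + 1) → V, (∀ i j, i ≠ j → dist (v i) (v j) = √2) →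
  ∀ E : Submodule ℝ V, Module.finrank ℝ E = n - k →
  (∀ x : Fin (n + 1) → Fin (n - k) → ℝ, Fr x → ∑ j, x j = 0 →
    volume (convexHull ℝ (Set.range x)) =
      J7762.projVol (n - k) E (convexHull ℝ (Set.range v)) →
    ∃ (p : Fin (n + 1) → Fin (k + 1)) (q : Fin (n + 1) → ℝ), Function.Surjective p ∧ (∀ j, 0 < q j) ∧
      (∀ a, (univ.filter fun i => p i = a).card = (n + 1) / (k + 1) ∨
        (univ.filter fun i => p i = a).card = (n + 1) / (k + 1) + 1) ∧
      ∀ i j, x i ⬝ᵥ x j = (if i = j then 1 else 0) - if p i = p j then √(q i) * √(q j) else 0) →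
  ∃ p : Fin (n + 1) → Fin (k + 1),
    (∀ a, (univ.filter fun i => p i = a).card = (n + 1) / (k + 1) ∨
      (univ.filter fun i => p i = a).card = (n + 1) / (k + 1) + 1) ∧
    E = Submodule.span ℝ {x | ∃ i j, p i = p j ∧ x = v i - v j}

end Pool.Agent.Helper10.AQ
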