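import Pool.Agent.Helper10.AQ.Asm3
import Pool.Agent.Helper10.AQ.Stm3

/-!
# Assembly: the determinant bound for all large `N`
-/

set_option autoImplicit false
set_option linter.unusedSectionVars false
set_option linter.unusedSimpArgs false
set_option linter.unusedVariables false

open Finset Matrix MeasureTheory Pool.Agent.Helper484 Pool.Agent.Y568.FL Pool.Agent.Helper7.Simplex
  Pool.Agent.Helper58.FU
open scoped ENNReal

namespace Pool.Agent.Helper10.AQ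

theorem main_eq_x (h : ModsX) (ceq : S_CEQ) (K : ℕ) (hK : 1 ≤ K) (N m : ℕ)
    (hN : Real.exp (10 ^ 34 * K ^ 20) ≤ N) (hNm : N = m + K)
    (x : Fin N → Fin m → ℝ) (b : Fin N → ℝ) (hx : Fr x) (hgen : Gen x b)
    (hb : ∀ j, 1 / 2 ≤ b j ∧ b j ≤ 2) (hKN : K ≤ N) (hcon : √(bal N K : ℝ) ≤ SD x b) :
    ∃ (u : Fin N → Fin K → ℝ) (p : Fin N → Fin K) (q : Fin N → ℝ) (e : Fin K → Fin K → ℝ),
      Compl x u ∧ (∀ j, 0 < q j) ∧ (∏ a, (univ.filter fun i => p i = a).card = bal N K) ∧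
      (∀ a c, e a ⬝ᵥ e c = if a = c then 1 else 0) ∧ ∀ j, u j = √(q j) • e (p j) := by
  classical
  have hKR : (0 : ℝ) < K := by exact_mod_cast hK
  have hK1 : (1 : ℝ) ≤ K := by exact_mod_cast hK
  set ε1 : ℝ := 1 / (2000 * K) with hε1d
  have hε1 : 0 < ε1 := by positivity
  have hε11 : ε1 ≤ 1 := by
    rw [hε1d, div_le_one (by positivity)]
    linarith
  set ε2 : ℝ := ε1 ^ 2 / (2000 * K ^ 5) with hε2d
  have hε2 : 0 < ε2 := by positivity
  have hε21 : ε2 ≤ 1 := by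
    rw [hε2d, div_le_one (by positivity)]
    have h1 : ε1 ^ 2 ≤ 1 := pow_le_one₀ hε1.le hε11
    have h2 : (1 : ℝ) ≤ (K : ℝ) ^ 5 := one_le_pow₀ hK1
    linarith
  set B : ℝ := 14 * K + 29 with hBd0
  have hB1 : 1 ≤ B := by linarith
  set R : ℝ := 100 * K * B ^ 2 / (ε2 / 2) with hRd
  have hR3 : 3 ≤ R := by
    rw [hRd, le_div_iff₀ (by positivity)]
    have h1 : (1 : ℝ) ≤ B ^ 2 := one_le_pow₀ hB1
    nlinarith
  have hT := h.trv K hK
  have hO := h.ort K hK ε1 hε1 hε11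
  have hB := h.bdd K hK
  have hC := h.cmp K hK B (ε2 / 2) hB1 (half_pos hε2) (by linarith)
  set η : ℝ := EE K with hηd
  have hRR : RR K = R := rfl
  have hη : 0 < η := by
    rw [hηd]
    unfold EE
    positivity
  have hP := h.pt K R (by linarith)
  have hPη : (2 / ((K : ℝ) + 1)) ^ K * Real.exp (-(R + 1) ^ 2 / 2) / 6 = η := rfl
  rw [hPη] at hP
  have hS : 0 < √(2 * Real.pi) ^ K := by positivity
  set ε : ℝ := min (1 / 2) (η / (4 * √(2 * Real.pi) ^ K)) with hε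
  have hε0 : 0 < ε := lt_min (by norm_num) (by positivity)
  have hεh : ε ≤ 1 / 2 := min_le_left _ _
  have hεη : ε * √(2 * Real.pi) ^ K ≤ η / 4 := by
    have h1 : ε ≤ η / (4 * √(2 * Real.pi) ^ K) := min_le_right _ _
    calc ε * √(2 * Real.pi) ^ K ≤ η / (4 * √(2 * Real.pi) ^ K) * √(2 * Real.pi) ^ K :=
          mul_le_mul_of_nonneg_right h1 hS.le
      _ = η / 4 := by field_simp
  have hN1 : 0 < N := by
    have h1 : (0 : ℝ) < N := (Real.exp_pos _).trans_le hN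
    exact_mod_cast h1
  have hN2 := h.num K hK N hN
  have hNR : (0 : ℝ) < N := by exact_mod_cast hN1
  have hbp : 0 < bal N K := by
    have h1 : 0 < N / K := Nat.div_pos hKN hK
    unfold bal
    positivity
  have hSD : 0 < SD x b := (Real.sqrt_pos.2 (by exact_mod_cast hbp)).trans_le hcon
  set q : Fin N → ℝ := marg x b with hq
  have hq0 : ∀ j, 0 ≤ q j := marg_nonneg x b
  have hqs : ∑ j, q j = K := sum_marg hNm hSD
  have hent := SD_entropy hNm hx hgen hSD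
  obtain ⟨hA, hBd⟩ := h.ent K hK ε hε0 hεh N hN2 q (SD x b) hq0 hqs hcon hent
  have hA2 : ∀ j, |q j * (N / K) - 1| ≤ 1 / 2 := fun j => (hA j).trans hεh
  have hql : ∀ j, K / (2 * N) ≤ q j := by
    intro j
    have h1 := (abs_le.1 (hA2 j)).1
    have h2 : (1 : ℝ) / 2 ≤ q j * (N / K) := by linarith
    rw [div_le_iff₀ (by positivity)]
    have h3 : q j * (2 * N) = 2 * K * (q j * (N / K)) := by field_simp
    rw [h3]
    nlinarith
  have hqp : ∀ j, 0 < q j := fun j => lt_of_lt_of_le (by positivity) (hql j)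
  obtain ⟨u, hc⟩ := exists_compl hNm hx
  set w : Fin N → Fin K → ℝ := fun j => (√(q j))⁻¹ • u j with hw
  have hsq : ∀ j, 0 < √(q j) := fun j => Real.sqrt_pos.2 (hqp j)
  have huw : ∀ j, √(q j) • w j = u j := by
    intro j
    rw [hw]
    simp only
    rw [smul_smul, mul_inv_cancel₀ (hsq j).ne', one_smul]
  have hfr : ∀ v : Fin K → ℝ, ∑ j, q j * (w j ⬝ᵥ v) ^ 2 = v ⬝ᵥ v := by
    intro v
    rw [← hc.norm v]
    refine Finset.sum_congr rfl fun j _ => ?_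
    have h1 : u j ⬝ᵥ v = √(q j) * (w j ⬝ᵥ v) := by
      have h2 := congrArg (fun z => z ⬝ᵥ v) (huw j)
      simp only [smul_dotProduct, smul_eq_mul] at h2
      exact h2.symm
    rw [h1, mul_pow, Real.sq_sqrt (hq0 j)]
  have hst := h.stab m K N hNm x b u hx hgen hSD hc hqp
  have hΦ0 : ∀ (I : Fin m → Fin N) (v : Fin K → ℝ),
      0 ≤ chi (LL q w (cpl I) v) * Real.exp (-(v ⬝ᵥ v) / 2) := fun I v =>
    mul_nonneg (chi_nonneg _) (Real.exp_pos _).le
  have hΦm : ∀ I : Fin m → Fin N, Measurable fun v : Fin K → ℝ =>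
      chi (LL q w (cpl I) v) * Real.exp (-(v ⬝ᵥ v) / 2) := by
    intro I
    have h1 : Continuous fun v : Fin K → ℝ => v ⬝ᵥ v :=
      Continuous.dotProduct continuous_id continuous_id
    have h2 : Continuous fun v : Fin K → ℝ => chi (LL q w (cpl I) v) :=
      chi_cont.comp (LL_cont q w (cpl I))
    have h3 : Continuous fun v : Fin K → ℝ =>
        chi (LL q w (cpl I) v) * Real.exp (-(v ⬝ᵥ v) / 2) := by fun_prop
    exact h3.measurable
  set ρ : ℝ := (1 / (SD x b * ∏ j, q j ^ (q j / 2)) - 1) * √(2 * Real.pi) ^ K with hρ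
  have hPpos : 0 < ∏ j, q j ^ (q j / 2) :=
    Finset.prod_pos fun j _ => Real.rpow_pos_of_pos (hqp j) _
  have hρ0 : 0 ≤ ρ := by
    rw [hρ]
    refine mul_nonneg ?_ hS.le
    have h1 : 0 < SD x b * ∏ j, q j ^ (q j / 2) := mul_pos hSD hPpos
    have h2 : 1 ≤ 1 / (SD x b * ∏ j, q j ^ (q j / 2)) := by
      rw [le_div_iff₀ h1]; linarith
    linarith
  have hρk : ∀ k, ρ < η * q k := by
    intro k
    have h1 : ρ ≤ ε * (K / N) * √(2 * Real.pi) ^ K :=
      mul_le_mul_of_nonneg_right hBd hS.le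
    have h2 : ε * (K / N) * √(2 * Real.pi) ^ K = (K / N) * (ε * √(2 * Real.pi) ^ K) := by ring
    have h3 : (K / N : ℝ) * (ε * √(2 * Real.pi) ^ K) ≤ (K / N) * (η / 4) :=
      mul_le_mul_of_nonneg_left hεη (by positivity)
    have h4 : η * (K / (2 * N)) ≤ η * q k := mul_le_mul_of_nonneg_left (hql k) hη.le
    have h5 : (K / N : ℝ) * (η / 4) < η * (K / (2 * N)) := by
      have h6 : η * ((K : ℝ) / (2 * N)) = (K / N) * (η / 2) := by field_simp
      rw [h6]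
      have h7 : (0 : ℝ) < K / N := by positivity
      nlinarith
    linarith
  have hint : ∫⁻ v : Fin K → ℝ, ENNReal.ofReal (∑ I ∈ FF x b, (|D x I| / SD x b) *
      (chi (LL q w (cpl I) v) * Real.exp (-(v ⬝ᵥ v) / 2))) ≤ ENNReal.ofReal ρ := by
    refine le_trans (le_of_eq ?_) hst
    congr 1
    funext v
    congr 1
    rw [Finset.sum_mul]
    refine Finset.sum_congr rfl fun I _ => ?_
    rw [mul_assoc]
    rfl
  have hpick : ∀ k, ∃ I ∈ FF x b, k ∈ cpl I ∧ Good q w (cpl I) R := by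
    intro k
    obtain ⟨I, hI, hk, h1⟩ := pick hSD hη hρ0 (fun I v => chi (LL q w (cpl I) v) *
      Real.exp (-(v ⬝ᵥ v) / 2)) hΦ0 hΦm hint k (hρk k)
    exact ⟨I, hI, hk, hP _ h1⟩
  have hinj : ∀ I ∈ FF x b, Function.Injective I := fun I hI =>
    (Finset.mem_filter.mp hI).2.1.injective
  have hgood3 : ∀ T, Good q w T R → Good q w T 3 := fun T hg c hc' =>
    hg c (hc'.trans (pow_le_pow_left₀ (by norm_num) hR3 2))
  have hwB : ∀ j, w j ⬝ᵥ w j ≤ B ^ 2 := by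
    intro j
    obtain ⟨I, hI, hk, hg⟩ := hpick j
    exact hB N q w (cpl I) hN1 hA2 hqs hfr (card_cpl hNm (hinj I hI)) (hgood3 _ hg) j hk
  have hcmp : ∀ I ∈ FF x b, Good q w (cpl I) R → ∀ θ : Fin K → ℝ, θ ⬝ᵥ θ = 1 →
      |∑ j ∈ cpl I, ng (w j ⬝ᵥ θ) - ∑ j, q j * ng (w j ⬝ᵥ θ)| ≤ ε2 / 2 := fun I hI hg =>
    hC N q w (cpl I) hN1 hA2 hqs hwB (card_cpl hNm (hinj I hI)) hg
  have horth : ∀ I ∈ FF x b, Good q w (cpl I) R → ∀ θ : Fin K → ℝ, θ ⬝ᵥ θ = 1 →
      |∑ j ∈ cpl I, (w j ⬝ᵥ θ) ^ 2 - 1| ≤ ε2 := by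
    intro I hI hg θ hθ
    have h1 := hcmp I hI hg θ hθ
    have h2 := hcmp I hI hg (-θ) (by rw [dotProduct_neg, neg_dotProduct, neg_neg, hθ])
    have h3 : ∑ j ∈ cpl I, (w j ⬝ᵥ θ) ^ 2 = ∑ j ∈ cpl I, ng (w j ⬝ᵥ θ) +
        ∑ j ∈ cpl I, ng (w j ⬝ᵥ (-θ)) := by
      rw [← Finset.sum_add_distrib]
      refine Finset.sum_congr rfl fun j _ => ?_
      rw [dotProduct_neg, ng_add]
    have h4 : (1 : ℝ) = ∑ j, q j * ng (w j ⬝ᵥ θ) + ∑ j, q j * ng (w j ⬝ᵥ (-θ)) := by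
      rw [← hθ, ← hfr θ, ← Finset.sum_add_distrib]
      refine Finset.sum_congr rfl fun j _ => ?_
      rw [dotProduct_neg, ← mul_add, ng_add]
    rw [h3]
    rw [abs_le] at h1 h2 ⊢
    constructor <;> linarith
  -- the reference basis
  obtain ⟨I₀, hI₀, -, hg₀⟩ := hpick ⟨0, hN1⟩
  have hc₀ := card_cpl hNm (hinj I₀ hI₀)
  set e : Fin K → Fin K → ℝ := fun a => w ((cpl I₀).orderEmbOfFin hc₀ a) with he
  have hall : ∀ k : Fin N, (∀ a c, |e a ⬝ᵥ e c - if a = c then 1 else 0| ≤ ε1) ∧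
      ∃ a, (w k - e a) ⬝ᵥ (w k - e a) ≤ ε1 ^ 2 := by
    intro k
    obtain ⟨I, hI, hk, hg⟩ := hpick k
    have hcI := card_cpl hNm (hinj I hI)
    obtain ⟨h1, h2⟩ := hO e (fun a => w ((cpl I).orderEmbOfFin hcI a))
      (fun θ hθ => by
        have := horth I₀ hI₀ hg₀ θ hθ
        rwa [sum_emb (cpl I₀) hc₀ (fun j => (w j ⬝ᵥ θ) ^ 2)] at this)
      (fun θ hθ => by
        have := horth I hI hg θ hθ
        rwa [sum_emb (cpl I) hcI (fun j => (w j ⬝ᵥ θ) ^ 2)] at this)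
      (fun θ hθ => by
        have h3 := hcmp I₀ hI₀ hg₀ θ hθ
        have h4 := hcmp I hI hg θ hθ
        rw [sum_emb (cpl I₀) hc₀ (fun j => ng (w j ⬝ᵥ θ))] at h3
        rw [sum_emb (cpl I) hcI (fun j => ng (w j ⬝ᵥ θ))] at h4
        rw [abs_le] at h3 h4 ⊢
        constructor <;> linarith [h3.1, h3.2, h4.1, h4.2])
    refine ⟨h1, ?_⟩
    have h5 : k ∈ Set.range ((cpl I).orderEmbOfFin hcI) := by
      rw [Finset.range_orderEmbOfFin]
      exact hk
    obtain ⟨c, rfl⟩ := h5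
    exact h2 c
  have hort := (hall ⟨0, hN1⟩).1
  choose p hp using fun k => (hall k).2
  have htr : ∀ I ∈ FF x b, ∀ a, ∃ j ∈ (univ.image I)ᶜ, p j = a := by
    intro I hI
    have hF : Fz x b I := (Finset.mem_filter.mp hI).2
    refine hT N q b (fun j => b j - x j ⬝ᵥ Y x b I) w e p (cpl I) hN1 hA2 hfr hort hp hb
      (fun j => sub_nonneg.2 (hF.2.2 j)) ?_
    have h1 := rhs_eq (b := b) hc hF.2.1
    have h2 : ∀ (c : ℝ) (j : Fin N), (c * √(q j)) • w j = c • u j := by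
      intro c j
      rw [mul_smul, huw]
    simp only [h2]
    exact h1
  obtain ⟨hcard, hone⟩ := ceq m K N hNm hK x b p hx hgen hSD hcon htr
  have hρz : ρ ≤ 0 := by
    rw [hρ]
    have h1 : 0 < SD x b * ∏ j, q j ^ (q j / 2) := mul_pos hSD hPpos
    have h2 : 1 / (SD x b * ∏ j, q j ^ (q j / 2)) ≤ 1 := by
      rw [div_le_one h1]
      exact hone
    exact mul_nonpos_of_nonpos_of_nonneg (by linarith) hS.le
  have hint0 : ∫⁻ v : Fin K → ℝ, ENNReal.ofReal (∑ I ∈ FF x b, (|D x I| / SD x b) *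
      (chi (LL q w (cpl I) v) * Real.exp (-(v ⬝ᵥ v) / 2))) = 0 := by
    refine le_antisymm (hint.trans ?_) zero_le
    rw [ENNReal.ofReal_of_nonpos hρz]
  have hzero : ∀ I ∈ FF x b, ∫⁻ v : Fin K → ℝ, ENNReal.ofReal
      (chi (LL q w (cpl I) v) * Real.exp (-(v ⬝ᵥ v) / 2)) = 0 := by
    intro I hI
    have hpI : 0 < |D x I| / SD x b :=
      div_pos (abs_pos.2 (Finset.mem_filter.mp hI).2.2.1) hSD
    have h1 : ENNReal.ofReal (|D x I| / SD x b) * ∫⁻ v : Fin K → ℝ, ENNReal.ofReal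
        (chi (LL q w (cpl I) v) * Real.exp (-(v ⬝ᵥ v) / 2)) ≤ 0 := by
      rw [← hint0, ← lintegral_const_mul _ (hΦm I).ennreal_ofReal]
      refine lintegral_mono fun v => ?_
      rw [← ENNReal.ofReal_mul hpI.le]
      apply ENNReal.ofReal_le_ofReal
      exact Finset.single_le_sum (f := fun I => (|D x I| / SD x b) *
        (chi (LL q w (cpl I) v) * Real.exp (-(v ⬝ᵥ v) / 2)))
        (fun J _ => mul_nonneg (div_nonneg (abs_nonneg _) hSD.le) (hΦ0 J v)) hI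
    have h2 := le_antisymm h1 zero_le
    rcases mul_eq_zero.1 h2 with h3 | h3
    · rw [ENNReal.ofReal_eq_zero] at h3
      linarith
    · exact h3
  have hgoodR : ∀ I ∈ FF x b, ∀ R' : ℝ, 0 ≤ R' → Good q w (cpl I) R' := by
    intro I hI R' hR'
    refine h.pt K R' hR' _ ?_
    rw [hzero I hI]
    exact zero_le
  have hlim : ∀ δ : ℝ, 0 < δ → δ ≤ 1 → ∀ k : Fin N,
      (∀ a c, |e a ⬝ᵥ e c - if a = c then 1 else 0| ≤ δ) ∧
        ∃ a, (w k - e a) ⬝ᵥ (w k - e a) ≤ δ ^ 2 := by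
    intro δ hδ hδ1 k
    obtain ⟨I, hI, hk, -⟩ := hpick k
    have hcI := card_cpl hNm (hinj I hI)
    set ε3 : ℝ := δ ^ 2 / (2000 * K ^ 5) with hε3d
    have hε3 : 0 < ε3 := by positivity
    have hε31 : ε3 ≤ 1 := by
      rw [hε3d, div_le_one (by positivity)]
      have h1 : δ ^ 2 ≤ 1 := pow_le_one₀ hδ.le hδ1
      have h2 : (1 : ℝ) ≤ (K : ℝ) ^ 5 := one_le_pow₀ hK1
      linarith
    have hcmp3 : ∀ J ∈ FF x b, ∀ θ : Fin K → ℝ, θ ⬝ᵥ θ = 1 →
        |∑ j ∈ cpl J, ng (w j ⬝ᵥ θ) - ∑ j, q j * ng (w j ⬝ᵥ θ)| ≤ ε3 / 2 := fun J hJ =>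
      h.cmp K hK B (ε3 / 2) hB1 (half_pos hε3) (by linarith) N q w (cpl J) hN1 hA2 hqs hwB
        (card_cpl hNm (hinj J hJ)) (hgoodR J hJ _ (by positivity))
    have horth3 : ∀ J ∈ FF x b, ∀ θ : Fin K → ℝ, θ ⬝ᵥ θ = 1 →
        |∑ j ∈ cpl J, (w j ⬝ᵥ θ) ^ 2 - 1| ≤ ε3 := by
      intro J hJ θ hθ
      have h1 := hcmp3 J hJ θ hθ
      have h2 := hcmp3 J hJ (-θ) (by rw [dotProduct_neg, neg_dotProduct, neg_neg, hθ])
      have h3 : ∑ j ∈ cpl J, (w j ⬝ᵥ θ) ^ 2 = ∑ j ∈ cpl J, ng (w j ⬝ᵥ θ) +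
          ∑ j ∈ cpl J, ng (w j ⬝ᵥ (-θ)) := by
        rw [← Finset.sum_add_distrib]
        refine Finset.sum_congr rfl fun j _ => ?_
        rw [dotProduct_neg, ng_add]
      have h4 : (1 : ℝ) = ∑ j, q j * ng (w j ⬝ᵥ θ) + ∑ j, q j * ng (w j ⬝ᵥ (-θ)) := by
        rw [← hθ, ← hfr θ, ← Finset.sum_add_distrib]
        refine Finset.sum_congr rfl fun j _ => ?_
        rw [dotProduct_neg, ← mul_add, ng_add]
      rw [h3]
      rw [abs_le] at h1 h2 ⊢
      constructor <;> linarith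
    obtain ⟨h1, h2⟩ := h.ort K hK δ hδ hδ1 e (fun a => w ((cpl I).orderEmbOfFin hcI a))
      (fun θ hθ => by
        have := horth3 I₀ hI₀ θ hθ
        rwa [sum_emb (cpl I₀) hc₀ (fun j => (w j ⬝ᵥ θ) ^ 2)] at this)
      (fun θ hθ => by
        have := horth3 I hI θ hθ
        rwa [sum_emb (cpl I) hcI (fun j => (w j ⬝ᵥ θ) ^ 2)] at this)
      (fun θ hθ => by
        have h3 := hcmp3 I₀ hI₀ θ hθ
        have h4 := hcmp3 I hI θ hθ
        rw [sum_emb (cpl I₀) hc₀ (fun j => ng (w j ⬝ᵥ θ))] at h3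
        rw [sum_emb (cpl I) hcI (fun j => ng (w j ⬝ᵥ θ))] at h4
        rw [abs_le] at h3 h4 ⊢
        constructor <;> linarith [h3.1, h3.2, h4.1, h4.2])
    refine ⟨h1, ?_⟩
    have h5 : k ∈ Set.range ((cpl I).orderEmbOfFin hcI) := by
      rw [Finset.range_orderEmbOfFin]
      exact hk
    obtain ⟨c, rfl⟩ := h5
    exact h2 c
  have hex : ∀ a c, e a ⬝ᵥ e c = if a = c then 1 else 0 := by
    intro a c
    by_contra hne
    have h1 : 0 < |e a ⬝ᵥ e c - if a = c then 1 else 0| := abs_pos.2 (sub_ne_zero.2 hne)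
    have h2 := (hlim (min 1 (|e a ⬝ᵥ e c - if a = c then 1 else 0| / 2))
      (lt_min one_pos (half_pos h1)) (min_le_left _ _) ⟨0, hN1⟩).1 a c
    have h3 := h2.trans (min_le_right _ _)
    linarith
  have hpe : ∀ k, w k = e (p k) := by
    intro k
    -- first `w k = e a` for some `a`
    have hsome : ∃ a, w k = e a := by
      by_contra hne
      push Not at hne
      have hpos : ∀ a, 0 < (w k - e a) ⬝ᵥ (w k - e a) := by
        intro a
        have h1 : w k - e a ≠ 0 := sub_ne_zero.2 (hne a)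
        have h2 : 0 ≤ (w k - e a) ⬝ᵥ (w k - e a) :=
          Finset.sum_nonneg fun i _ => mul_self_nonneg _
        rcases h2.eq_or_lt with h3 | h3
        · exact absurd (dotProduct_self_eq_zero.1 h3.symm) h1
        · exact h3
      obtain ⟨a₀, -, ha₀⟩ := Finset.exists_min_image (univ : Finset (Fin K))
        (fun a => (w k - e a) ⬝ᵥ (w k - e a)) ⟨⟨0, hK⟩, mem_univ _⟩
      set d : ℝ := (w k - e a₀) ⬝ᵥ (w k - e a₀) with hd
      have hdp : 0 < d := hpos a₀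
      set δ : ℝ := min 1 (√d / 2) with hδ
      have hδp : 0 < δ := lt_min one_pos (by positivity)
      obtain ⟨a, ha⟩ := (hlim δ hδp (min_le_left _ _) k).2
      have h1 := ha₀ a (mem_univ _)
      have h2 : δ ^ 2 ≤ (√d / 2) ^ 2 := pow_le_pow_left₀ hδp.le (min_le_right _ _) 2
      have h3 : (√d / 2) ^ 2 = d / 4 := by
        rw [div_pow, Real.sq_sqrt hdp.le]; norm_num
      rw [h3] at h2

      linarith
    obtain ⟨a, ha⟩ := hsome
    by_cases hap : a = p k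
    · rw [ha, hap]
    · exfalso
      have h1 := hp k
      rw [ha] at h1
      have h2 : (e a - e (p k)) ⬝ᵥ (e a - e (p k)) = 2 := by
        rw [sub_dotProduct, dotProduct_sub, dotProduct_sub, hex, hex, hex, hex, if_pos rfl,
          if_pos rfl, if_neg hap, if_neg (Ne.symm hap)]
        norm_num
      rw [h2] at h1
      have h3 : ε1 ^ 2 ≤ 1 := pow_le_one₀ hε1.le hε11
      linarith
  exact ⟨u, p, q, e, hc, hqp, hcard, hex, fun j => by rw [← hpe j, huw j]⟩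

end Pool.Agent.Helper10.AQ
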