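import Pool.Agent.Helper10.AQ.Stm

/-!
# Project AQ (helper10, MP_3bca80_gt), module BAL (helper26)

The balanced product `ℓ ^ (K - r) (ℓ + 1) ^ r` is the largest product of `K` natural numbers with sum
`N = K ℓ + r` (Bernoulli's inequality: the chord of the logarithm between `ℓ` and `ℓ + 1`).
-/

set_option autoImplicit false

open Finset

namespace Pool.Agent.Helper10.AQ.BAL

open Pool.Agent.Helper10.AQ

/-- the chord of the logarithm between `l` and `l + 1` -/
theorem key {l : ℕ} (hl : 1 ≤ l) (x : ℕ) :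
    (x : ℝ) ≤ l * (((l : ℝ) + 1) / l) ^ ((x : ℝ) - l) := by
  have hl0 : (0 : ℝ) < l := by exact_mod_cast hl
  rcases Nat.le_total l x with h | h
  · obtain ⟨m, rfl⟩ := Nat.exists_eq_add_of_le h
    have e : ((l + m : ℕ) : ℝ) - l = (m : ℝ) := by push_cast; ring
    rw [e, Real.rpow_natCast]
    have h1 : (1 : ℝ) + m * (1 / l) ≤ (1 + 1 / l) ^ m :=
      one_add_mul_le_pow (by have : 0 ≤ 1 / (l : ℝ) := by positivity
                             linarith) m
    have h2 : ((l : ℝ) + 1) / l = 1 + 1 / l := by field_simp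
    rw [h2]
    have h3 := mul_le_mul_of_nonneg_left h1 hl0.le
    have h4 : (l : ℝ) * (1 + m * (1 / l)) = l + m := by field_simp
    rw [h4] at h3
    push_cast
    exact h3
  · obtain ⟨m, hm⟩ := Nat.exists_eq_add_of_le h
    have e : (x : ℝ) - l = -(m : ℝ) := by
      have : (l : ℝ) = x + m := by exact_mod_cast hm
      rw [this]; ring
    rw [e, Real.rpow_neg (by positivity), Real.rpow_natCast, ← inv_pow]
    have h2 : (((l : ℝ) + 1) / l)⁻¹ = 1 + (-(1 / ((l : ℝ) + 1))) := by
      field_simp
      ring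
    rw [h2]
    have h5 : 1 / ((l : ℝ) + 1) ≤ 1 := by
      rw [div_le_one (by positivity)]
      linarith
    have h1 : (1 : ℝ) + m * (-(1 / ((l : ℝ) + 1))) ≤ (1 + (-(1 / ((l : ℝ) + 1)))) ^ m :=
      one_add_mul_le_pow (by linarith) m
    have h3 := mul_le_mul_of_nonneg_left h1 hl0.le
    refine le_trans ?_ h3
    have h4 : (l : ℝ) * (1 + m * (-(1 / ((l : ℝ) + 1)))) = l - m * (l / (l + 1)) := by
      field_simp
      ring
    rw [h4]
    have h6 : (l : ℝ) / (l + 1) ≤ 1 := by
      rw [div_le_one (by positivity)]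
      linarith
    have h7 : (m : ℝ) * (l / (l + 1)) ≤ m * 1 :=
      mul_le_mul_of_nonneg_left h6 (Nat.cast_nonneg m)
    have h8 : (x : ℝ) = l - m := by linarith
    linarith

theorem main : S_BAL := by
  intro N K hK n hn
  unfold bal
  rcases Nat.eq_zero_or_pos (N / K) with h0 | h0
  · -- some `n a` is zero
    have hNK : N < K := by
      rcases Nat.lt_or_ge N K with h | h
      · exact h
      · have := Nat.div_pos h hK
        omega
    have hex : ∃ a, n a = 0 := by
      by_contra hcon
      push Not at hcon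
      have h1 : ∑ _a : Fin K, 1 ≤ ∑ a, n a :=
        Finset.sum_le_sum fun a _ => Nat.one_le_iff_ne_zero.2 (hcon a)
      simp only [sum_const, card_univ, Fintype.card_fin, smul_eq_mul, mul_one] at h1
      omega
    obtain ⟨a, ha⟩ := hex
    rw [Finset.prod_eq_zero (Finset.mem_univ a) ha]
    exact Nat.zero_le _
  · set l : ℕ := N / K with hl
    have hr : N % K < K := Nat.mod_lt _ hK
    have hN : K * l + N % K = N := Nat.div_add_mod N K
    have hl0 : (0 : ℝ) < l := by exact_mod_cast h0
    have h1 : (((∏ a, n a : ℕ)) : ℝ) ≤ ((l ^ (K - N % K) * (l + 1) ^ (N % K) : ℕ) : ℝ) := by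
      rw [Nat.cast_prod]
      calc ∏ a, (n a : ℝ) ≤ ∏ a, (l * (((l : ℝ) + 1) / l) ^ ((n a : ℝ) - l)) :=
            Finset.prod_le_prod (fun a _ => Nat.cast_nonneg _) fun a _ => key h0 (n a)
        _ = (l : ℝ) ^ K * (((l : ℝ) + 1) / l) ^ (∑ a, ((n a : ℝ) - l)) := by
            rw [Finset.prod_mul_distrib, Finset.prod_const, Finset.card_univ, Fintype.card_fin,
              Real.rpow_sum_of_pos (by positivity)]
        _ = (l : ℝ) ^ K * (((l : ℝ) + 1) / l) ^ (N % K) := by
            have e : ∑ a, ((n a : ℝ) - l) = ((N % K : ℕ) : ℝ) := by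
              rw [Finset.sum_sub_distrib, Finset.sum_const, Finset.card_univ, Fintype.card_fin,
                nsmul_eq_mul, ← Nat.cast_sum, hn]
              have : (N : ℝ) = K * l + ((N % K : ℕ) : ℝ) := by exact_mod_cast hN.symm
              linarith
            rw [e, Real.rpow_natCast]
        _ = (l : ℝ) ^ (K - N % K) * ((l : ℝ) + 1) ^ (N % K) := by
            obtain ⟨c, hc⟩ : ∃ c, K = c + N % K := ⟨K - N % K, by omega⟩
            have e1 : K - N % K = c := by omega
            rw [e1, div_pow]
            have e2 : (l : ℝ) ^ K = (l : ℝ) ^ c * (l : ℝ) ^ (N % K) := by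
              rw [← pow_add]
              congr 1
            rw [e2]
            field_simp
        _ = _ := by push_cast; rfl
    exact_mod_cast h1

end Pool.Agent.Helper10.AQ.BAL
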