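import Pool.Agent.Helper10.AQ.Stm

set_option autoImplicit false

/-!
# The vectors of a good basis are bounded (helper57)
-/

open Finset Matrix

namespace Pool.Agent.Helper10.AQ

namespace BDD

theorem cs {K : ℕ} (a b : Fin K → ℝ) : (a ⬝ᵥ b) ^ 2 ≤ (a ⬝ᵥ a) * (b ⬝ᵥ b) := by
  have := Finset.sum_mul_sq_le_sq_mul_sq univ a b
  simpa [dotProduct, sq] using this

theorem abs_dot {K : ℕ} {a b : Fin K → ℝ} {A B : ℝ} (hA : 0 ≤ A) (hB : 0 ≤ B)
    (ha : a ⬝ᵥ a ≤ A ^ 2) (hb : b ⬝ᵥ b ≤ B ^ 2) : |a ⬝ᵥ b| ≤ A * B := by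
  apply abs_le_of_sq_le_sq _ (mul_nonneg hA hB)
  refine (cs a b).trans ?_
  rw [mul_pow]
  have hb0 : 0 ≤ b ⬝ᵥ b := by
    unfold dotProduct
    exact Finset.sum_nonneg fun i _ => mul_self_nonneg _
  exact mul_le_mul ha hb hb0 (by positivity)

theorem log_le (z : ℝ) : Real.log (1 + |z|) ≤ |z| := by
  have := Real.log_le_sub_one_of_pos (show 0 < 1 + |z| by positivity)
  linarith

theorem ng_le (z : ℝ) : ng z ≤ z ^ 2 := by
  unfold ng
  rcases le_total z 0 with h | h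
  · rw [min_eq_left h]
  · rw [min_eq_right h]
    have := sq_nonneg z
    simpa using this

theorem ng_nonneg (z : ℝ) : 0 ≤ ng z := sq_nonneg _

/-- the terms `log q` -/
theorem log_terms {N K : ℕ} (hK : 1 ≤ K) (hN : 0 < N) (q : Fin N → ℝ) (T : Finset (Fin N))
    (hq : ∀ j, |q j * (N / K) - 1| ≤ 1 / 2) (hs : ∑ j, q j = K) (hT : T.card = K) :
    |∑ j ∈ T, Real.log (q j) / 2 - ∑ j, q j * (Real.log (q j) / 2)| ≤ K := by
  have hK0 : (0 : ℝ) < K := by exact_mod_cast hK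
  have hN0 : (0 : ℝ) < N := by exact_mod_cast hN
  have hr : 0 < (N : ℝ) / K := div_pos hN0 hK0
  obtain ⟨c, hc⟩ : ∃ c, c = Real.log ((N : ℝ) / K) := ⟨_, rfl⟩
  have hqp : ∀ j, 0 < q j := by
    intro j
    have h1 := (abs_le.1 (hq j)).1
    by_contra hcon
    have h2 : q j * (N / K) ≤ 0 := mul_nonpos_of_nonpos_of_nonneg (not_lt.1 hcon) hr.le
    linarith
  have hl : ∀ j, |Real.log (q j) + c| ≤ 1 := by
    intro j
    have h1 := abs_le.1 (hq j)
    have h2 : Real.log (q j) + c = Real.log (q j * (N / K)) := by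
      rw [hc, Real.log_mul (hqp j).ne' hr.ne']
    rw [h2, abs_le]
    have h3 : 0 < q j * (N / K) := mul_pos (hqp j) hr
    constructor
    · have h4 : Real.log (1 / 2) ≤ Real.log (q j * (N / K)) :=
        Real.log_le_log (by norm_num) (by linarith)
      have h5 : Real.log (1 / 2) = - Real.log 2 := by
        rw [one_div, Real.log_inv]
      have := Real.log_two_lt_d9
      linarith
    · have h4 := Real.log_le_sub_one_of_pos h3
      linarith
  have h1 : ∑ j ∈ T, Real.log (q j) / 2 - ∑ j, q j * (Real.log (q j) / 2) =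
      ∑ j ∈ T, (Real.log (q j) + c) / 2 - ∑ j, q j * ((Real.log (q j) + c) / 2) := by
    have h2 : ∑ j ∈ T, (Real.log (q j) + c) / 2 = ∑ j ∈ T, Real.log (q j) / 2 + K * (c / 2) := by
      rw [← hT, ← nsmul_eq_mul, ← Finset.sum_const, ← Finset.sum_add_distrib]
      exact Finset.sum_congr rfl fun j _ => by ring
    have h3 : ∑ j, q j * ((Real.log (q j) + c) / 2) =
        ∑ j, q j * (Real.log (q j) / 2) + K * (c / 2) := by
      rw [← hs, Finset.sum_mul, ← Finset.sum_add_distrib]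
      exact Finset.sum_congr rfl fun j _ => by ring
    rw [h2, h3]
    ring
  rw [h1]
  have h4 : |∑ j ∈ T, (Real.log (q j) + c) / 2| ≤ K / 2 := by
    refine (Finset.abs_sum_le_sum_abs _ _).trans ?_
    have : ∀ j ∈ T, |(Real.log (q j) + c) / 2| ≤ 1 / 2 := by
      intro j _
      rw [abs_div, abs_of_pos (show (0 : ℝ) < 2 by norm_num)]
      have := hl j
      linarith
    refine (Finset.sum_le_card_nsmul _ _ _ this).trans ?_
    rw [hT, nsmul_eq_mul]
    linarith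
  have h5 : |∑ j, q j * ((Real.log (q j) + c) / 2)| ≤ K / 2 := by
    refine (Finset.abs_sum_le_sum_abs _ _).trans ?_
    have : ∀ j ∈ (univ : Finset (Fin N)), |q j * ((Real.log (q j) + c) / 2)| ≤ q j * (1 / 2) := by
      intro j _
      rw [abs_mul, abs_of_pos (hqp j), abs_div, abs_of_pos (show (0 : ℝ) < 2 by norm_num)]
      have := hl j
      exact mul_le_mul_of_nonneg_left (by linarith) (hqp j).le
    refine (Finset.sum_le_sum this).trans ?_
    rw [← Finset.sum_mul, hs]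
    linarith
  have h6 := abs_sub (∑ j ∈ T, (Real.log (q j) + c) / 2) (∑ j, q j * ((Real.log (q j) + c) / 2))
  linarith

theorem main (hF : S_FBD) : S_BDD := by
  intro K hK
  have hK0 : (1 : ℝ) ≤ K := by exact_mod_cast hK
  refine ⟨14 * K + 29, by linarith, ?_⟩
  intro N q w T hN hq hs hP hT hG
  have hTn : T.Nonempty := by
    rw [← Finset.card_pos]
    omega
  obtain ⟨k, hk, hmax⟩ := Finset.exists_max_image T (fun j => w j ⬝ᵥ w j) hTn
  have hr : 0 < (N : ℝ) / K := div_pos (by exact_mod_cast hN) (by linarith)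
  have hqp : ∀ j, 0 ≤ q j := by
    intro j
    have h1 := (abs_le.1 (hq j)).1
    by_contra hcon
    have h2 : q j * (N / K) ≤ 0 := mul_nonpos_of_nonpos_of_nonneg (not_le.1 hcon).le hr.le
    linarith
  have hk0 : 0 ≤ w k ⬝ᵥ w k := by
    unfold dotProduct
    exact Finset.sum_nonneg fun i _ => mul_self_nonneg _
  obtain ⟨M, hM⟩ : ∃ M, M = √(w k ⬝ᵥ w k) := ⟨_, rfl⟩
  have hM0 : 0 ≤ M := by rw [hM]; exact Real.sqrt_nonneg _
  have hM2 : M ^ 2 = w k ⬝ᵥ w k := by rw [hM]; exact Real.sq_sqrt hk0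
  have hgoal : M ≤ 14 * K + 29 := by
    by_contra hcon
    rw [not_le] at hcon
    have hM1 : 1 ≤ M := by linarith
    have hMp : 0 < M := by linarith
    obtain ⟨c, hc⟩ : ∃ c : Fin K → ℝ, c = (-(2 / M)) • w k := ⟨_, rfl⟩
    have hcc : c ⬝ᵥ c = 4 := by
      rw [hc, smul_dotProduct, dotProduct_smul, ← hM2, smul_eq_mul, smul_eq_mul]
      field_simp
      ring
    have hwc : w k ⬝ᵥ c = -(2 * M) := by
      rw [hc, dotProduct_smul, ← hM2, smul_eq_mul]
      field_simp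
    obtain ⟨v, hv1, hv2⟩ := hG c (by rw [hcc]; norm_num)
    obtain ⟨d, hd⟩ : ∃ d : Fin K → ℝ, d = v - c := ⟨_, rfl⟩
    rw [← hd] at hv1
    have hvd : v = c + d := by rw [hd]; abel
    have hwd : |w k ⬝ᵥ d| ≤ M * 1 := abs_dot hM0 zero_le_one hM2.ge (by rw [one_pow]; exact hv1)
    have hcd : |c ⬝ᵥ d| ≤ 2 * 1 :=
      abs_dot (by norm_num) zero_le_one (by rw [hcc]; norm_num) (by rw [one_pow]; exact hv1)
    have hwv : w k ⬝ᵥ v ≤ -M := by
      rw [hvd, dotProduct_add, hwc]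
      have := (abs_le.1 hwd).2
      linarith
    have hvv : v ⬝ᵥ v ≤ 3 ^ 2 := by
      rw [hvd, add_dotProduct, dotProduct_add, dotProduct_add, hcc, dotProduct_comm d c]
      have := (abs_le.1 hcd).2
      linarith
    -- the terms
    have hfu : ∀ j, fz (w j ⬝ᵥ v) ≤ - ng (w j ⬝ᵥ v) / 2 + 1 + |w j ⬝ᵥ v| := by
      intro j
      have h1 := (abs_le.1 (hF (w j ⬝ᵥ v))).2
      have h2 := log_le (w j ⬝ᵥ v)
      linarith
    have hfl : ∀ j, -(w j ⬝ᵥ v) ^ 2 / 2 - 1 - (1 + (w j ⬝ᵥ v) ^ 2) ≤ fz (w j ⬝ᵥ v) := by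
      intro j
      have h1 := (abs_le.1 (hF (w j ⬝ᵥ v))).1
      have h2 := log_le (w j ⬝ᵥ v)
      have h3 := ng_le (w j ⬝ᵥ v)
      have h4 : |w j ⬝ᵥ v| ≤ 1 + (w j ⬝ᵥ v) ^ 2 := by
        have h5 := sq_abs (w j ⬝ᵥ v)
        have h6 := sq_nonneg (|w j ⬝ᵥ v| - 1)
        have h7 := abs_nonneg (w j ⬝ᵥ v)
        nlinarith
      linarith
    have hA : ∑ j ∈ T, fz (w j ⬝ᵥ v) ≤ -M ^ 2 / 2 + K * (1 + 3 * M) := by
      have h1 : ∑ j ∈ T, fz (w j ⬝ᵥ v) ≤ ∑ j ∈ T, ((1 + 3 * M) - ng (w j ⬝ᵥ v) / 2) := by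
        refine Finset.sum_le_sum fun j hj => ?_
        have h2 := hfu j
        have h3 : |w j ⬝ᵥ v| ≤ M * 3 := abs_dot hM0 (by norm_num)
          (by rw [hM2]; exact hmax j hj) hvv
        linarith
      refine h1.trans ?_
      rw [Finset.sum_sub_distrib, Finset.sum_const, hT, nsmul_eq_mul]
      have h2 : ng (w k ⬝ᵥ v) / 2 ≤ ∑ j ∈ T, ng (w j ⬝ᵥ v) / 2 :=
        Finset.single_le_sum (f := fun j => ng (w j ⬝ᵥ v) / 2)
          (fun j _ => div_nonneg (ng_nonneg _) (by norm_num)) hk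
      have h3 : M ^ 2 ≤ ng (w k ⬝ᵥ v) := by
        unfold ng
        rw [min_eq_left (by linarith)]
        nlinarith
      linarith
    have hC : -(27 / 2) - 2 * K ≤ ∑ j, q j * fz (w j ⬝ᵥ v) := by
      have h1 : ∑ j, q j * (-(w j ⬝ᵥ v) ^ 2 / 2 - 1 - (1 + (w j ⬝ᵥ v) ^ 2)) ≤
          ∑ j, q j * fz (w j ⬝ᵥ v) :=
        Finset.sum_le_sum fun j _ => mul_le_mul_of_nonneg_left (hfl j) (hqp j)
      have h2 : ∑ j, q j * (-(w j ⬝ᵥ v) ^ 2 / 2 - 1 - (1 + (w j ⬝ᵥ v) ^ 2)) =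
          -(3 / 2) * ∑ j, q j * (w j ⬝ᵥ v) ^ 2 - 2 * ∑ j, q j := by
        rw [Finset.mul_sum, Finset.mul_sum, ← Finset.sum_sub_distrib]
        exact Finset.sum_congr rfl fun j _ => by ring
      rw [h2, hP, hs] at h1
      linarith
    have hLog := (abs_le.1 (log_terms hK hN q T hq hs hT)).2
    have hLL : LL q w T v = (∑ j ∈ T, Real.log (q j) / 2 - ∑ j, q j * (Real.log (q j) / 2)) +
        (∑ j ∈ T, fz (w j ⬝ᵥ v) - ∑ j, q j * fz (w j ⬝ᵥ v)) := by
      unfold LL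
      rw [Finset.sum_add_distrib]
      simp only [mul_add]
      rw [Finset.sum_add_distrib]
      ring
    have hL := (abs_le.1 hv2).1
    rw [hLL] at hL
    nlinarith
  intro j hj
  refine (hmax j hj).trans ?_
  rw [← hM2]
  exact pow_le_pow_left₀ hM0 hgoal 2

end BDD

end Pool.Agent.Helper10.AQ
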