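import Pool.Agent.Helper10.AQ.Stm2
import Pool.Agent.Helper10.AQ.BDD

set_option autoImplicit false

/-!
# The vectors of a good basis are bounded, explicit constant (module BDX; proof of helper57, edited by helper9)
-/

open Finset Matrix

namespace Pool.Agent.Helper10.AQ

namespace BDX

open BDD

/-- BDX: the proof of `BDD.main` (helper57) with its constant written out. -/
theorem main (hF : S_FBD) : S_BDX := by
  intro K hK
  have hK0 : (1 : ℝ) ≤ K := by exact_mod_cast hK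
  intro N q w T hN hq hs hP hT hG
  have hTn : T.Nonempty := by
    rw [← Finset.card_pos]
    omega
  obtain ⟨k, hk, hmax⟩ := Finset.exists_max_image T (fun j => w j ⬝ᵥ w j) hTn
  have hr : 0 < (N : ℝ) / K := div_pos (by exact_mod_cast hN) (by linarith)
  have hqp : ∀ j, 0 ≤ q j := by
    intro j
    have h1 := (abs_le.1 (hq j)).1
    by_contra hcon
    have h2 : q j * (N / K) ≤ 0 := mul_nonpos_of_nonpos_of_nonneg (not_le.1 hcon).le hr.le
    linarith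
  have hk0 : 0 ≤ w k ⬝ᵥ w k := by
    unfold dotProduct
    exact Finset.sum_nonneg fun i _ => mul_self_nonneg _
  obtain ⟨M, hM⟩ : ∃ M, M = √(w k ⬝ᵥ w k) := ⟨_, rfl⟩
  have hM0 : 0 ≤ M := by rw [hM]; exact Real.sqrt_nonneg _
  have hM2 : M ^ 2 = w k ⬝ᵥ w k := by rw [hM]; exact Real.sq_sqrt hk0
  have hgoal : M ≤ 14 * K + 29 := by
    by_contra hcon
    rw [not_le] at hcon
    have hM1 : 1 ≤ M := by linarith
    have hMp : 0 < M := by linarith
    obtain ⟨c, hc⟩ : ∃ c : Fin K → ℝ, c = (-(2 / M)) • w k := ⟨_, rfl⟩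
    have hcc : c ⬝ᵥ c = 4 := by
      rw [hc, smul_dotProduct, dotProduct_smul, ← hM2, smul_eq_mul, smul_eq_mul]
      field_simp
      ring
    have hwc : w k ⬝ᵥ c = -(2 * M) := by
      rw [hc, dotProduct_smul, ← hM2, smul_eq_mul]
      field_simp
    obtain ⟨v, hv1, hv2⟩ := hG c (by rw [hcc]; norm_num)
    obtain ⟨d, hd⟩ : ∃ d : Fin K → ℝ, d = v - c := ⟨_, rfl⟩
    rw [← hd] at hv1
    have hvd : v = c + d := by rw [hd]; abel
    have hwd : |w k ⬝ᵥ d| ≤ M * 1 := abs_dot hM0 zero_le_one hM2.ge (by rw [one_pow]; exact hv1)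
    have hcd : |c ⬝ᵥ d| ≤ 2 * 1 :=
      abs_dot (by norm_num) zero_le_one (by rw [hcc]; norm_num) (by rw [one_pow]; exact hv1)
    have hwv : w k ⬝ᵥ v ≤ -M := by
      rw [hvd, dotProduct_add, hwc]
      have := (abs_le.1 hwd).2
      linarith
    have hvv : v ⬝ᵥ v ≤ 3 ^ 2 := by
      rw [hvd, add_dotProduct, dotProduct_add, dotProduct_add, hcc, dotProduct_comm d c]
      have := (abs_le.1 hcd).2
      linarith
    -- the terms
    have hfu : ∀ j, fz (w j ⬝ᵥ v) ≤ - ng (w j ⬝ᵥ v) / 2 + 1 + |w j ⬝ᵥ v| := by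
      intro j
      have h1 := (abs_le.1 (hF (w j ⬝ᵥ v))).2
      have h2 := log_le (w j ⬝ᵥ v)
      linarith
    have hfl : ∀ j, -(w j ⬝ᵥ v) ^ 2 / 2 - 1 - (1 + (w j ⬝ᵥ v) ^ 2) ≤ fz (w j ⬝ᵥ v) := by
      intro j
      have h1 := (abs_le.1 (hF (w j ⬝ᵥ v))).1
      have h2 := log_le (w j ⬝ᵥ v)
      have h3 := ng_le (w j ⬝ᵥ v)
      have h4 : |w j ⬝ᵥ v| ≤ 1 + (w j ⬝ᵥ v) ^ 2 := by
        have h5 := sq_abs (w j ⬝ᵥ v)
        have h6 := sq_nonneg (|w j ⬝ᵥ v| - 1)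
        have h7 := abs_nonneg (w j ⬝ᵥ v)
        nlinarith
      linarith
    have hA : ∑ j ∈ T, fz (w j ⬝ᵥ v) ≤ -M ^ 2 / 2 + K * (1 + 3 * M) := by
      have h1 : ∑ j ∈ T, fz (w j ⬝ᵥ v) ≤ ∑ j ∈ T, ((1 + 3 * M) - ng (w j ⬝ᵥ v) / 2) := by
        refine Finset.sum_le_sum fun j hj => ?_
        have h2 := hfu j
        have h3 : |w j ⬝ᵥ v| ≤ M * 3 := abs_dot hM0 (by norm_num)
          (by rw [hM2]; exact hmax j hj) hvv
        linarith
      refine h1.trans ?_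
      rw [Finset.sum_sub_distrib, Finset.sum_const, hT, nsmul_eq_mul]
      have h2 : ng (w k ⬝ᵥ v) / 2 ≤ ∑ j ∈ T, ng (w j ⬝ᵥ v) / 2 :=
        Finset.single_le_sum (f := fun j => ng (w j ⬝ᵥ v) / 2)
          (fun j _ => div_nonneg (ng_nonneg _) (by norm_num)) hk
      have h3 : M ^ 2 ≤ ng (w k ⬝ᵥ v) := by
        unfold ng
        rw [min_eq_left (by linarith)]
        nlinarith
      linarith
    have hC : -(27 / 2) - 2 * K ≤ ∑ j, q j * fz (w j ⬝ᵥ v) := by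
      have h1 : ∑ j, q j * (-(w j ⬝ᵥ v) ^ 2 / 2 - 1 - (1 + (w j ⬝ᵥ v) ^ 2)) ≤
          ∑ j, q j * fz (w j ⬝ᵥ v) :=
        Finset.sum_le_sum fun j _ => mul_le_mul_of_nonneg_left (hfl j) (hqp j)
      have h2 : ∑ j, q j * (-(w j ⬝ᵥ v) ^ 2 / 2 - 1 - (1 + (w j ⬝ᵥ v) ^ 2)) =
          -(3 / 2) * ∑ j, q j * (w j ⬝ᵥ v) ^ 2 - 2 * ∑ j, q j := by
        rw [Finset.mul_sum, Finset.mul_sum, ← Finset.sum_sub_distrib]
        exact Finset.sum_congr rfl fun j _ => by ring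
      rw [h2, hP, hs] at h1
      linarith
    have hLog := (abs_le.1 (log_terms hK hN q T hq hs hT)).2
    have hLL : LL q w T v = (∑ j ∈ T, Real.log (q j) / 2 - ∑ j, q j * (Real.log (q j) / 2)) +
        (∑ j ∈ T, fz (w j ⬝ᵥ v) - ∑ j, q j * fz (w j ⬝ᵥ v)) := by
      unfold LL
      rw [Finset.sum_add_distrib]
      simp only [mul_add]
      rw [Finset.sum_add_distrib]
      ring
    have hL := (abs_le.1 hv2).1
    rw [hLL] at hL
    nlinarith
  intro j hj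
  refine (hmax j hj).trans ?_
  rw [← hM2]
  exact pow_le_pow_left₀ hM0 hgoal 2

end BDX

end Pool.Agent.Helper10.AQ
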