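import Pool.Agent.Helper10.AQ.Stm3
import Pool.Agent.Helper10.AQ.BAL

set_option autoImplicit false

/-!
# Equality for the balanced product (module BEQ, helper9)
-/

open Finset

namespace Pool.Agent.Helper10.AQ

namespace BEQ

/-- BEQ -/
theorem main : S_BEQ := by
  intro N K hK hKN n hn hprod
  have hK0 : 0 < K := hK
  have hl : 0 < N / K := Nat.div_pos hKN hK0
  have hbal : 0 < bal N K := by
    unfold bal
    positivity
  have hpos : ∀ a, 0 < n a := by
    intro a
    have h1 : ∏ a, n a ≠ 0 := by rw [hprod]; exact hbal.ne'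
    exact Nat.pos_of_ne_zero (Finset.prod_ne_zero_iff.1 h1 a (mem_univ a))
  have key : ∀ a c, n a ≤ n c + 1 := by
    intro a c
    by_contra hcon
    have hac : a ≠ c := by
      rintro rfl
      omega
    have hmem : c ∈ univ.erase a := mem_erase.2 ⟨hac.symm, mem_univ c⟩
    let n' : Fin K → ℕ := Function.update (Function.update n a (n a - 1)) c (n c + 1)
    have e1 : ∀ f : Fin K → ℕ, ∑ i, f i = f a + (f c + ∑ i ∈ (univ.erase a).erase c, f i) := by
      intro f
      rw [← Finset.add_sum_erase univ f (mem_univ a), ← Finset.add_sum_erase (univ.erase a) f hmem]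
    have e2 : ∀ f : Fin K → ℕ, ∏ i, f i = f a * (f c * ∏ i ∈ (univ.erase a).erase c, f i) := by
      intro f
      rw [← Finset.mul_prod_erase univ f (mem_univ a), ← Finset.mul_prod_erase (univ.erase a) f hmem]
    have o : ∀ i ∈ (univ.erase a).erase c, n' i = n i := by
      intro i hi
      have h1 := mem_erase.1 hi
      have h2 := mem_erase.1 h1.2
      simp only [n']
      rw [Function.update_of_ne h1.1, Function.update_of_ne h2.1]
    have va : n' a = n a - 1 := by
      simp only [n']
      rw [Function.update_of_ne hac, Function.update_self]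
    have vc : n' c = n c + 1 := by
      simp only [n']
      rw [Function.update_self]
    have s : ∑ i, n' i = N := by
      have h0 : ∑ i ∈ (univ.erase a).erase c, n' i = ∑ i ∈ (univ.erase a).erase c, n i :=
        Finset.sum_congr rfl o
      have h1 : N = n a + (n c + ∑ i ∈ (univ.erase a).erase c, n i) := by
        rw [← hn]
        exact e1 n
      have h2 := e1 n'
      rw [va, vc, h0] at h2
      omega
    have p := BAL.main N K hK n' s
    have h0 : ∏ i ∈ (univ.erase a).erase c, n' i = ∏ i ∈ (univ.erase a).erase c, n i :=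
      Finset.prod_congr rfl o
    rw [e2, va, vc, h0, ← hprod, e2 n] at p
    have q : 0 < ∏ i ∈ (univ.erase a).erase c, n i := Finset.prod_pos fun i _ => hpos i
    obtain ⟨t, ht⟩ : ∃ t, n a = n c + 2 + t := ⟨n a - n c - 2, by omega⟩
    rw [ht] at p
    have h3 : n c + 2 + t - 1 = n c + 1 + t := by omega
    rw [h3] at p
    nlinarith
  intro a
  have h1 : N < K * (n a + 1) := by
    have h : ∑ c, n c < ∑ _c : Fin K, (n a + 1) :=
      Finset.sum_lt_sum (fun c _ => key c a) ⟨a, mem_univ a, by omega⟩
    rw [hn, Finset.sum_const, card_univ, Fintype.card_fin, smul_eq_mul] at h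
    exact h
  have h2 : K * (n a - 1) < N := by
    have h : ∑ _c : Fin K, (n a - 1) < ∑ c, n c :=
      Finset.sum_lt_sum (fun c _ => by have := key a c; omega)
        ⟨a, mem_univ a, by have := hpos a; omega⟩
    rw [hn, Finset.sum_const, card_univ, Fintype.card_fin, smul_eq_mul] at h
    exact h
  have h3 : N / K < n a + 1 := by
    rw [Nat.div_lt_iff_lt_mul hK0]
    rwa [mul_comm]
  have h4 : n a - 1 ≤ N / K := by
    rw [Nat.le_div_iff_mul_le hK0, mul_comm]
    exact h2.le
  omega

end BEQ

end Pool.Agent.Helper10.AQ
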