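import Pool.Agent.Helper10.AQ.Stm

/-!
# Module CNT (helper53): entropy in blocks
-/

set_option autoImplicit false

open Finset Matrix MeasureTheory Pool.Agent.Helper484 Pool.Agent.Y568.FL Pool.Agent.Helper7.Simplex
  Pool.Agent.Helper58.FU
open scoped ENNReal

namespace Pool.Agent.Helper10.AQ.CNT

variable {m K N : ℕ}

/-- the complement of a feasible basis meets each block in exactly one element -/
lemma card_block (hN : N = m + K) (p : Fin N → Fin K) (I : Fin m → Fin N)
    (hI : Function.Injective I) (h : ∀ a, ∃ j ∈ (univ.image I)ᶜ, p j = a) (a : Fin K) :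
    ((univ.image I)ᶜ.filter fun j => p j = a).card = 1 := by
  classical
  have h1 : ∀ a : Fin K, 1 ≤ ((univ.image I)ᶜ.filter fun j => p j = a).card := by
    intro a
    obtain ⟨j, hj, hja⟩ := h a
    exact Finset.card_pos.2 ⟨j, Finset.mem_filter.2 ⟨hj, hja⟩⟩
  have h2 : ∑ a : Fin K, ((univ.image I)ᶜ.filter fun j => p j = a).card = ∑ _a : Fin K, 1 := by
    rw [← Finset.card_eq_sum_card_fiberwise (fun j _ => Finset.mem_coe.2 (Finset.mem_univ (p j))),
      Finset.card_compl, Finset.card_image_of_injective _ hI]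
    simp [hN]
  exact (((Finset.sum_eq_sum_iff_of_le fun a _ => h1 a).1 h2.symm) a (Finset.mem_univ a)).symm

/-- the marginals of a block have sum one -/
lemma sum_block (hN : N = m + K) {x : Fin N → Fin m → ℝ} {b : Fin N → ℝ} {p : Fin N → Fin K}
    (h : 0 < SD x b) (hp : ∀ I ∈ FF x b, ∀ a, ∃ j ∈ (univ.image I)ᶜ, p j = a) (a : Fin K) :
    ∑ j ∈ univ.filter (fun j => p j = a), marg x b j = 1 := by
  classical
  unfold marg
  have h0 : ∀ j : Fin N, ∑ I ∈ (FF x b).filter (fun I => ¬ ∃ a, I a = j), |D x I| / SD x b =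
      ∑ I ∈ FF x b, if ¬ ∃ a, I a = j then |D x I| / SD x b else 0 := fun j =>
    Finset.sum_filter _ _
  have h1 : ∀ I ∈ FF x b, ∑ j ∈ univ.filter (fun j => p j = a),
      (if ¬ ∃ a, I a = j then |D x I| / SD x b else 0) = |D x I| / SD x b := by
    intro I hI
    have hinj : Function.Injective I := (Finset.mem_filter.mp hI).2.1.injective
    rw [← Finset.sum_filter, Finset.sum_const]
    have h2 : ((univ.filter (fun j => p j = a)).filter fun j : Fin N => ¬ ∃ a, I a = j) =
        (univ.image I)ᶜ.filter fun j => p j = a := by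
      ext j
      simp [and_comm]
    rw [h2, card_block hN p I hinj (hp I hI) a, one_smul]
  calc _ = ∑ j ∈ univ.filter (fun j => p j = a), ∑ I ∈ FF x b,
        (if ¬ ∃ a, I a = j then |D x I| / SD x b else 0) := by
        refine Finset.sum_congr rfl fun j _ => ?_
        convert h0 j
    _ = ∑ I ∈ FF x b, |D x I| / SD x b := by
        rw [Finset.sum_comm]
        exact Finset.sum_congr rfl h1
    _ = 1 := sum_p h

/-- entropy inequality for a block -/
lemma entropy_block {q : Fin N → ℝ} (hq : ∀ j, 0 ≤ q j) (s : Finset (Fin N))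
    (hs : ∑ j ∈ s, q j = 1) : (√(s.card : ℝ))⁻¹ ≤ ∏ j ∈ s, q j ^ (q j / 2) := by
  have h1 : ∑ t : Fin s.card, q (s.equivFin.symm t).1 = ((1 : ℕ) : ℝ) := by
    rw [Equiv.sum_comp s.equivFin.symm (fun j : s => q j.1), Finset.sum_coe_sort s q, hs,
      Nat.cast_one]
  have h2 := entropy_le (K := 1) (q := fun t : Fin s.card => q (s.equivFin.symm t).1)
    (fun t => hq _) Nat.one_pos h1
  rw [Nat.cast_one, div_one, pow_one, Equiv.prod_comp s.equivFin.symm
    (fun j : s => q j.1 ^ (q j.1 / 2)), Finset.prod_coe_sort s (fun j => q j ^ (q j / 2))] at h2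
  exact h2

theorem main : S_CNT := by
  intro m K N hN hK x b p hx hgen hp
  have hSD : 0 ≤ SD x b := Finset.sum_nonneg fun I _ => abs_nonneg _
  rcases hSD.eq_or_lt with h0 | h0
  · rw [← h0]
    exact Real.sqrt_nonneg _
  have h1 := SD_entropy hN hx hgen h0
  have h2 : ∀ a : Fin K, 0 < ((univ.filter fun i => p i = a).card : ℝ) := by
    intro a
    rw [Nat.cast_pos, Finset.card_pos]
    by_contra h
    rw [Finset.not_nonempty_iff_eq_empty] at h
    have h3 := sum_block hN h0 hp a
    rw [h, Finset.sum_empty] at h3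
    exact zero_ne_one h3
  have h3 : (√(∏ a, ((univ.filter fun i => p i = a).card : ℝ)))⁻¹ ≤
      ∏ j, marg x b j ^ (marg x b j / 2) := by
    rw [← Finset.prod_fiberwise univ p (fun j => marg x b j ^ (marg x b j / 2)),
      Real.sqrt_prod _ (fun a _ => (h2 a).le), ← Finset.prod_inv_distrib]
    refine Finset.prod_le_prod (fun a _ => by positivity) fun a _ => ?_
    exact entropy_block (marg_nonneg x b) _ (sum_block hN h0 hp a)
  have h4 : 0 < √(∏ a, ((univ.filter fun i => p i = a).card : ℝ)) :=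
    Real.sqrt_pos.2 (Finset.prod_pos fun a _ => h2 a)
  have h5 := (mul_le_mul_of_nonneg_left h3 h0.le).trans h1
  rwa [← div_eq_mul_inv, div_le_one h4] at h5

end Pool.Agent.Helper10.AQ.CNT
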