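import Pool.Agent.Helper10.AQ.Stm3
import Pool.Agent.Helper10.AQ.CNT
import Pool.Agent.Helper10.AQ.BAL

/-!
# Module CEQ (helper39): equality in `S_CNT`
-/

set_option autoImplicit false

open Finset Matrix MeasureTheory Pool.Agent.Helper484 Pool.Agent.Y568.FL Pool.Agent.Helper7.Simplex
  Pool.Agent.Helper58.FU
open scoped ENNReal

namespace Pool.Agent.Helper10.AQ.CEQ

theorem main : S_CEQ := by
  intro m K N hN hK x b p hx hgen h0 hlow hp
  have h2 : ∀ a : Fin K, 0 < ((univ.filter fun i => p i = a).card : ℝ) := by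
    intro a
    rw [Nat.cast_pos, Finset.card_pos]
    by_contra h
    rw [Finset.not_nonempty_iff_eq_empty] at h
    have h3 := CNT.sum_block hN h0 hp a
    rw [h, Finset.sum_empty] at h3
    exact zero_ne_one h3
  have h3 : (√(∏ a, ((univ.filter fun i => p i = a).card : ℝ)))⁻¹ ≤
      ∏ j, marg x b j ^ (marg x b j / 2) := by
    rw [← Finset.prod_fiberwise univ p (fun j => marg x b j ^ (marg x b j / 2)),
      Real.sqrt_prod _ (fun a _ => (h2 a).le), ← Finset.prod_inv_distrib]
    refine Finset.prod_le_prod (fun a _ => by positivity) fun a _ => ?_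
    exact CNT.entropy_block (marg_nonneg x b) _ (CNT.sum_block hN h0 hp a)
  have h4 : 0 < √(∏ a, ((univ.filter fun i => p i = a).card : ℝ)) :=
    Real.sqrt_pos.2 (Finset.prod_pos fun a _ => h2 a)
  have hcnt := CNT.main m K N hN hK x b p hx hgen hp
  have hsum : ∑ a : Fin K, (univ.filter fun i => p i = a).card = N := by
    rw [← Finset.card_eq_sum_card_fiberwise (fun j _ => Finset.mem_coe.2 (Finset.mem_univ (p j)))]
    simp
  have hbal := BAL.main N K hK (fun a => (univ.filter fun i => p i = a).card) hsum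
  have hbal' : ∏ a, ((univ.filter fun i => p i = a).card : ℝ) ≤ (bal N K : ℝ) := by
    exact_mod_cast hbal
  have h5 : √(∏ a, ((univ.filter fun i => p i = a).card : ℝ)) ≤ √(bal N K : ℝ) :=
    Real.sqrt_le_sqrt hbal'
  have h6 : (bal N K : ℝ) ≤ ∏ a, ((univ.filter fun i => p i = a).card : ℝ) := by
    have h7 : √(bal N K : ℝ) ≤ √(∏ a, ((univ.filter fun i => p i = a).card : ℝ)) :=
      hlow.trans hcnt
    exact (Real.sqrt_le_sqrt_iff (Finset.prod_nonneg fun a _ => (h2 a).le)).1 h7
  refine ⟨?_, ?_⟩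
  · refine le_antisymm hbal ?_
    exact_mod_cast h6
  · have h7 : √(∏ a, ((univ.filter fun i => p i = a).card : ℝ)) ≤ SD x b := h5.trans hlow
    calc (1 : ℝ) = √(∏ a, ((univ.filter fun i => p i = a).card : ℝ)) *
          (√(∏ a, ((univ.filter fun i => p i = a).card : ℝ)))⁻¹ := (mul_inv_cancel₀ h4.ne').symm
      _ ≤ SD x b * ∏ j, marg x b j ^ (marg x b j / 2) :=
          mul_le_mul h7 h3 (by positivity) h0.le

end Pool.Agent.Helper10.AQ.CEQ
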