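import Pool.Agent.Helper10.AQ.Stm

/-! `CMP`: the negative parts of the vectors of `T` and of the whole system agree (module by helper52) -/

set_option autoImplicit false

open Finset Matrix MeasureTheory Pool.Agent.Helper10.AQ

namespace Pool.Agent.Helper10.AQ.CMP

theorem abs_dot_le {K : ℕ} {a b : Fin K → ℝ} {A B : ℝ} (hA : 0 ≤ A) (hB : 0 ≤ B)
    (ha : a ⬝ᵥ a ≤ A ^ 2) (hb : b ⬝ᵥ b ≤ B ^ 2) : |a ⬝ᵥ b| ≤ A * B := by
  apply abs_le_of_sq_le_sq _ (mul_nonneg hA hB)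
  have h1 : (a ⬝ᵥ b) ^ 2 ≤ (a ⬝ᵥ a) * (b ⬝ᵥ b) := by
    have h := Finset.sum_mul_sq_le_sq_mul_sq univ a b
    unfold dotProduct
    simpa only [pow_two] using h
  have h0 : 0 ≤ b ⬝ᵥ b := by
    unfold dotProduct
    exact sum_nonneg fun i _ => mul_self_nonneg _
  calc (a ⬝ᵥ b) ^ 2 ≤ (a ⬝ᵥ a) * (b ⬝ᵥ b) := h1
    _ ≤ A ^ 2 * B ^ 2 := mul_le_mul ha hb h0 (sq_nonneg A)
    _ = (A * B) ^ 2 := by ring

theorem ng_sub (y z : ℝ) : |ng y - ng z| ≤ |y - z| * (|y| + |z|) := by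
  have e : ng y - ng z = (min y 0 - min z 0) * (min y 0 + min z 0) := by
    unfold ng
    ring
  have h1 : |min y 0 - min z 0| ≤ |y - z| := by
    have h := abs_min_sub_min_le_max y 0 z 0
    simpa using h
  have h2 : ∀ x : ℝ, |min x 0| ≤ |x| := by
    intro x
    rcases le_total x 0 with h | h
    · rw [min_eq_left h]
    · rw [min_eq_right h, abs_zero]
      exact abs_nonneg x
  have h3 : |min y 0 + min z 0| ≤ |y| + |z| := (abs_add_le _ _).trans (add_le_add (h2 y) (h2 z))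
  rw [e, abs_mul]
  exact mul_le_mul h1 h3 (abs_nonneg _) (abs_nonneg _)

theorem ng_mul {R : ℝ} (hR : 0 ≤ R) (z : ℝ) : ng (R * z) = R ^ 2 * ng z := by
  unfold ng
  have h := mul_min_of_nonneg z 0 hR
  rw [mul_zero] at h
  rw [← h]
  ring

/-- differences of the sums over `T` and with the weights `q` -/
theorem diff_le {N K : ℕ} {q : Fin N → ℝ} {T : Finset (Fin N)} (hq : ∀ j, 0 ≤ q j)
    (hs : ∑ j, q j = K) (hT : T.card = K) {g : Fin N → ℝ} {C : ℝ} (hg : ∀ j, |g j| ≤ C) :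
    |∑ j ∈ T, g j - ∑ j, q j * g j| ≤ 2 * K * C := by
  have h1 : |∑ j ∈ T, g j| ≤ K * C := by
    refine (abs_sum_le_sum_abs _ _).trans ?_
    refine (sum_le_sum fun j _ => hg j).trans ?_
    rw [sum_const, hT, nsmul_eq_mul]
  have h2 : |∑ j, q j * g j| ≤ K * C := by
    refine (abs_sum_le_sum_abs _ _).trans ?_
    rw [← hs, sum_mul]
    refine sum_le_sum fun j _ => ?_
    rw [abs_mul, abs_of_nonneg (hq j)]
    exact mul_le_mul_of_nonneg_left (hg j) (hq j)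
  have h3 := abs_sub (∑ j ∈ T, g j) (∑ j, q j * g j)
  linarith

theorem main : S_FBD → S_CMP := by
  intro hF K hK B ε hB hε
  have hK1 : (1 : ℝ) ≤ K := by exact_mod_cast hK
  set C : ℝ := 2 + 2 * K + 4 * K * (1 + 2 * B) + 6 * K * B ^ 2 with hC
  have hC0 : 0 ≤ C := by positivity
  refine ⟨max 3 (C / ε), le_max_left _ _, ?_⟩
  set R : ℝ := max 3 (C / ε) with hR
  have hR3 : 3 ≤ R := le_max_left _ _
  have hR0 : 0 < R := by linarith
  have hRC : C ≤ ε * R := by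
    have h := le_max_right 3 (C / ε)
    rw [← hR, div_le_iff₀ hε] at h
    linarith
  intro N q w T hN hq hs hw hT hG θ hθ
  have hN0 : (0 : ℝ) < N := by exact_mod_cast hN
  have hNK : 0 < (N : ℝ) / K := div_pos hN0 (by linarith)
  have hqp : ∀ j, 0 < q j := by
    intro j
    have h := (abs_le.1 (hq j)).1
    by_contra hcon
    have h2 : q j * (N / K) ≤ 0 := mul_nonpos_of_nonpos_of_nonneg (not_lt.1 hcon) hNK.le
    linarith
  have hcc : (R • θ) ⬝ᵥ (R • θ) = R ^ 2 := by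
    rw [smul_dotProduct, dotProduct_smul, hθ, smul_eq_mul, smul_eq_mul]
    ring
  obtain ⟨v, hv1, hv2⟩ := hG (R • θ) hcc.le
  set d : Fin K → ℝ := v - R • θ with hd
  have hd1 : d ⬝ᵥ d ≤ 1 ^ 2 := by rw [one_pow]; exact hv1
  have hvd : v = R • θ + d := by rw [hd]; abel
  have hvv : v ⬝ᵥ v ≤ (R + 1) ^ 2 := by
    have h1 := abs_dot_le hR0.le zero_le_one hcc.le hd1
    have h2 := (abs_le.1 h1).2
    have h3 : d ⬝ᵥ (R • θ) = (R • θ) ⬝ᵥ d := dotProduct_comm _ _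
    rw [hvd, add_dotProduct, dotProduct_add, dotProduct_add, h3, hcc]
    nlinarith
  have hB0 : 0 ≤ B := by linarith
  have hwv : ∀ j, |w j ⬝ᵥ v| ≤ B * (R + 1) := fun j =>
    abs_dot_le hB0 (by linarith) (hw j) hvv
  have hwc : ∀ j, |R * (w j ⬝ᵥ θ)| ≤ B * R := fun j => by
    have h := abs_dot_le hB0 hR0.le (hw j) hcc.le
    rwa [dotProduct_smul, smul_eq_mul] at h
  have hwd : ∀ j, |w j ⬝ᵥ v - R * (w j ⬝ᵥ θ)| ≤ B := fun j => by
    have h := abs_dot_le hB0 zero_le_one (hw j) hd1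
    have e : w j ⬝ᵥ v - R * (w j ⬝ᵥ θ) = w j ⬝ᵥ d := by
      rw [hd, dotProduct_sub, dotProduct_smul, smul_eq_mul]
    rw [e]
    linarith
  -- the three differences
  set f1 : Fin N → ℝ := fun j => Real.log (q j * (N / K)) / 2 with hf1
  set f2 : Fin N → ℝ := fun j => fz (w j ⬝ᵥ v) + ng (w j ⬝ᵥ v) / 2 with hf2
  set f3 : Fin N → ℝ := fun j => ng (R * (w j ⬝ᵥ θ)) - ng (w j ⬝ᵥ v) with hf3
  have h1 : ∀ j, |f1 j| ≤ 1 / 2 := by
    intro j
    have h := abs_le.1 (hq j)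
    have hx : 0 < q j * (N / K) := by linarith [h.1]
    have h4 := Real.log_le_sub_one_of_pos hx
    have h5 := Real.one_sub_inv_le_log_of_pos hx
    have h6 : (q j * (N / K))⁻¹ ≤ 2 := by
      rw [inv_le_comm₀ hx (by norm_num)]
      linarith [h.1]
    rw [hf1, abs_le]
    constructor
    · show -(1 / 2) ≤ Real.log (q j * (N / K)) / 2
      linarith
    · show Real.log (q j * (N / K)) / 2 ≤ 1 / 2
      linarith [h.2]
  have h2 : ∀ j, |f2 j| ≤ 1 + B * (R + 1) := by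
    intro j
    refine (hF (w j ⬝ᵥ v)).trans ?_
    have h4 : Real.log (1 + |w j ⬝ᵥ v|) ≤ |w j ⬝ᵥ v| := by
      have h := Real.log_le_sub_one_of_pos (show 0 < 1 + |w j ⬝ᵥ v| by positivity)
      linarith
    linarith [hwv j]
  have h3 : ∀ j, |f3 j| ≤ B * (B * (2 * R + 1)) := by
    intro j
    rw [hf3]
    show |ng (R * (w j ⬝ᵥ θ)) - ng (w j ⬝ᵥ v)| ≤ _
    refine (ng_sub _ _).trans ?_
    rw [abs_sub_comm]
    refine mul_le_mul (hwd j) ?_ (by positivity) hB0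
    have e : B * (2 * R + 1) = B * R + B * (R + 1) := by ring
    rw [e]
    exact add_le_add (hwc j) (hwv j)
  have hq0 : ∀ j, 0 ≤ q j := fun j => (hqp j).le
  have d1 := diff_le hq0 hs hT h1
  have d2 := diff_le hq0 hs hT h2
  have d3 := diff_le hq0 hs hT h3
  -- the identity
  have key : R ^ 2 * (∑ j ∈ T, ng (w j ⬝ᵥ θ) - ∑ j, q j * ng (w j ⬝ᵥ θ)) =
      (∑ j ∈ T, f3 j - ∑ j, q j * f3 j) + 2 * (∑ j ∈ T, f2 j - ∑ j, q j * f2 j) +
        2 * (∑ j ∈ T, f1 j - ∑ j, q j * f1 j) - 2 * LL q w T v := by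
    have hlog : ∀ j, Real.log (q j) / 2 = f1 j - Real.log (N / K) / 2 := by
      intro j
      rw [hf1]
      show _ = Real.log (q j * (N / K)) / 2 - _
      rw [Real.log_mul (hqp j).ne' hNK.ne']
      ring
    have e1 : LL q w T v = (∑ j ∈ T, f1 j - ∑ j, q j * f1 j) + (∑ j ∈ T, f2 j - ∑ j, q j * f2 j) -
        (∑ j ∈ T, ng (w j ⬝ᵥ v) - ∑ j, q j * ng (w j ⬝ᵥ v)) / 2 := by
      unfold LL
      have a1 : ∀ j, Real.log (q j) / 2 + fz (w j ⬝ᵥ v) =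
          f1 j + f2 j - ng (w j ⬝ᵥ v) / 2 - Real.log (N / K) / 2 := by
        intro j
        rw [hlog j, hf2]
        ring
      rw [sum_congr rfl fun j _ => a1 j, sum_congr rfl fun j _ => congrArg (fun t => q j * t) (a1 j)]
      have a2 : ∀ j, q j * (f1 j + f2 j - ng (w j ⬝ᵥ v) / 2 - Real.log (N / K) / 2) =
          q j * f1 j + q j * f2 j - q j * ng (w j ⬝ᵥ v) / 2 - q j * (Real.log (N / K) / 2) := by
        intro j
        ring
      rw [sum_congr rfl fun j _ => a2 j]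
      simp only [sum_sub_distrib, sum_add_distrib, ← sum_div, ← sum_mul, sum_const, hT, hs,
        nsmul_eq_mul]
      ring
    have e2 : R ^ 2 * (∑ j ∈ T, ng (w j ⬝ᵥ θ) - ∑ j, q j * ng (w j ⬝ᵥ θ)) =
        (∑ j ∈ T, f3 j - ∑ j, q j * f3 j) +
          (∑ j ∈ T, ng (w j ⬝ᵥ v) - ∑ j, q j * ng (w j ⬝ᵥ v)) := by
      rw [mul_sub, mul_sum, mul_sum]
      have a1 : ∀ j, R ^ 2 * ng (w j ⬝ᵥ θ) = f3 j + ng (w j ⬝ᵥ v) := by
        intro j
        rw [hf3]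
        show _ = ng (R * (w j ⬝ᵥ θ)) - ng (w j ⬝ᵥ v) + ng (w j ⬝ᵥ v)
        rw [ng_mul hR0.le]
        ring
      have a2 : ∀ j, R ^ 2 * (q j * ng (w j ⬝ᵥ θ)) = q j * f3 j + q j * ng (w j ⬝ᵥ v) := by
        intro j
        rw [← mul_add, ← a1 j]
        ring
      rw [sum_congr rfl fun j _ => a1 j, sum_congr rfl fun j _ => a2 j, sum_add_distrib,
        sum_add_distrib]
      ring
    rw [e2, e1]
    ring
  have hfin : R ^ 2 * |∑ j ∈ T, ng (w j ⬝ᵥ θ) - ∑ j, q j * ng (w j ⬝ᵥ θ)| ≤ C * R := by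
    have h4 : R ^ 2 * |∑ j ∈ T, ng (w j ⬝ᵥ θ) - ∑ j, q j * ng (w j ⬝ᵥ θ)| =
        |R ^ 2 * (∑ j ∈ T, ng (w j ⬝ᵥ θ) - ∑ j, q j * ng (w j ⬝ᵥ θ))| := by
      rw [abs_mul, abs_of_nonneg (sq_nonneg R)]
    rw [h4, key]
    have h5 : |(∑ j ∈ T, f3 j - ∑ j, q j * f3 j) + 2 * (∑ j ∈ T, f2 j - ∑ j, q j * f2 j) +
        2 * (∑ j ∈ T, f1 j - ∑ j, q j * f1 j) - 2 * LL q w T v| ≤
          2 * K * (B * (B * (2 * R + 1))) + 2 * (2 * K * (1 + B * (R + 1))) +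
            2 * (2 * K * (1 / 2)) + 2 * 1 := by
      have b1 := abs_le.1 d1
      have b2 := abs_le.1 d2
      have b3 := abs_le.1 d3
      have b4 := abs_le.1 hv2
      rw [abs_le]
      constructor <;> linarith [b1.1, b1.2, b2.1, b2.2, b3.1, b3.2, b4.1, b4.2]
    refine h5.trans ?_
    have hK0 : (0 : ℝ) ≤ K := by linarith
    have c1 : 0 ≤ (K : ℝ) * B ^ 2 * (R - 1) :=
      mul_nonneg (mul_nonneg hK0 (sq_nonneg B)) (by linarith)
    have c2 : 0 ≤ (K : ℝ) * B * (R - 1) := mul_nonneg (mul_nonneg hK0 hB0) (by linarith)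
    have c3 : 0 ≤ (K : ℝ) * (R - 1) := mul_nonneg hK0 (by linarith)
    rw [hC]
    nlinarith
  have h6 : R ^ 2 * |∑ j ∈ T, ng (w j ⬝ᵥ θ) - ∑ j, q j * ng (w j ⬝ᵥ θ)| ≤ R ^ 2 * ε := by
    refine hfin.trans ?_
    calc C * R ≤ (ε * R) * R := mul_le_mul_of_nonneg_right hRC hR0.le
      _ = R ^ 2 * ε := by ring
  exact le_of_mul_le_mul_left h6 (by positivity)

end Pool.Agent.Helper10.AQ.CMP
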