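import Pool.Agent.Helper10.AQ.Stm

/-!
# Project AQ, module ENT (helper37): numerics of the entropy inequality
-/

set_option autoImplicit false

namespace Pool.Agent.Helper10.AQ.ENT

open Finset Pool.Agent.Helper10.AQ

lemma log_gap {ℓ θ : ℝ} (hℓ : 0 < ℓ) (h0 : 0 ≤ θ) (h1 : θ ≤ 1) :
    Real.log (ℓ + θ) ≤ (1 - θ) * Real.log ℓ + θ * Real.log (ℓ + 1) +
      θ * (1 - θ) / (2 * ℓ ^ 2) := by
  have hconv : ConvexOn ℝ (Set.Ici ℓ) (fun t => Real.log t + t ^ 2 / (2 * ℓ ^ 2)) := by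
    apply MonotoneOn.convexOn_of_deriv (convex_Ici ℓ)
    · refine ContinuousOn.add (Real.continuousOn_log.mono ?_) (by fun_prop)
      intro t ht
      have : ℓ ≤ t := ht
      simp only [Set.mem_compl_iff, Set.mem_singleton_iff]
      linarith
    · intro t ht
      rw [interior_Ici, Set.mem_Ioi] at ht
      have ht0 : t ≠ 0 := by linarith
      exact ((Real.hasDerivAt_log ht0).add ((hasDerivAt_pow 2 t).div_const _)).differentiableAt.differentiableWithinAt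
    · intro s hs t ht hst
      rw [interior_Ici, Set.mem_Ioi] at hs ht
      have hd : ∀ r : ℝ, ℓ < r → deriv (fun t => Real.log t + t ^ 2 / (2 * ℓ ^ 2)) r =
          r⁻¹ + r / ℓ ^ 2 := by
        intro r hr
        have hr0 : r ≠ 0 := by linarith
        have h := ((Real.hasDerivAt_log hr0).add ((hasDerivAt_pow 2 r).div_const (2 * ℓ ^ 2))).deriv
        have h' : deriv (fun t => Real.log t + t ^ 2 / (2 * ℓ ^ 2)) r =
          r⁻¹ + ((2 : ℕ) : ℝ) * r ^ (2 - 1) / (2 * ℓ ^ 2) := h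
        rw [h']
        field_simp
        norm_num
        ring
      rw [hd s hs, hd t ht]
      have hs0 : 0 < s := by linarith
      have ht0 : 0 < t := by linarith
      have e : t⁻¹ + t / ℓ ^ 2 - (s⁻¹ + s / ℓ ^ 2) = (t - s) * (s * t - ℓ ^ 2) / (s * t * ℓ ^ 2) := by
        field_simp
        ring
      have h2 : ℓ ^ 2 ≤ s * t := by nlinarith
      have h3 : 0 ≤ (t - s) * (s * t - ℓ ^ 2) / (s * t * ℓ ^ 2) :=
        div_nonneg (mul_nonneg (by linarith) (by linarith)) (by positivity)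
      linarith
  have h2 := hconv.2 (Set.mem_Ici.mpr le_rfl) (Set.mem_Ici.mpr (by linarith : ℓ ≤ ℓ + 1))
    (sub_nonneg.mpr h1) h0 (by ring)
  simp only [smul_eq_mul] at h2
  have e1 : (1 - θ) * ℓ + θ * (ℓ + 1) = ℓ + θ := by ring
  rw [e1] at h2
  have e2 : (1 - θ) * (Real.log ℓ + ℓ ^ 2 / (2 * ℓ ^ 2)) +
      θ * (Real.log (ℓ + 1) + (ℓ + 1) ^ 2 / (2 * ℓ ^ 2)) - (ℓ + θ) ^ 2 / (2 * ℓ ^ 2) =
      (1 - θ) * Real.log ℓ + θ * Real.log (ℓ + 1) + θ * (1 - θ) / (2 * ℓ ^ 2) := by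
    field_simp
    ring
  linarith

lemma bal_pos {N K : ℕ} (hK : 1 ≤ K) (hN : K ≤ N) : (0:ℝ) < (bal N K : ℝ) := by
  have hℓ1 : 1 ≤ N / K := Nat.div_pos hN hK
  unfold bal
  positivity

lemma bal_log {N K : ℕ} (hK : 1 ≤ K) (hN : K ≤ N) :
    (K:ℝ) * Real.log (N / K) ≤ Real.log (bal N K) + K / (8 * ((N / K : ℕ) : ℝ) ^ 2) := by
  set ℓ : ℕ := N / K with hℓ
  set r : ℕ := N % K with hr
  have hℓ1 : 1 ≤ ℓ := Nat.div_pos hN hK
  have hdm : K * ℓ + r = N := Nat.div_add_mod N K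
  have hr1 : r < K := Nat.mod_lt _ hK
  have hℓ0 : (0:ℝ) < ℓ := by exact_mod_cast hℓ1
  have hk0 : (0:ℝ) < (K:ℝ) := by exact_mod_cast hK
  have hrK : (r:ℝ) < K := by exact_mod_cast hr1
  have hlog : Real.log (bal N K) = ((K:ℝ) - r) * Real.log ℓ + r * Real.log (ℓ + 1) := by
    unfold bal
    rw [← hℓ, ← hr]
    push_cast
    rw [Real.log_mul (by positivity) (by positivity), Real.log_pow, Real.log_pow, Nat.cast_sub hr1.le]
  set θ : ℝ := r / (K:ℝ) with hθ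
  have hθ0 : 0 ≤ θ := by positivity
  have hθ1 : θ ≤ 1 := by
    rw [hθ, div_le_one hk0]
    exact hrK.le
  have hratio : (N : ℝ) / K = ℓ + θ := by
    have h1 : (N:ℝ) = K * ℓ + r := by
      have : ((N : ℕ) : ℝ) = ((K * ℓ + r : ℕ) : ℝ) := by rw [hdm]
      push_cast at this
      linarith
    rw [h1, hθ]
    field_simp
  have hgap := mul_le_mul_of_nonneg_left (log_gap hℓ0 hθ0 hθ1) hk0.le
  have hKθ : (K:ℝ) * θ = r := by rw [hθ]; field_simp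
  rw [hratio, hlog]
  have h4 : (K:ℝ) * (θ * (1 - θ) / (2 * (ℓ:ℝ) ^ 2)) ≤ K / (8 * (ℓ:ℝ) ^ 2) := by
    have h5 : θ * (1 - θ) ≤ 1 / 4 := by nlinarith [sq_nonneg (θ - 1 / 2)]
    have h6 : θ * (1 - θ) / (2 * (ℓ:ℝ) ^ 2) ≤ (1 / 4) / (2 * (ℓ:ℝ) ^ 2) := by gcongr
    calc (K:ℝ) * (θ * (1 - θ) / (2 * (ℓ:ℝ) ^ 2)) ≤ K * ((1 / 4) / (2 * (ℓ:ℝ) ^ 2)) := by gcongr
      _ = K / (8 * (ℓ:ℝ) ^ 2) := by field_simp; norm_num
  have h5 : (K:ℝ) * ((1 - θ) * Real.log ℓ + θ * Real.log (ℓ + 1) + θ * (1 - θ) / (2 * (ℓ:ℝ) ^ 2)) =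
      ((K:ℝ) - K * θ) * Real.log ℓ + (K * θ) * Real.log (ℓ + 1) +
        K * (θ * (1 - θ) / (2 * (ℓ:ℝ) ^ 2)) := by ring
  rw [h5, hKθ] at hgap
  linarith

lemma prod_eq {N : ℕ} {q : Fin N → ℝ} (hq : ∀ j, 0 ≤ q j) :
    ∏ j, q j ^ (q j / 2) = Real.exp ((∑ j, q j * Real.log (q j)) / 2) := by
  rw [Finset.sum_div, Real.exp_sum]
  refine Finset.prod_congr rfl fun j _ => ?_
  rcases (hq j).eq_or_lt with h0 | h0
  · rw [← h0]; simp
  · rw [Real.rpow_def_of_pos h0]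
    congr 1
    ring

lemma h_ge {y : ℝ} (hy : 0 ≤ y) : (√y - 1) ^ 2 ≤ y * Real.log y - y + 1 := by
  rcases hy.eq_or_lt with h0 | h0
  · rw [← h0]; simp
  · have ht : 0 < √y := Real.sqrt_pos.2 h0
    have h1 := Real.one_sub_inv_le_log_of_pos ht
    rw [Real.log_sqrt hy] at h1
    have h2 : √y ^ 2 = y := Real.sq_sqrt hy
    have h3 := mul_le_mul_of_nonneg_left h1 (by positivity : 0 ≤ 2 * y)
    have h4 : 2 * y * (1 - (√y)⁻¹) = 2 * y - 2 * √y := by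
      have : y * (√y)⁻¹ = √y := by
        nth_rw 1 [← h2]
        field_simp
      linear_combination (-2) * this
    rw [h4] at h3
    nlinarith

lemma main_aux {N K : ℕ} (hK : 1 ≤ K) (hN2 : 2 * K ≤ N) {q : Fin N → ℝ} {Z : ℝ} (hq : ∀ j, 0 ≤ q j)
    (hs : ∑ j, q j = K) (hZ : √(bal N K : ℝ) ≤ Z) (hZP : Z * ∏ j, q j ^ (q j / 2) ≤ 1) :
    (∀ j, (√(q j * (N / K)) - 1) ^ 2 ≤ (K:ℝ) ^ 2 / (2 * N)) ∧
      1 / (Z * ∏ j, q j ^ (q j / 2)) ≤ Real.exp ((K:ℝ) ^ 3 / (4 * N ^ 2)) := by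
  have hKN : K ≤ N := by omega
  have hK0 : (0:ℝ) < K := by exact_mod_cast hK
  have hN0 : (0:ℝ) < N := by
    have : 0 < N := by omega
    exact_mod_cast this
  have hR : 0 < (N:ℝ) / K := by positivity
  have hℓ1 : 1 ≤ N / K := Nat.div_pos hKN hK
  have hℓ0 : (0:ℝ) < ((N / K : ℕ) : ℝ) := by exact_mod_cast hℓ1
  have hℓ : (N:ℝ) / (2 * K) ≤ ((N / K : ℕ) : ℝ) := by
    rw [div_le_iff₀ (by positivity)]
    have h1 : K * (N / K) + N % K = N := Nat.div_add_mod N K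
    have h2 : N % K < K := Nat.mod_lt _ hK
    have h3 : N ≤ (N / K) * (2 * K) := by
      have h4 : K ≤ K * (N / K) := Nat.le_mul_of_pos_right _ hℓ1
      nlinarith
    exact_mod_cast h3
  have hℓ2 : (K:ℝ) / (8 * ((N / K : ℕ) : ℝ) ^ 2) ≤ (K:ℝ) ^ 3 / (2 * N ^ 2) := by
    have h1 : ((N:ℝ) / (2 * K)) ^ 2 ≤ ((N / K : ℕ) : ℝ) ^ 2 := pow_le_pow_left₀ (by positivity) hℓ 2
    calc (K:ℝ) / (8 * ((N / K : ℕ) : ℝ) ^ 2) ≤ K / (8 * ((N:ℝ) / (2 * K)) ^ 2) := by gcongr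
      _ = (K:ℝ) ^ 3 / (2 * N ^ 2) := by field_simp; norm_num
  have hbl := bal_log hK hKN
  have hbp := bal_pos hK hKN
  set S := ∑ j, q j * Real.log (q j) with hS
  rw [prod_eq hq] at hZP ⊢
  rw [← hS] at hZP ⊢
  have hZ0 : 0 < Z := lt_of_lt_of_le (Real.sqrt_pos.2 hbp) hZ
  have hlZ : Real.log (bal N K) / 2 ≤ Real.log Z := by
    rw [← Real.log_sqrt hbp.le]
    exact Real.log_le_log (Real.sqrt_pos.2 hbp) hZ
  have h1 : Real.log Z + S / 2 ≤ 0 := by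
    have h2 := Real.log_le_log (by positivity) hZP
    rwa [Real.log_mul hZ0.ne' (Real.exp_pos _).ne', Real.log_exp, Real.log_one] at h2
  -- the sum of the terms
  have hG : ∑ j, (q j * (N / K) * Real.log (q j * (N / K)) - q j * (N / K) + 1) =
      (N:ℝ) / K * (S + K * Real.log (N / K)) := by
    have e1 : ∀ j, q j * ((N:ℝ) / K) * Real.log (q j * (N / K)) =
        (N / K) * (q j * Real.log (q j)) + (N / K) * Real.log (N / K) * q j := by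
      intro j
      rcases (hq j).eq_or_lt with h0 | h0
      · rw [← h0]; simp
      · rw [Real.log_mul h0.ne' hR.ne']; ring
    rw [Finset.sum_add_distrib, Finset.sum_sub_distrib, Finset.sum_congr rfl fun j _ => e1 j,
      Finset.sum_add_distrib, ← Finset.mul_sum, ← Finset.mul_sum, ← Finset.sum_mul, hs, ← hS,
      Finset.sum_const, Finset.card_univ, Fintype.card_fin, nsmul_eq_mul, mul_one]
    field_simp
    ring
  have hterm : ∀ j, 0 ≤ q j * ((N:ℝ) / K) * Real.log (q j * (N / K)) - q j * (N / K) + 1 := by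
    intro j
    exact (sq_nonneg _).trans (h_ge (by have := hq j; positivity))
  constructor
  · intro j
    have h2 := h_ge (y := q j * ((N:ℝ) / K)) (by have := hq j; positivity)
    have h3 := Finset.single_le_sum (f := fun j => q j * ((N:ℝ) / K) * Real.log (q j * (N / K)) -
      q j * (N / K) + 1) (fun j _ => hterm j) (Finset.mem_univ j)
    rw [hG] at h3
    have h4 : S + K * Real.log (N / K) ≤ (K:ℝ) ^ 3 / (2 * N ^ 2) := by linarith
    have h5 : (N:ℝ) / K * (S + K * Real.log (N / K)) ≤ (N:ℝ) / K * ((K:ℝ) ^ 3 / (2 * N ^ 2)) := by gcongr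
    have h6 : (N:ℝ) / K * ((K:ℝ) ^ 3 / (2 * N ^ 2)) = (K:ℝ) ^ 2 / (2 * N) := by field_simp
    linarith
  · have h2 : 0 ≤ (N:ℝ) / K * (S + K * Real.log (N / K)) := by
      rw [← hG]; exact Finset.sum_nonneg fun j _ => hterm j
    have h3 : 0 ≤ S + K * Real.log (N / K) := by
      by_contra hcon
      push Not at hcon
      have := mul_neg_of_pos_of_neg hR hcon
      linarith
    rw [one_div]
    have h4 : Z * Real.exp (S / 2) = Real.exp (Real.log Z + S / 2) := by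
      rw [Real.exp_add, Real.exp_log hZ0]
    rw [h4, ← Real.exp_neg]
    apply Real.exp_le_exp.2
    have h5 : (K:ℝ) ^ 3 / (4 * N ^ 2) = (K:ℝ) ^ 3 / (2 * N ^ 2) / 2 := by field_simp; norm_num
    rw [h5]
    linarith

theorem main : S_ENT := by
  intro K hK ε hε
  have hK0 : (0:ℝ) < K := by exact_mod_cast hK
  have hK1 : (1:ℝ) ≤ K := by exact_mod_cast hK
  obtain ⟨N₀, hN₀⟩ := exists_nat_ge (2 * (K:ℝ) ^ 2 + 9 * (K:ℝ) ^ 2 / (2 * ε ^ 2) + (K:ℝ) ^ 2 / ε)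
  refine ⟨N₀, fun N hN q Z hq hs hZ hZP => ?_⟩
  have hNr : 2 * (K:ℝ) ^ 2 + 9 * (K:ℝ) ^ 2 / (2 * ε ^ 2) + (K:ℝ) ^ 2 / ε ≤ N :=
    hN₀.trans (by exact_mod_cast hN)
  have hp1 : 0 ≤ 9 * (K:ℝ) ^ 2 / (2 * ε ^ 2) := by positivity
  have hp2 : 0 ≤ (K:ℝ) ^ 2 / ε := by positivity
  have hKK : (K:ℝ) ≤ (K:ℝ) ^ 2 := by nlinarith
  have hA : 2 * (K:ℝ) ^ 2 ≤ N := by linarith
  have hN2 : 2 * K ≤ N := by
    have : 2 * (K:ℝ) ≤ N := by linarith
    exact_mod_cast this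
  have hN0 : (0:ℝ) < N := by linarith [pow_pos hK0 2]
  obtain ⟨h1, h2⟩ := main_aux hK hN2 hq hs hZ hZP
  constructor
  · intro j
    have h3 := h1 j
    set t := √(q j * ((N:ℝ) / K)) with ht
    have ht0 : 0 ≤ t := Real.sqrt_nonneg _
    have ht2 : t ^ 2 = q j * ((N:ℝ) / K) := Real.sq_sqrt (by have := hq j; positivity)
    have h4 : (K:ℝ) ^ 2 / (2 * N) ≤ 1 := by
      rw [div_le_one (by positivity)]
      linarith [pow_pos hK0 2]
    have h5 : (K:ℝ) ^ 2 / (2 * N) ≤ (ε / 3) ^ 2 := by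
      rw [div_le_iff₀ (by positivity)]
      have h6 : 9 * (K:ℝ) ^ 2 / (2 * ε ^ 2) ≤ N := by linarith [pow_pos hK0 2]
      rw [div_le_iff₀ (by positivity)] at h6
      nlinarith
    have h6 : |t - 1| ≤ 1 := by
      rw [← sq_le_one_iff_abs_le_one]; linarith
    have h7 : |t - 1| ≤ ε / 3 := abs_le_of_sq_le_sq (h3.trans h5) (by positivity)
    rw [← ht2]
    have h8 : t ^ 2 - 1 = (t - 1) * (t + 1) := by ring
    have h9 : |t + 1| ≤ 3 := by
      rw [abs_of_nonneg (by linarith)]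
      linarith [(abs_le.1 h6).2]
    rw [h8, abs_mul]
    calc |t - 1| * |t + 1| ≤ (ε / 3) * 3 := mul_le_mul h7 h9 (abs_nonneg _) (by positivity)
      _ = ε := by ring
  · have h3 : (K:ℝ) ^ 3 / (4 * N ^ 2) ≤ 1 := by
      rw [div_le_one (by positivity)]
      have h4 : (2 * (K:ℝ) ^ 2) ^ 2 ≤ (N:ℝ) ^ 2 := pow_le_pow_left₀ (by positivity) hA 2
      have h5 : (K:ℝ) ^ 3 ≤ (K:ℝ) ^ 4 := pow_le_pow_right₀ hK1 (by norm_num)
      nlinarith [pow_pos hK0 4]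
    have h4 : Real.exp ((K:ℝ) ^ 3 / (4 * N ^ 2)) - 1 ≤ 2 * ((K:ℝ) ^ 3 / (4 * N ^ 2)) := by
      have h5 : 0 ≤ (K:ℝ) ^ 3 / (4 * N ^ 2) := by positivity
      have h6 := Real.abs_exp_sub_one_le (x := (K:ℝ) ^ 3 / (4 * N ^ 2)) (by rw [abs_of_nonneg h5]; exact h3)
      rw [abs_of_nonneg h5] at h6
      exact (le_abs_self _).trans h6
    have h5 : 2 * ((K:ℝ) ^ 3 / (4 * N ^ 2)) ≤ ε * (K / N) := by
      have h6 : (K:ℝ) ^ 2 / ε ≤ N := by linarith [pow_pos hK0 2]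
      rw [div_le_iff₀ hε] at h6
      have e1 : 2 * ((K:ℝ) ^ 3 / (4 * N ^ 2)) = (K:ℝ) ^ 2 * (K / (2 * N ^ 2)) := by field_simp; norm_num
      have e2 : ε * ((K:ℝ) / N) = (N * ε) * (K / N ^ 2) := by field_simp
      rw [e1, e2]
      have e3 : (K:ℝ) / (2 * N ^ 2) ≤ K / N ^ 2 := by
        apply div_le_div_of_nonneg_left hK0.le (by positivity)
        nlinarith [pow_pos hN0 2]
      calc (K:ℝ) ^ 2 * (K / (2 * N ^ 2)) ≤ (K:ℝ) ^ 2 * (K / N ^ 2) := by gcongr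
        _ ≤ (N * ε) * (K / N ^ 2) := by gcongr
    linarith

end Pool.Agent.Helper10.AQ.ENT
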