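import Pool.Agent.Helper10.AQ.Stm2
import Pool.Agent.Helper10.AQ.ENT

/-!
# Project AQ, module ENX (helper37): `S_ENT` with an explicit threshold
-/

set_option autoImplicit false

namespace Pool.Agent.Helper10.AQ.ENX

open Finset Pool.Agent.Helper10.AQ Pool.Agent.Helper10.AQ.ENT

theorem main : S_ENX := by
  intro K hK ε hε hε1 N hN q Z hq hs hZ hZP
  have hK0 : (0:ℝ) < K := by exact_mod_cast hK
  have hK1 : (1:ℝ) ≤ K := by exact_mod_cast hK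
  have hNr : 2 * (K:ℝ) ^ 2 + 9 * (K:ℝ) ^ 2 / (2 * ε ^ 2) + (K:ℝ) ^ 2 / ε ≤ N := by
    refine le_trans ?_ hN
    have e1 : 100 * (K:ℝ) ^ 2 / ε ^ 2 = (K:ℝ) ^ 2 * (100 / ε ^ 2) := by ring
    have e2 : 2 * (K:ℝ) ^ 2 + 9 * (K:ℝ) ^ 2 / (2 * ε ^ 2) + (K:ℝ) ^ 2 / ε =
        (K:ℝ) ^ 2 * (2 + 9 / (2 * ε ^ 2) + 1 / ε) := by field_simp
    rw [e1, e2]
    refine mul_le_mul_of_nonneg_left ?_ (by positivity)
    have e3 : 2 + 9 / (2 * ε ^ 2) + 1 / ε = (2 * ε ^ 2 + 9 / 2 + ε) / ε ^ 2 := by field_simp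
    rw [e3]
    refine div_le_div_of_nonneg_right ?_ (by positivity)
    nlinarith
  have hp1 : 0 ≤ 9 * (K:ℝ) ^ 2 / (2 * ε ^ 2) := by positivity
  have hp2 : 0 ≤ (K:ℝ) ^ 2 / ε := by positivity
  have hKK : (K:ℝ) ≤ (K:ℝ) ^ 2 := by nlinarith
  have hA : 2 * (K:ℝ) ^ 2 ≤ N := by linarith
  have hN2 : 2 * K ≤ N := by
    have : 2 * (K:ℝ) ≤ N := by linarith
    exact_mod_cast this
  have hN0 : (0:ℝ) < N := by linarith [pow_pos hK0 2]
  obtain ⟨h1, h2⟩ := main_aux hK hN2 hq hs hZ hZP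
  constructor
  · intro j
    have h3 := h1 j
    set t := √(q j * ((N:ℝ) / K)) with ht
    have ht0 : 0 ≤ t := Real.sqrt_nonneg _
    have ht2 : t ^ 2 = q j * ((N:ℝ) / K) := Real.sq_sqrt (by have := hq j; positivity)
    have h4 : (K:ℝ) ^ 2 / (2 * N) ≤ 1 := by
      rw [div_le_one (by positivity)]
      linarith [pow_pos hK0 2]
    have h5 : (K:ℝ) ^ 2 / (2 * N) ≤ (ε / 3) ^ 2 := by
      rw [div_le_iff₀ (by positivity)]
      have h6 : 9 * (K:ℝ) ^ 2 / (2 * ε ^ 2) ≤ N := by linarith [pow_pos hK0 2]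
      rw [div_le_iff₀ (by positivity)] at h6
      nlinarith
    have h6 : |t - 1| ≤ 1 := by
      rw [← sq_le_one_iff_abs_le_one]; linarith
    have h7 : |t - 1| ≤ ε / 3 := abs_le_of_sq_le_sq (h3.trans h5) (by positivity)
    rw [← ht2]
    have h8 : t ^ 2 - 1 = (t - 1) * (t + 1) := by ring
    have h9 : |t + 1| ≤ 3 := by
      rw [abs_of_nonneg (by linarith)]
      linarith [(abs_le.1 h6).2]
    rw [h8, abs_mul]
    calc |t - 1| * |t + 1| ≤ (ε / 3) * 3 := mul_le_mul h7 h9 (abs_nonneg _) (by positivity)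
      _ = ε := by ring
  · have h3 : (K:ℝ) ^ 3 / (4 * N ^ 2) ≤ 1 := by
      rw [div_le_one (by positivity)]
      have h4 : (2 * (K:ℝ) ^ 2) ^ 2 ≤ (N:ℝ) ^ 2 := pow_le_pow_left₀ (by positivity) hA 2
      have h5 : (K:ℝ) ^ 3 ≤ (K:ℝ) ^ 4 := pow_le_pow_right₀ hK1 (by norm_num)
      nlinarith [pow_pos hK0 4]
    have h4 : Real.exp ((K:ℝ) ^ 3 / (4 * N ^ 2)) - 1 ≤ 2 * ((K:ℝ) ^ 3 / (4 * N ^ 2)) := by
      have h5 : 0 ≤ (K:ℝ) ^ 3 / (4 * N ^ 2) := by positivity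
      have h6 := Real.abs_exp_sub_one_le (x := (K:ℝ) ^ 3 / (4 * N ^ 2)) (by rw [abs_of_nonneg h5]; exact h3)
      rw [abs_of_nonneg h5] at h6
      exact (le_abs_self _).trans h6
    have h5 : 2 * ((K:ℝ) ^ 3 / (4 * N ^ 2)) ≤ ε * (K / N) := by
      have h6 : (K:ℝ) ^ 2 / ε ≤ N := by linarith [pow_pos hK0 2]
      rw [div_le_iff₀ hε] at h6
      have e1 : 2 * ((K:ℝ) ^ 3 / (4 * N ^ 2)) = (K:ℝ) ^ 2 * (K / (2 * N ^ 2)) := by field_simp; norm_num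
      have e2 : ε * ((K:ℝ) / N) = (N * ε) * (K / N ^ 2) := by field_simp
      rw [e1, e2]
      have e3 : (K:ℝ) / (2 * N ^ 2) ≤ K / N ^ 2 := by
        apply div_le_div_of_nonneg_left hK0.le (by positivity)
        nlinarith [pow_pos hN0 2]
      calc (K:ℝ) ^ 2 * (K / (2 * N ^ 2)) ≤ (K:ℝ) ^ 2 * (K / N ^ 2) := by gcongr
        _ ≤ (N * ε) * (K / N ^ 2) := by gcongr
    linarith

end Pool.Agent.Helper10.AQ.ENX
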