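import Pool.Agent.Helper10.AQ.Stm
import Pool.Graph.R_seed8.Helper7.Simplex.Gauss

/-!
# Bounds for the hazard rate of the Gaussian
-/

set_option autoImplicit false

open MeasureTheory Pool.Agent.Helper7.Simplex Filter

namespace Pool.Agent.Helper10.AQ.FBD

open Pool.Agent.Helper10.AQ

theorem hb (u : ℝ) : 0 < gtail u ∧ gtail u < 1 ∧ gtail (-u) = 1 - gtail u ∧
    HasDerivAt gtail (-gpdf u) u := J7431.G_basic u

theorem gpos (u : ℝ) : 0 < gpdf u := J7431.gpdf_pos u

theorem anti : Antitone gtail := by
  apply antitone_of_deriv_nonpos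
  · exact fun u => (hb u).2.2.2.differentiableAt
  · intro u
    rw [(hb u).2.2.2.deriv]
    have := gpos u
    linarith

theorem half : gtail 0 = 1 / 2 := by
  have := (hb 0).2.2.1
  rw [neg_zero] at this
  linarith

theorem hasD (z : ℝ) (hz : 0 ≤ z) :
    HasDerivAt (fun z => gpdf z / (1 + z) - gtail z) (gpdf z * z / (1 + z) ^ 2) z := by
  have h0 : (1 + z) ≠ 0 := by positivity
  have h1 := ((J7432.gpdf_deriv z).div ((hasDerivAt_id z).const_add 1) h0).sub (hb z).2.2.2
  refine h1.congr_deriv ?_
  simp only [id]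
  field_simp
  ring

theorem upper (z : ℝ) (hz : 0 ≤ z) : gpdf z / (1 + z) ≤ gtail z := by
  have hmono : MonotoneOn (fun z => gpdf z / (1 + z) - gtail z) (Set.Ici 0) := by
    apply monotoneOn_of_deriv_nonneg (convex_Ici 0)
    · exact fun x hx => (hasD x hx).continuousAt.continuousWithinAt
    · intro x hx
      rw [interior_Ici] at hx
      exact (hasD x (le_of_lt hx)).differentiableAt.differentiableWithinAt
    · intro x hx
      rw [interior_Ici] at hx
      have hx0 : (0 : ℝ) < x := hx
      rw [(hasD x hx0.le).deriv]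
      have := gpos x
      positivity
  have hlim : Tendsto (fun y : ℝ => gpdf 0 / (1 + y)) atTop (nhds 0) :=
    tendsto_const_nhds.div_atTop (tendsto_atTop_add_const_left _ _ tendsto_id)
  have h1 : gpdf z / (1 + z) - gtail z ≤ 0 := by
    refine ge_of_tendsto hlim ?_
    filter_upwards [eventually_ge_atTop z] with y hy
    have hy0 : 0 ≤ y := hz.trans hy
    have h2 : gpdf z / (1 + z) - gtail z ≤ gpdf y / (1 + y) - gtail y := hmono hz hy0 hy
    have h3 : gpdf y ≤ gpdf 0 := J7432.gpdf_anti (Set.mem_Ici.2 le_rfl) hy0 hy0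
    have h4 : gpdf y / (1 + y) ≤ gpdf 0 / (1 + y) := by gcongr
    have h5 := (hb y).1
    linarith
  linarith

theorem two_pi_bounds : 2 ≤ √(2 * Real.pi) ∧ √(2 * Real.pi) ≤ Real.exp 1 := by
  have h1 := Real.pi_gt_three
  have h2 := Real.pi_lt_d2
  constructor
  · apply Real.le_sqrt_of_sq_le
    nlinarith
  · rw [Real.sqrt_le_left (Real.exp_pos 1).le]
    have := Real.exp_one_gt_d9
    nlinarith

theorem main : S_FBD := by
  intro z
  obtain ⟨hs2, hse⟩ := two_pi_bounds
  have hs0 : 0 < √(2 * Real.pi) := by linarith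
  have hg := (hb z).1
  rcases lt_or_ge z 0 with hz | hz
  · have hng : ng z = z ^ 2 := by unfold ng; rw [min_eq_left hz.le]
    have h1 : fz z + ng z / 2 = -Real.log √(2 * Real.pi) - Real.log (gtail z) := by
      unfold fz
      rw [hng, Real.log_div (gpos z).ne' hg.ne']
      unfold gpdf
      rw [Real.log_mul (inv_ne_zero hs0.ne') (Real.exp_pos _).ne', Real.log_exp, Real.log_inv]
      ring
    have h2 : 1 / 2 ≤ gtail z := by rw [← half]; exact anti hz.le
    have h3 : Real.log (gtail z) ≤ 0 := Real.log_nonpos hg.le (hb z).2.1.le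
    have h4 : -Real.log 2 ≤ Real.log (gtail z) := by
      rw [← Real.log_inv]
      apply Real.log_le_log (by norm_num)
      rw [← one_div]; exact h2
    have h5 : Real.log 2 ≤ Real.log √(2 * Real.pi) := Real.log_le_log (by norm_num) hs2
    have h6 : Real.log √(2 * Real.pi) ≤ 1 := by
      have := Real.log_le_log hs0 hse
      rwa [Real.log_exp] at this
    have h7 : 0 ≤ Real.log (1 + |z|) := Real.log_nonneg (by linarith [abs_nonneg z])
    rw [h1, abs_le]
    constructor <;> linarith
  · have hng : ng z = 0 := by unfold ng; rw [min_eq_right hz]; ring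
    rw [hng, zero_div, add_zero, abs_of_nonneg hz]
    have h1z : 0 < 1 + z := by linarith
    have h1 : fz z ≤ Real.log (1 + z) := by
      unfold fz
      apply Real.log_le_log (div_pos (gpos z) hg)
      rw [div_le_iff₀ hg]
      have := upper z hz
      rw [div_le_iff₀ h1z] at this
      linarith
    have h2 : -1 ≤ fz z := by
      have h3 := J7432.G_disc_nonneg hb z hz
      have h4 : 1 / 2 ≤ gtail (-z) := by rw [← half]; exact anti (by linarith)
      have h5 : 2 * gpdf 0 * gtail z ≤ gpdf z := by
        have h6 : 0 ≤ 4 * gpdf 0 * gtail z * (gtail (-z) - 1 / 2) :=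
          mul_nonneg (mul_nonneg (by have := gpos 0; linarith) hg.le) (by linarith)
        nlinarith
      have h6 : Real.exp (-1) ≤ gpdf z / gtail z := by
        rw [le_div_iff₀ hg]
        refine le_trans ?_ h5
        apply mul_le_mul_of_nonneg_right _ hg.le
        have h7 : gpdf 0 = (√(2 * Real.pi))⁻¹ := by unfold gpdf; simp
        rw [h7, Real.exp_neg]
        have h8 : (Real.exp 1)⁻¹ ≤ (√(2 * Real.pi))⁻¹ := inv_anti₀ hs0 hse
        have h9 : 0 < (√(2 * Real.pi))⁻¹ := inv_pos.2 hs0
        linarith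
      have h10 := Real.log_le_log (Real.exp_pos _) h6
      rwa [Real.log_exp] at h10
    have h7 : 0 ≤ Real.log (1 + z) := Real.log_nonneg (by linarith)
    rw [abs_le]
    constructor <;> linarith

end Pool.Agent.Helper10.AQ.FBD
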