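import Pool.Agent.Helper10.AQ.Stm

/-!
# Module ORT of the project AQ (helper32)
-/

set_option autoImplicit false

open Finset Matrix Filter Topology

namespace Pool.Agent.Helper10.AQ.ORT

variable {K : ℕ}

theorem dp_nonneg (v : Fin K → ℝ) : 0 ≤ v ⬝ᵥ v := Finset.sum_nonneg fun _ _ => mul_self_nonneg _

theorem quad {e : Fin K → Fin K → ℝ}
    (h : ∀ θ : Fin K → ℝ, θ ⬝ᵥ θ = 1 → ∑ a, (e a ⬝ᵥ θ) ^ 2 = 1) (v : Fin K → ℝ) :
    ∑ a, (e a ⬝ᵥ v) ^ 2 = v ⬝ᵥ v := by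
  by_cases hv : v ⬝ᵥ v = 0
  · have h0 : v = 0 := dotProduct_self_eq_zero.1 hv
    subst h0
    simp
  · have hp : 0 < v ⬝ᵥ v := lt_of_le_of_ne (dp_nonneg v) (Ne.symm hv)
    set s := √(v ⬝ᵥ v) with hs
    have hs0 : 0 < s := Real.sqrt_pos.2 hp
    have hs2 : s ^ 2 = v ⬝ᵥ v := Real.sq_sqrt hp.le
    have h1 := h (s⁻¹ • v) (by
      rw [smul_dotProduct, dotProduct_smul, smul_eq_mul, smul_eq_mul, ← hs2]
      field_simp)
    have h2 : ∀ a, (e a ⬝ᵥ (s⁻¹ • v)) ^ 2 = s⁻¹ ^ 2 * (e a ⬝ᵥ v) ^ 2 := fun a => by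
      rw [dotProduct_smul, smul_eq_mul, mul_pow]
    rw [Finset.sum_congr rfl fun a _ => h2 a, ← Finset.mul_sum] at h1
    rw [← hs2]
    have h3 : s ^ 2 * (s⁻¹ ^ 2 * ∑ a, (e a ⬝ᵥ v) ^ 2) = s ^ 2 * 1 := by rw [h1]
    rw [← mul_assoc, ← mul_pow, mul_inv_cancel₀ hs0.ne', one_pow, one_mul, mul_one] at h3
    exact h3

theorem polar {e : Fin K → Fin K → ℝ} (h : ∀ v : Fin K → ℝ, ∑ a, (e a ⬝ᵥ v) ^ 2 = v ⬝ᵥ v)
    (u v : Fin K → ℝ) : ∑ a, (e a ⬝ᵥ u) * (e a ⬝ᵥ v) = u ⬝ᵥ v := by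
  have h1 := h (u + v)
  have h2 := h u
  have h3 := h v
  simp only [dotProduct_add, add_dotProduct] at h1
  have h4 : ∑ a, (e a ⬝ᵥ u + e a ⬝ᵥ v) ^ 2 =
      ∑ a, (e a ⬝ᵥ u) ^ 2 + 2 * ∑ a, (e a ⬝ᵥ u) * (e a ⬝ᵥ v) + ∑ a, (e a ⬝ᵥ v) ^ 2 := by
    rw [mul_sum, ← sum_add_distrib, ← sum_add_distrib]
    exact sum_congr rfl fun a _ => by ring
  rw [h4, h2, h3, dotProduct_comm v u] at h1
  linarith

theorem orth {e : Fin K → Fin K → ℝ} (h : ∀ v : Fin K → ℝ, ∑ a, (e a ⬝ᵥ v) ^ 2 = v ⬝ᵥ v)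
    (a c : Fin K) : e a ⬝ᵥ e c = if a = c then 1 else 0 := by
  let E : Matrix (Fin K) (Fin K) ℝ := Matrix.of e
  have h1 : Eᵀ * E = 1 := by
    ext i j
    have h2 := polar h (Pi.single i 1) (Pi.single j 1)
    simp only [dotProduct_single, mul_one] at h2
    rw [Matrix.mul_apply]
    simp only [Matrix.transpose_apply]
    show ∑ a, e a i * e a j = _
    rw [h2, Matrix.one_apply, Pi.single_apply]
    simp only [eq_comm]
  have h3 : E * Eᵀ = 1 := mul_eq_one_comm.1 h1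
  have h4 := congrFun (congrFun h3 a) c
  rw [Matrix.mul_apply, Matrix.one_apply] at h4
  exact h4

theorem ng_neg (y : ℝ) : ng (-y) ≤ y ^ 2 ∧ (ng (-y) = y ^ 2 → 0 ≤ y) := by
  unfold ng
  rcases le_total 0 y with hy | hy
  · rw [min_eq_left (by linarith)]
    exact ⟨le_of_eq (by ring), fun _ => hy⟩
  · rw [min_eq_right (by linarith)]
    refine ⟨by nlinarith [sq_nonneg y], fun h => ?_⟩
    have : y = 0 := by
      have h' : y ^ 2 = 0 := by rw [← h]; ring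
      exact pow_eq_zero_iff (two_ne_zero) |>.1 h'
    exact this.ge

/-- the exact case -/
theorem exact_case {e w : Fin K → Fin K → ℝ}
    (h1 : ∀ θ : Fin K → ℝ, θ ⬝ᵥ θ = 1 → ∑ a, (e a ⬝ᵥ θ) ^ 2 = 1)
    (h2 : ∀ θ : Fin K → ℝ, θ ⬝ᵥ θ = 1 → ∑ a, (w a ⬝ᵥ θ) ^ 2 = 1)
    (h3 : ∀ θ : Fin K → ℝ, θ ⬝ᵥ θ = 1 → ∑ a, ng (e a ⬝ᵥ θ) = ∑ a, ng (w a ⬝ᵥ θ)) :
    (∀ a c, e a ⬝ᵥ e c = if a = c then 1 else 0) ∧
      ∀ b, ∃ a, (w b - e a) ⬝ᵥ (w b - e a) = 0 := by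
  have qe := quad h1
  have qw := quad h2
  refine ⟨orth qe, ?_⟩
  have ow := orth qw
  have oe := orth qe
  have hpos : ∀ b a, 0 ≤ e a ⬝ᵥ w b := by
    intro b
    have hb : w b ⬝ᵥ w b = 1 := by rw [ow, if_pos rfl]
    have h4 := h3 (-w b) (by rw [neg_dotProduct_neg, hb])
    have h5 : ∑ a, ng (w a ⬝ᵥ -w b) = 1 := by
      rw [Finset.sum_eq_single b]
      · rw [dotProduct_neg, hb]
        unfold ng
        rw [min_eq_left (by norm_num)]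
        norm_num
      · intro a _ hab
        rw [dotProduct_neg, ow, if_neg hab, neg_zero]
        unfold ng
        simp
      · intro h
        exact absurd (mem_univ b) h
    rw [h5] at h4
    have h6 : ∑ a, (e a ⬝ᵥ w b) ^ 2 = 1 := by rw [qe, hb]
    have h7 : ∑ a, ((e a ⬝ᵥ w b) ^ 2 - ng (e a ⬝ᵥ -w b)) = 0 := by
      rw [sum_sub_distrib, h6, h4, sub_self]
    have h8 := (Finset.sum_eq_zero_iff_of_nonneg (fun a _ => by
      rw [dotProduct_neg]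
      exact sub_nonneg.2 (ng_neg _).1)).1 h7
    intro a
    have h9 := h8 a (mem_univ a)
    rw [dotProduct_neg] at h9
    exact (ng_neg _).2 (by linarith)
  intro b
  have hb : w b ⬝ᵥ w b = 1 := by rw [ow, if_pos rfl]
  have h6 : ∑ a, (e a ⬝ᵥ w b) ^ 2 = 1 := by rw [qe, hb]
  obtain ⟨a, ha⟩ : ∃ a, e a ⬝ᵥ w b ≠ 0 := by
    by_contra hcon
    push Not at hcon
    rw [Finset.sum_eq_zero fun a _ => by rw [hcon a]; norm_num] at h6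
    exact zero_ne_one h6
  have ha' : 0 < e a ⬝ᵥ w b := lt_of_le_of_ne (hpos b a) (Ne.symm ha)
  have hz : ∀ c, c ≠ b → e a ⬝ᵥ w c = 0 := by
    intro c hc
    have h4 := polar qe (w b) (w c)
    rw [ow, if_neg (Ne.symm hc)] at h4
    have h5 := (Finset.sum_eq_zero_iff_of_nonneg (fun a _ =>
      mul_nonneg (hpos b a) (hpos c a))).1 h4 a (mem_univ a)
    exact (mul_eq_zero.1 h5).resolve_left ha
  have h7 := qw (e a)
  rw [oe, if_pos rfl, Finset.sum_eq_single b] at h7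
  · have h8 : w b ⬝ᵥ e a = 1 := by
      rw [dotProduct_comm] at h7 ⊢
      nlinarith [sq_nonneg (e a ⬝ᵥ w b - 1)]
    refine ⟨a, ?_⟩
    rw [sub_dotProduct, dotProduct_sub, dotProduct_sub, hb, oe, if_pos rfl, h8,
      dotProduct_comm (e a), h8]
    norm_num
  · intro c _ hc
    rw [dotProduct_comm, hz c hc]
    norm_num
  · intro h
    exact absurd (mem_univ b) h

/-- the sets of the compactness argument -/
def OK (ε : ℝ) (z : (Fin K → Fin K → ℝ) × (Fin K → Fin K → ℝ)) : Prop :=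
  (∀ θ : Fin K → ℝ, θ ⬝ᵥ θ = 1 → |∑ a, (z.1 a ⬝ᵥ θ) ^ 2 - 1| ≤ ε) ∧
  (∀ θ : Fin K → ℝ, θ ⬝ᵥ θ = 1 → |∑ a, (z.2 a ⬝ᵥ θ) ^ 2 - 1| ≤ ε) ∧
  (∀ θ : Fin K → ℝ, θ ⬝ᵥ θ = 1 → |∑ a, ng (z.1 a ⬝ᵥ θ) - ∑ a, ng (z.2 a ⬝ᵥ θ)| ≤ ε)

theorem entry {e : Fin K → Fin K → ℝ} {ε : ℝ} (hε : ε ≤ 1)
    (h : ∀ θ : Fin K → ℝ, θ ⬝ᵥ θ = 1 → |∑ a, (e a ⬝ᵥ θ) ^ 2 - 1| ≤ ε) (a i : Fin K) :
    ‖e a i‖ ≤ 2 := by
  have h1 := h (Pi.single i 1) (by simp)
  simp only [dotProduct_single, mul_one] at h1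
  have h2 := (abs_le.1 h1).2
  have h3 : e a i ^ 2 ≤ ∑ a, e a i ^ 2 :=
    Finset.single_le_sum (f := fun a => e a i ^ 2) (fun _ _ => sq_nonneg _) (mem_univ a)
  rw [Real.norm_eq_abs]
  exact abs_le_of_sq_le_sq (by linarith) (by norm_num)

theorem norm_e {e : Fin K → Fin K → ℝ} {ε : ℝ} (hε : ε ≤ 1)
    (h : ∀ θ : Fin K → ℝ, θ ⬝ᵥ θ = 1 → |∑ a, (e a ⬝ᵥ θ) ^ 2 - 1| ≤ ε) : ‖e‖ ≤ 2 := by
  rw [pi_norm_le_iff_of_nonneg (by norm_num)]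
  intro a
  rw [pi_norm_le_iff_of_nonneg (by norm_num)]
  intro i
  exact entry hε h a i

theorem cont_dp1 (a : Fin K) (θ : Fin K → ℝ) : Continuous
    fun z : (Fin K → Fin K → ℝ) × (Fin K → Fin K → ℝ) => z.1 a ⬝ᵥ θ := by
  unfold dotProduct
  fun_prop

theorem cont_dp2 (a : Fin K) (θ : Fin K → ℝ) : Continuous
    fun z : (Fin K → Fin K → ℝ) × (Fin K → Fin K → ℝ) => z.2 a ⬝ᵥ θ := by
  unfold dotProduct
  fun_prop

theorem cont_ng : Continuous ng := by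
  unfold ng
  fun_prop

theorem main : S_ORT := by
  intro K ε' hε'
  by_contra hcon
  push Not at hcon
  have hn : ∀ n : ℕ, (0 : ℝ) < 1 / ((n : ℝ) + 1) := fun n => by positivity
  choose e w h1 h2 h3 h4 using fun n : ℕ => hcon (1 / ((n : ℝ) + 1)) (hn n)
  have hle : ∀ n : ℕ, 1 / ((n : ℝ) + 1) ≤ 1 := fun n => by
    rw [div_le_one (by positivity)]
    have : (0 : ℝ) ≤ n := Nat.cast_nonneg n
    linarith
  let z : ℕ → (Fin K → Fin K → ℝ) × (Fin K → Fin K → ℝ) := fun n => (e n, w n)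
  have hz : ∀ n, z n ∈ Metric.closedBall (0 : (Fin K → Fin K → ℝ) × (Fin K → Fin K → ℝ)) 2 := by
    intro n
    rw [mem_closedBall_zero_iff]
    exact max_le (norm_e (hle n) (h1 n)) (norm_e (hle n) (h2 n))
  obtain ⟨z0, -, φ, hφ, hlim⟩ := (isCompact_closedBall
    (0 : (Fin K → Fin K → ℝ) × (Fin K → Fin K → ℝ)) 2).tendsto_subseq hz
  have hto : Tendsto (fun n : ℕ => 1 / ((φ n : ℝ) + 1)) atTop (𝓝 0) :=
    (tendsto_one_div_add_atTop_nhds_zero_nat (𝕜 := ℝ)).comp hφ.tendsto_atTop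
  -- the limit satisfies the exact conditions
  have lim : ∀ F : (Fin K → Fin K → ℝ) × (Fin K → Fin K → ℝ) → ℝ, Continuous F →
      (∀ n, |F (z n)| ≤ 1 / ((n : ℝ) + 1)) → F z0 = 0 := by
    intro F hF hb
    have t1 : Tendsto (fun n => F (z (φ n))) atTop (𝓝 (F z0)) :=
      (hF.tendsto z0).comp hlim
    have t2 : Tendsto (fun n => F (z (φ n))) atTop (𝓝 0) :=
      squeeze_zero_norm (fun n => hb (φ n)) hto
    exact tendsto_nhds_unique t1 t2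
  have c1 : ∀ θ : Fin K → ℝ, θ ⬝ᵥ θ = 1 → ∑ a, (z0.1 a ⬝ᵥ θ) ^ 2 = 1 := by
    intro θ hθ
    have := lim (fun z => ∑ a, (z.1 a ⬝ᵥ θ) ^ 2 - 1)
      ((continuous_finsetSum _ fun a _ => (cont_dp1 a θ).pow 2).sub continuous_const)
      (fun n => h1 n θ hθ)
    linarith
  have c2 : ∀ θ : Fin K → ℝ, θ ⬝ᵥ θ = 1 → ∑ a, (z0.2 a ⬝ᵥ θ) ^ 2 = 1 := by
    intro θ hθ
    have := lim (fun z => ∑ a, (z.2 a ⬝ᵥ θ) ^ 2 - 1)
      ((continuous_finsetSum _ fun a _ => (cont_dp2 a θ).pow 2).sub continuous_const)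
      (fun n => h2 n θ hθ)
    linarith
  have c3 : ∀ θ : Fin K → ℝ, θ ⬝ᵥ θ = 1 →
      ∑ a, ng (z0.1 a ⬝ᵥ θ) = ∑ a, ng (z0.2 a ⬝ᵥ θ) := by
    intro θ hθ
    have := lim (fun z => ∑ a, ng (z.1 a ⬝ᵥ θ) - ∑ a, ng (z.2 a ⬝ᵥ θ))
      ((continuous_finsetSum _ fun a _ => cont_ng.comp (cont_dp1 a θ)).sub
        (continuous_finsetSum _ fun a _ => cont_ng.comp (cont_dp2 a θ)))
      (fun n => h3 n θ hθ)
    linarith
  obtain ⟨o1, o2⟩ := exact_case c1 c2 c3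
  -- the conclusion is open
  have hev1 : ∀ᶠ n in atTop, ∀ a c, |(z (φ n)).1 a ⬝ᵥ (z (φ n)).1 c -
      if a = c then 1 else 0| ≤ ε' := by
    rw [eventually_all]
    intro a
    rw [eventually_all]
    intro c
    have hc : Continuous fun z : (Fin K → Fin K → ℝ) × (Fin K → Fin K → ℝ) =>
        |z.1 a ⬝ᵥ z.1 c - if a = c then 1 else 0| := by
      unfold dotProduct
      fun_prop
    have t := (hc.tendsto z0).comp hlim
    rw [o1 a c, sub_self, abs_zero] at t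
    filter_upwards [t.eventually (gt_mem_nhds hε')] with n hn
    exact hn.le
  have hev2 : ∀ᶠ n in atTop, ∀ b, ∃ a, ((z (φ n)).2 b - (z (φ n)).1 a) ⬝ᵥ
      ((z (φ n)).2 b - (z (φ n)).1 a) ≤ ε' ^ 2 := by
    rw [eventually_all]
    intro b
    obtain ⟨a, ha⟩ := o2 b
    have hc : Continuous fun z : (Fin K → Fin K → ℝ) × (Fin K → Fin K → ℝ) =>
        (z.2 b - z.1 a) ⬝ᵥ (z.2 b - z.1 a) := by
      unfold dotProduct
      fun_prop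
    have t := (hc.tendsto z0).comp hlim
    rw [ha] at t
    filter_upwards [t.eventually (gt_mem_nhds (pow_pos hε' 2))] with n hn
    exact ⟨a, hn.le⟩
  obtain ⟨n, hn1, hn2⟩ := (hev1.and hev2).exists
  obtain ⟨b, hb⟩ := h4 (φ n) hn1
  obtain ⟨a, ha⟩ := hn2 b
  exact absurd ha (not_le.2 (hb a))

end Pool.Agent.Helper10.AQ.ORT
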