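import Pool.Agent.Helper10.AQ.Stm

/-! # Project AQ, module PT (author: helper59) -/

set_option autoImplicit false

open Finset Matrix MeasureTheory

namespace Pool.Agent.Helper10.AQ.PT

theorem chi_ge (L : ℝ) (h : 1 < |L|) : 1 / 3 ≤ chi L := by
  unfold chi
  rcases lt_abs.1 h with h | h
  · have := Real.quadratic_le_exp_of_nonneg (show 0 ≤ L by linarith)
    nlinarith
  · have h1 : L + 1 + 1 ≤ Real.exp (L + 1) := Real.add_one_le_exp _
    have h2 : Real.exp L = Real.exp (L + 1) * Real.exp (-1) := by rw [← Real.exp_add]; congr 1; ring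
    have h3 := Real.exp_neg_one_gt_d9
    have h4 : Real.exp (-1) < 1 := by
      rw [Real.exp_lt_one_iff]; norm_num
    have h5 : (L + 1 + 1) * Real.exp (-1) ≤ Real.exp L := by
      rw [h2]
      exact mul_le_mul_of_nonneg_right h1 (Real.exp_pos _).le
    nlinarith

theorem norm_le {K : ℕ} {R : ℝ} (hR : 0 ≤ R) (c v : Fin K → ℝ) (hc : c ⬝ᵥ c ≤ R ^ 2)
    (hv : (v - c) ⬝ᵥ (v - c) ≤ 1) : v ⬝ᵥ v ≤ (R + 1) ^ 2 := by
  have h1 : (c ⬝ᵥ (v - c)) ^ 2 ≤ (c ⬝ᵥ c) * ((v - c) ⬝ᵥ (v - c)) := by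
    have := Finset.sum_mul_sq_le_sq_mul_sq Finset.univ c (v - c)
    simp only [dotProduct, ← pow_two]
    exact this
  have hc0 : 0 ≤ c ⬝ᵥ c := by
    simp only [dotProduct]
    exact Finset.sum_nonneg fun i _ => mul_self_nonneg _
  have hd0 : 0 ≤ (v - c) ⬝ᵥ (v - c) := by
    simp only [dotProduct]
    exact Finset.sum_nonneg fun i _ => mul_self_nonneg _
  have h2 : (c ⬝ᵥ (v - c)) ^ 2 ≤ R ^ 2 := by nlinarith
  have h3 : c ⬝ᵥ (v - c) ≤ R := (abs_le_of_sq_le_sq' h2 hR).2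
  have h4 : v ⬝ᵥ v = c ⬝ᵥ c + 2 * (c ⬝ᵥ (v - c)) + (v - c) ⬝ᵥ (v - c) := by
    simp only [dotProduct, Finset.mul_sum, ← Finset.sum_add_distrib, Pi.sub_apply]
    exact Finset.sum_congr rfl fun i _ => by ring
  rw [h4]
  nlinarith

theorem main : S_PT := by
  intro K R hR
  set r : ℝ := 1 / (K + 1) with hr
  have hr0 : 0 < r := by rw [hr]; positivity
  set w : ℝ := Real.exp (-((R + 1) ^ 2) / 2) with hw
  have hw0 : 0 < w := Real.exp_pos _
  refine ⟨w / 3 * (2 * r) ^ K / 2, by positivity, ?_⟩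
  intro F hF c hc
  by_contra hcon
  push Not at hcon
  set B : Set (Fin K → ℝ) := Set.Icc (fun i => c i - r) (fun i => c i + r) with hB
  have hBm : MeasurableSet B := measurableSet_Icc
  have hin : ∀ v ∈ B, (v - c) ⬝ᵥ (v - c) ≤ 1 := by
    intro v hv
    have h1 : ∀ i, (v i - c i) * (v i - c i) ≤ r ^ 2 := by
      intro i
      have h2 := hv.1 i
      have h3 := hv.2 i
      simp only at h2 h3
      nlinarith
    calc (v - c) ⬝ᵥ (v - c) = ∑ i, (v i - c i) * (v i - c i) := rfl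
      _ ≤ ∑ _i : Fin K, r ^ 2 := Finset.sum_le_sum fun i _ => h1 i
      _ = K * r ^ 2 := by simp
      _ ≤ 1 := by
        rw [hr]
        have h5 : (0 : ℝ) < (K : ℝ) + 1 := by positivity
        rw [div_pow, one_pow, mul_one_div, div_le_one (by positivity)]
        nlinarith
  have hpt : ∀ v ∈ B, ENNReal.ofReal (w / 3) ≤ ENNReal.ofReal (chi (F v) * Real.exp (-(v ⬝ᵥ v) / 2)) := by
    intro v hv
    apply ENNReal.ofReal_le_ofReal
    have h1 := hin v hv
    have h2 := chi_ge (F v) (hcon v h1)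
    have h3 : w ≤ Real.exp (-(v ⬝ᵥ v) / 2) := by
      rw [hw]
      apply Real.exp_le_exp.2
      have := norm_le hR c v hc h1
      linarith
    calc w / 3 = 1 / 3 * w := by ring
      _ ≤ chi (F v) * Real.exp (-(v ⬝ᵥ v) / 2) := mul_le_mul h2 h3 hw0.le (by linarith)
  have hvol : volume B = ENNReal.ofReal ((2 * r) ^ K) := by
    rw [hB, Real.volume_Icc_pi]
    have : ∀ i : Fin K, ENNReal.ofReal (c i + r - (c i - r)) = ENNReal.ofReal (2 * r) := fun i => by
      congr 1; ring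
    rw [Finset.prod_congr rfl fun i _ => this i, Finset.prod_const, Finset.card_univ, Fintype.card_fin,
      ENNReal.ofReal_pow (by positivity)]
  have h6 : ENNReal.ofReal (w / 3 * (2 * r) ^ K) ≤ ENNReal.ofReal (w / 3 * (2 * r) ^ K / 2) := by
    calc ENNReal.ofReal (w / 3 * (2 * r) ^ K) = ENNReal.ofReal (w / 3) * volume B := by
          rw [hvol, ENNReal.ofReal_mul (by positivity)]
      _ = ∫⁻ _v in B, ENNReal.ofReal (w / 3) := (setLIntegral_const _ _).symm
      _ ≤ ∫⁻ v in B, ENNReal.ofReal (chi (F v) * Real.exp (-(v ⬝ᵥ v) / 2)) := setLIntegral_mono' hBm hpt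
      _ ≤ ∫⁻ v, ENNReal.ofReal (chi (F v) * Real.exp (-(v ⬝ᵥ v) / 2)) := setLIntegral_le_lintegral _ _
      _ ≤ _ := hF
  rw [ENNReal.ofReal_le_ofReal_iff (by positivity)] at h6
  have h7 : 0 < w / 3 * (2 * r) ^ K := by positivity
  linarith

end Pool.Agent.Helper10.AQ.PT
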