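import Pool.Agent.Helper10.AQ.Stm

/-! Module STAB by helper2 (variant of `SD_entropy` of helper58). -/

set_option autoImplicit false
set_option linter.unusedSectionVars false
set_option linter.unusedSimpArgs false
set_option linter.unusedVariables false

namespace Pool.Agent.Helper10.AQ.STAB

open Finset Matrix MeasureTheory Filter Pool.Agent.Helper484 Pool.Agent.Y568.FL
  Pool.Agent.Helper7.Simplex Pool.Agent.Helper58.FU Pool.Agent.Helper10.AQ
open scoped ENNReal Topology

variable {m K N : ℕ}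

/-- the density -/
noncomputable def fe (p t : ℝ) : ℝ := √p * gpdf (t / √p) * gtail (t / √p) ^ (p - 1)
/-- its tail -/
noncomputable def Fe (p t : ℝ) : ℝ := gtail (t / √p) ^ p

lemma gt_pos (u : ℝ) : 0 < gtail u := J7431.gtail_pos u
lemma gp_pos (u : ℝ) : 0 < gpdf u := J7431.gpdf_pos u

lemma dens {p : ℝ} (hp : 0 < p) (hp1 : p ≤ 1) : Dens (fe p) (Fe p) := by
  have hsp : 0 < √p := Real.sqrt_pos.mpr hp
  have hT : ∀ u, 0 < gtail u := J7431.gtail_pos
  have hT1 : ∀ u, gtail u < 1 := fun u => (J7431.G_basic u).2.1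
  have hg : ∀ u, 0 < gpdf u := J7431.gpdf_pos
  refine ⟨?_, ?_, ?_, ?_, ?_, ?_⟩
  · intro t
    exact mul_pos (mul_pos hsp (hg _)) (Real.rpow_pos_of_pos (hT _) _)
  · intro t; exact Real.rpow_pos_of_pos (hT _) _
  · intro t
    exact Real.rpow_le_one (hT _).le (hT1 _).le hp.le
  · have hc : Continuous gtail := continuous_iff_continuousAt.mpr fun u =>
      (J7431.gtail_deriv u).continuousAt
    have hgc : Continuous gpdf := J7431.gpdf_cont
    refine (continuous_const.mul (hgc.comp (by fun_prop))).mul ?_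
    exact (hc.comp (by fun_prop)).rpow_const fun t => Or.inl (hT _).ne'
  · intro t
    have h1 : HasDerivAt (fun t : ℝ => t / √p) (1 / √p) t := (hasDerivAt_id t).div_const _
    have h2 := (J7431.gtail_deriv (t / √p)).comp t h1
    have h3 := h2.rpow_const (p := p) (Or.inl (hT _).ne')
    refine h3.congr_deriv ?_
    have e : √p * √p = p := Real.mul_self_sqrt hp.le
    unfold fe
    simp only [Function.comp]
    field_simp
    rw [Real.sq_sqrt hp.le]
    ring
  · have h1 : Tendsto (fun t : ℝ => gtail (t / √p)) atTop (𝓝 0) :=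
      (J7432.gtail_lim J7431.G_basic).comp (tendsto_id.atTop_div_const hsp)
    have h2 := h1.rpow_const (p := p) (Or.inr hp.le)
    rwa [Real.zero_rpow hp.ne'] at h2

lemma prod_eq {p : ℝ} (hp : 0 < p) (t : ℝ) :
    fe p t ^ p * Fe p t ^ (1 - p) = kap p * Real.exp (-t ^ 2 / 2) := by
  have hsp : 0 < √p := Real.sqrt_pos.mpr hp
  have hT : ∀ u, 0 < gtail u := J7431.gtail_pos
  have hg : ∀ u, 0 < gpdf u := J7431.gpdf_pos
  unfold fe Fe
  have h0 : 0 < √p * gpdf (t / √p) := mul_pos hsp (hg _)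
  rw [Real.mul_rpow h0.le (Real.rpow_nonneg (hT _).le _), ← Real.rpow_mul (hT _).le,
    ← Real.rpow_mul (hT _).le, mul_assoc, ← Real.rpow_add (hT _)]
  have e1 : (p - 1) * p + p * (1 - p) = 0 := by ring
  rw [e1, Real.rpow_zero, mul_one]
  unfold gpdf kap
  have e2 : √p * ((√(2 * Real.pi))⁻¹ * Real.exp (-(t / √p) ^ 2 / 2)) =
      √(p / (2 * Real.pi)) * Real.exp (-(t ^ 2 / p) / 2) := by
    rw [Real.sqrt_div hp.le, div_pow, Real.sq_sqrt hp.le]
    ring
  rw [e2, Real.mul_rpow (Real.sqrt_nonneg _) (Real.exp_pos _).le, ← Real.exp_mul,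
    Real.sqrt_eq_rpow, ← Real.rpow_mul (by positivity)]
  congr 2
  · ring
  · field_simp

/-- the logarithm of the quotient -/
noncomputable def AA (p t : ℝ) : ℝ := Real.log p / 2 + fz (t / √p)

lemma fe_eq {p : ℝ} (hp : 0 < p) (t : ℝ) : fe p t = Fe p t * Real.exp (AA p t) := by
  have hT := gt_pos (t / √p)
  have hg := gp_pos (t / √p)
  have e1 : Real.exp (AA p t) = √p * (gpdf (t / √p) / gtail (t / √p)) := by
    unfold AA fz
    rw [Real.exp_add, Real.exp_log (div_pos hg hT)]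
    congr 1
    rw [← Real.log_sqrt hp.le, Real.exp_log (Real.sqrt_pos.mpr hp)]
  rw [e1]
  unfold fe Fe
  rw [Real.rpow_sub hT, Real.rpow_one]
  field_simp

lemma Fe_eq {p : ℝ} (hp : 0 < p) (hp1 : p ≤ 1) (t : ℝ) :
    Fe p t = kap p * Real.exp (-t ^ 2 / 2) * Real.exp (-(p * AA p t)) := by
  have h := prod_eq hp t
  have hF : 0 < Fe p t := (dens hp hp1).Fpos t
  rw [fe_eq hp, Real.mul_rpow hF.le (Real.exp_pos _).le, ← Real.exp_mul] at h
  have e : Fe p t ^ p * Real.exp (AA p t * p) * Fe p t ^ (1 - p) =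
      Fe p t * Real.exp (p * AA p t) := by
    have : Fe p t ^ p * Fe p t ^ (1 - p) = Fe p t := by
      rw [← Real.rpow_add hF, add_sub_cancel, Real.rpow_one]
    calc _ = (Fe p t ^ p * Fe p t ^ (1 - p)) * Real.exp (AA p t * p) := by ring
      _ = _ := by rw [this, mul_comm (AA p t)]
  rw [e] at h
  rw [← h, mul_assoc, ← Real.exp_add, add_neg_cancel, Real.exp_zero, mul_one]

lemma chi_nonneg (L : ℝ) : 0 ≤ chi L := by
  unfold chi
  linarith [Real.add_one_le_exp L]

theorem main : S_STAB := by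
  classical
  intro m K N hN x b u hx hgen h hc hqpos
  set q : Fin N → ℝ := marg x b with hq
  have hq1 : ∀ j, q j ≤ 1 := marg_le_one h
  set w : Fin N → Fin K → ℝ := fun j => (√(q j))⁻¹ • u j with hw
  have hwv : ∀ j (v : Fin K → ℝ), w j ⬝ᵥ v = (u j ⬝ᵥ v) / √(q j) := by
    intro j v
    rw [hw]
    show ((√(q j))⁻¹ • u j) ⬝ᵥ v = _
    rw [smul_dotProduct, smul_eq_mul, div_eq_inv_mul]
  have hd : ∀ j, Dens (fe (q j)) (Fe (q j)) := fun j => dens (hqpos j) (hq1 j)
  set κ : ℝ := ∏ j, kap (q j) with hκ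
  have hκ0 : 0 < κ := Finset.prod_pos fun j _ =>
    Real.rpow_pos_of_pos (div_pos (hqpos j) (by positivity)) _
  -- the terms
  have hterm : ∀ (I : Fin m → Fin N) (v : Fin K → ℝ), ∏ j, (if ∃ a, I a = j then
      Fe (q j) (u j ⬝ᵥ v) else fe (q j) (u j ⬝ᵥ v)) =
      κ * Real.exp (-(v ⬝ᵥ v) / 2) * Real.exp (LL q w (univ.image I)ᶜ v) := by
    intro I v
    have e1 : ∀ j, (if ∃ a, I a = j then Fe (q j) (u j ⬝ᵥ v) else fe (q j) (u j ⬝ᵥ v)) =
        kap (q j) * Real.exp (-(u j ⬝ᵥ v) ^ 2 / 2) * Real.exp (-(q j * AA (q j) (u j ⬝ᵥ v))) *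
          Real.exp (if ∃ a, I a = j then 0 else AA (q j) (u j ⬝ᵥ v)) := by
      intro j
      split_ifs
      · rw [Real.exp_zero, mul_one, ← Fe_eq (hqpos j) (hq1 j)]
      · rw [fe_eq (hqpos j), ← Fe_eq (hqpos j) (hq1 j)]
    rw [Finset.prod_congr rfl fun j _ => e1 j, Finset.prod_mul_distrib, Finset.prod_mul_distrib,
      Finset.prod_mul_distrib, ← Real.exp_sum, ← Real.exp_sum, ← Real.exp_sum, mul_assoc
      (κ * _), ← Real.exp_add]
    congr 2
    · congr 1
      rw [← hc.norm v, ← Finset.sum_neg_distrib, Finset.sum_div]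
    · unfold LL
      have e2 : ∀ j, AA (q j) (u j ⬝ᵥ v) = Real.log (q j) / 2 + fz (w j ⬝ᵥ v) := by
        intro j
        rw [hwv]
        rfl
      have e3 : (univ.image I)ᶜ = univ.filter fun j : Fin N => ¬ ∃ a, I a = j := by
        ext j; simp
      rw [e3, Finset.sum_filter, Finset.sum_neg_distrib]
      simp only [e2]
      have e4 : ∀ j, (if ¬ ∃ a, I a = j then Real.log (q j) / 2 + fz (w j ⬝ᵥ v) else 0) =
          if ∃ a, I a = j then 0 else Real.log (q j) / 2 + fz (w j ⬝ᵥ v) := by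
        intro j
        split_ifs <;> rfl
      simp only [e4]
      ring
  -- the average of the logarithms is zero
  have havg : ∀ v : Fin K → ℝ, ∑ I ∈ FF x b, (|D x I| / SD x b) * LL q w (univ.image I)ᶜ v = 0 := by
    intro v
    unfold LL
    simp only [mul_sub]
    rw [Finset.sum_sub_distrib, ← Finset.sum_mul, sum_p h, one_mul, sub_eq_zero]
    have e3 : ∀ I : Fin m → Fin N, (univ.image I)ᶜ = univ.filter fun j : Fin N => ¬ ∃ a, I a = j := by
      intro I
      ext j; simp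
    simp only [e3, Finset.mul_sum, Finset.sum_filter]
    rw [Finset.sum_comm]
    refine Finset.sum_congr rfl fun j _ => ?_
    rw [hq]
    unfold marg
    rw [Finset.sum_filter, Finset.sum_mul]
    refine Finset.sum_congr rfl fun I _ => ?_
    split_ifs <;> simp
  set S : (Fin K → ℝ) → ℝ := fun v => ∑ I ∈ FF x b, (|D x I| / SD x b) *
    chi (LL q w (univ.image I)ᶜ v) with hS
  have hS0 : ∀ v, 0 ≤ S v := fun v => Finset.sum_nonneg fun I _ =>
    mul_nonneg (div_nonneg (abs_nonneg _) h.le) (chi_nonneg _)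
  have hsum : ∀ v : Fin K → ℝ, ∑ I ∈ FF x b, |D x I| * ∏ j, (if ∃ a, I a = j then
      Fe (q j) (u j ⬝ᵥ v) else fe (q j) (u j ⬝ᵥ v)) =
      SD x b * κ * (Real.exp (-(v ⬝ᵥ v) / 2) + S v * Real.exp (-(v ⬝ᵥ v) / 2)) := by
    intro v
    have e1 : ∑ I ∈ FF x b, (|D x I| / SD x b) * Real.exp (LL q w (univ.image I)ᶜ v) =
        1 + S v := by
      have e2 : ∀ I ∈ FF x b, (|D x I| / SD x b) * Real.exp (LL q w (univ.image I)ᶜ v) =
          |D x I| / SD x b + (|D x I| / SD x b) * LL q w (univ.image I)ᶜ v +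
          (|D x I| / SD x b) * chi (LL q w (univ.image I)ᶜ v) := by
        intro I _
        unfold chi
        ring
      rw [Finset.sum_congr rfl e2, Finset.sum_add_distrib, Finset.sum_add_distrib, sum_p h,
        havg v, add_zero]
    have e3 : SD x b * κ * (Real.exp (-(v ⬝ᵥ v) / 2) + S v * Real.exp (-(v ⬝ᵥ v) / 2)) =
        SD x b * κ * Real.exp (-(v ⬝ᵥ v) / 2) * (1 + S v) := by ring
    rw [e3, ← e1, Finset.mul_sum]
    refine Finset.sum_congr rfl fun I _ => ?_
    rw [hterm]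
    field_simp
  -- the decomposition
  have h1 := decomp_prod hc hgen (fun j s => ENNReal.ofReal (fe (q j) s))
    (fun j => (ENNReal.continuous_ofReal.comp (hd j).fcont).measurable)
  have h2 : ∏ j, ∫⁻ t, ENNReal.ofReal (fe (q j) t) ≤ 1 :=
    Finset.prod_le_one' fun j _ => (hd j).int
  have h3 := h1.trans h2
  have hpt : ∀ v : Fin K → ℝ, ENNReal.ofReal (SD x b * κ) *
      (ENNReal.ofReal (Real.exp (-(v ⬝ᵥ v) / 2)) +
        ENNReal.ofReal (S v * Real.exp (-(v ⬝ᵥ v) / 2))) =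
      ∑ I ∈ FF x b, ENNReal.ofReal |D x I| * ∏ j, (if ∃ a, I a = j then
        tl (fun s => ENNReal.ofReal (fe (q j) s)) (u j ⬝ᵥ v) else
        ENNReal.ofReal (fe (q j) (u j ⬝ᵥ v))) := by
    intro v
    have e1 : ∀ I ∈ FF x b, ENNReal.ofReal |D x I| * ∏ j, (if ∃ a, I a = j then
        tl (fun s => ENNReal.ofReal (fe (q j) s)) (u j ⬝ᵥ v) else
        ENNReal.ofReal (fe (q j) (u j ⬝ᵥ v))) = ENNReal.ofReal (|D x I| * ∏ j,
        (if ∃ a, I a = j then Fe (q j) (u j ⬝ᵥ v) else fe (q j) (u j ⬝ᵥ v))) := by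
      intro I _
      rw [ENNReal.ofReal_mul (abs_nonneg _), ENNReal.ofReal_prod_of_nonneg]
      · congr 1
        refine Finset.prod_congr rfl fun j _ => ?_
        split_ifs
        · exact (hd j).tl _
        · rfl
      · intro j _
        split_ifs
        · exact ((hd j).Fpos _).le
        · exact ((hd j).fpos _).le
    rw [Finset.sum_congr rfl e1, ← ENNReal.ofReal_sum_of_nonneg, hsum,
      ← ENNReal.ofReal_add (Real.exp_pos _).le (mul_nonneg (hS0 v) (Real.exp_pos _).le),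
      ← ENNReal.ofReal_mul (mul_nonneg h.le hκ0.le)]
    intro I _
    refine mul_nonneg (abs_nonneg _) (Finset.prod_nonneg fun j _ => ?_)
    split_ifs
    · exact ((hd j).Fpos _).le
    · exact ((hd j).fpos _).le
  have hmeas : ∀ I : Fin m → Fin N, Measurable fun v : Fin K → ℝ => ENNReal.ofReal |D x I| *
      ∏ j, (if ∃ a, I a = j then tl (fun s => ENNReal.ofReal (fe (q j) s)) (u j ⬝ᵥ v) else
        ENNReal.ofReal (fe (q j) (u j ⬝ᵥ v))) := by
    intro I
    refine measurable_const.mul (Finset.measurable_prod _ fun j _ => ?_)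
    have hlin : Measurable fun v : Fin K → ℝ => u j ⬝ᵥ v :=
      (Continuous.dotProduct continuous_const continuous_id).measurable
    by_cases hj : ∃ a, I a = j
    · simp only [if_pos hj]
      have e : (fun v : Fin K → ℝ => tl (fun s => ENNReal.ofReal (fe (q j) s)) (u j ⬝ᵥ v)) =
          fun v => ENNReal.ofReal (Fe (q j) (u j ⬝ᵥ v)) := by
        funext v; exact (hd j).tl _
      rw [e]
      have hFc : Continuous (Fe (q j)) := continuous_iff_continuousAt.mpr fun t =>
        ((hd j).der t).continuousAt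
      exact (ENNReal.continuous_ofReal.comp hFc).measurable.comp hlin
    · simp only [if_neg hj]
      exact (ENNReal.continuous_ofReal.comp (hd j).fcont).measurable.comp hlin
  have h10 : ENNReal.ofReal (SD x b * κ) * (ENNReal.ofReal (√(2 * Real.pi) ^ K) +
      ∫⁻ v : Fin K → ℝ, ENNReal.ofReal (S v * Real.exp (-(v ⬝ᵥ v) / 2))) ≤ 1 := by
    have e1 : ENNReal.ofReal (SD x b * κ) * (ENNReal.ofReal (√(2 * Real.pi) ^ K) +
        ∫⁻ v : Fin K → ℝ, ENNReal.ofReal (S v * Real.exp (-(v ⬝ᵥ v) / 2))) =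
        ∫⁻ v : Fin K → ℝ, ENNReal.ofReal (SD x b * κ) *
        (ENNReal.ofReal (Real.exp (-(v ⬝ᵥ v) / 2)) +
        ENNReal.ofReal (S v * Real.exp (-(v ⬝ᵥ v) / 2))) := by
      rw [lintegral_const_mul' _ _ ENNReal.ofReal_ne_top, lintegral_add_left (by fun_prop),
        gauss_lint]
    rw [e1, lintegral_congr hpt, lintegral_finsetSum _ (fun I _ => hmeas I)]
    refine le_trans (le_of_eq ?_) h3
    refine Finset.sum_congr rfl fun I _ => ?_
    rw [lintegral_const_mul']
    exact ENNReal.ofReal_ne_top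
  have hcr : 0 < SD x b * κ := mul_pos h hκ0
  have h11 : ENNReal.ofReal (√(2 * Real.pi) ^ K) +
      ∫⁻ v : Fin K → ℝ, ENNReal.ofReal (S v * Real.exp (-(v ⬝ᵥ v) / 2)) ≤
      ENNReal.ofReal (SD x b * κ)⁻¹ := by
    rw [ENNReal.ofReal_inv_of_pos hcr]
    rw [ENNReal.le_inv_iff_mul_le, mul_comm]
    exact h10
  have h12 := ENNReal.le_sub_of_add_le_left ENNReal.ofReal_ne_top h11
  rw [← ENNReal.ofReal_sub _ (by positivity)] at h12
  refine h12.trans (le_of_eq ?_)
  congr 1
  have h13 : κ = (∏ j, q j ^ (q j / 2)) / √(2 * Real.pi) ^ K := by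
    rw [hκ]
    unfold kap
    have e1 : ∀ j, (q j / (2 * Real.pi)) ^ (q j / 2) = q j ^ (q j / 2) /
        (2 * Real.pi) ^ (q j / 2) := fun j => Real.div_rpow (hqpos j).le (by positivity) _
    simp only [e1]
    rw [Finset.prod_div_distrib]
    congr 1
    rw [← Real.rpow_sum_of_pos (by positivity), ← Finset.sum_div, sum_marg hN h,
      Real.sqrt_eq_rpow, ← Real.rpow_natCast, ← Real.rpow_mul (by positivity)]
    congr 1
    ring
  have hP : 0 < ∏ j, q j ^ (q j / 2) := Finset.prod_pos fun j _ => Real.rpow_pos_of_pos (hqpos j) _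
  rw [h13]
  have hG : 0 < √(2 * Real.pi) ^ K := by positivity
  field_simp

end Pool.Agent.Helper10.AQ.STAB
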