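import Pool.Agent.Helper10.AQ.Stm

/-! # Module TRV: the feasible bases are transversals (helper88) -/

set_option autoImplicit false

open Finset Matrix

namespace Pool.Agent.Helper10.AQ.TRV

theorem cs {K : ℕ} (x y : Fin K → ℝ) : (x ⬝ᵥ y) ^ 2 ≤ (x ⬝ᵥ x) * (y ⬝ᵥ y) := by
  have h := Finset.sum_mul_sq_le_sq_mul_sq univ x y
  have h1 : ∀ z : Fin K → ℝ, z ⬝ᵥ z = ∑ i, z i ^ 2 := fun z =>
    sum_congr rfl fun i _ => (pow_two _).symm
  rw [h1, h1]
  exact h

theorem dot_sum {K N : ℕ} (u : Fin K → ℝ) (s : Finset (Fin N)) (c : Fin N → ℝ)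
    (w : Fin N → Fin K → ℝ) : u ⬝ᵥ ∑ j ∈ s, c j • w j = ∑ j ∈ s, c j * (u ⬝ᵥ w j) := by
  classical
  induction s using Finset.induction_on with
  | empty => simp
  | insert j s hj ih =>
    rw [sum_insert hj, sum_insert hj, dotProduct_add, dotProduct_smul, ih, smul_eq_mul]

theorem self_nonneg {K : ℕ} (x : Fin K → ℝ) : 0 ≤ x ⬝ᵥ x :=
  sum_nonneg fun i _ => mul_self_nonneg _

theorem main : S_TRV := by
  intro K hK
  have hK1 : (1 : ℝ) ≤ K := by exact_mod_cast hK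
  have hK0 : (0 : ℝ) < K := by linarith
  refine ⟨1 / (2000 * K), by positivity, ?_⟩
  intro N q b lam w e p T hN hq hfr he hw hb hl heq a
  by_contra hno
  push Not at hno
  set ε := 1 / (2000 * (K : ℝ)) with hε
  have hε0 : 0 < ε := by positivity
  have hKε : K * ε = 1 / 2000 := by
    rw [hε]
    field_simp
  have hε1 : ε ≤ 1 / 2000 := by nlinarith
  have hNr : (0 : ℝ) < N := by exact_mod_cast hN
  have hq1 : ∀ j, 1 / 2 * K ≤ q j * N ∧ q j * N ≤ 3 / 2 * K := by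
    intro j
    obtain ⟨h1, h2⟩ := abs_le.1 (hq j)
    have h3 : q j * N = q j * (N / K) * K := by field_simp
    rw [h3]
    constructor <;> nlinarith
  have hq0 : ∀ j, 0 < q j := by
    intro j
    have h1 := (hq1 j).1
    by_contra h2
    push Not at h2
    nlinarith
  have hsq : ∑ j, q j ≤ 3 / 2 * K := by
    have h1 : (∑ j, q j) * N ≤ 3 / 2 * K * N := by
      rw [sum_mul]
      calc ∑ j, q j * N ≤ ∑ _j : Fin N, 3 / 2 * (K : ℝ) := sum_le_sum fun j _ => (hq1 j).2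
        _ = 3 / 2 * K * N := by
          rw [sum_const, card_univ, Fintype.card_fin, nsmul_eq_mul]
          ring
    exact le_of_mul_le_mul_right h1 hNr
  -- scalar products
  have hA : ∀ c k, |e c ⬝ᵥ w k - (if c = p k then 1 else 0)| ≤ 3 * ε := by
    intro c k
    have h1 := he c (p k)
    have h2 : e c ⬝ᵥ w k = e c ⬝ᵥ e (p k) + e c ⬝ᵥ (w k - e (p k)) := by
      rw [← dotProduct_add, add_sub_cancel]
    have h3 := cs (e c) (w k - e (p k))
    have h4 : e c ⬝ᵥ e c ≤ 2 := by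
      have h := he c c
      rw [if_pos rfl] at h
      have := (abs_le.1 h).2
      linarith
    have h5 : (e c ⬝ᵥ (w k - e (p k))) ^ 2 ≤ (2 * ε) ^ 2 := by
      calc _ ≤ _ := h3
        _ ≤ 2 * ε ^ 2 := mul_le_mul h4 (hw k) (self_nonneg _) (by norm_num)
        _ ≤ (2 * ε) ^ 2 := by nlinarith [sq_nonneg ε]
    have h6 := abs_le_of_sq_le_sq h5 (by positivity)
    rw [h2]
    have h7 : e c ⬝ᵥ e (p k) + e c ⬝ᵥ (w k - e (p k)) - (if c = p k then (1 : ℝ) else 0) =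
        (e c ⬝ᵥ e (p k) - (if c = p k then (1 : ℝ) else 0)) + e c ⬝ᵥ (w k - e (p k)) := by ring
    rw [h7]
    refine (abs_add_le _ _).trans ?_
    linarith
  have hin : ∀ k, p k = a → 1 / 2 ≤ e a ⬝ᵥ w k ∧ e a ⬝ᵥ w k ≤ 3 / 2 := by
    intro k hk
    have h1 := hA a k
    rw [if_pos hk.symm] at h1
    obtain ⟨h2, h3⟩ := abs_le.1 h1
    constructor <;> linarith
  have hout : ∀ k, p k ≠ a → |e a ⬝ᵥ w k| ≤ 3 * ε := by
    intro k hk
    have h1 := hA a k
    rw [if_neg (Ne.symm hk), sub_zero] at h1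
    exact h1
  have hE : ∀ k, 1 / 2 ≤ (∑ c, e c) ⬝ᵥ w k ∧ (∑ c, e c) ⬝ᵥ w k ≤ 3 / 2 := by
    intro k
    have h1 : (∑ c, e c) ⬝ᵥ w k = ∑ c, e c ⬝ᵥ w k := by
      have h := dot_sum (w k) (univ : Finset (Fin K)) (fun _ => 1) e
      simp only [one_smul, one_mul] at h
      rw [dotProduct_comm, h]
      exact sum_congr rfl fun c _ => dotProduct_comm _ _
    have h2 : (∑ c, e c ⬝ᵥ w k) - 1 = ∑ c, (e c ⬝ᵥ w k - (if c = p k then (1 : ℝ) else 0)) := by
      rw [sum_sub_distrib, sum_ite_eq' univ (p k) (fun _ => (1 : ℝ)), if_pos (mem_univ _)]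
    have h3 : |(∑ c, e c ⬝ᵥ w k) - 1| ≤ K * (3 * ε) := by
      rw [h2]
      refine (abs_sum_le_sum_abs _ _).trans ?_
      refine (sum_le_sum fun c _ => hA c k).trans ?_
      rw [sum_const, card_univ, Fintype.card_fin, nsmul_eq_mul]
    have h4 : (K : ℝ) * (3 * ε) = 3 / 2000 := by linear_combination 3 * hKε
    rw [h4] at h3
    obtain ⟨h5, h6⟩ := abs_le.1 h3
    rw [h1]
    constructor <;> linarith
  -- the block of `a`
  have hblock : 1 / 9 ≤ ∑ j ∈ univ.filter (fun j => p j = a), q j := by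
    have h1 := hfr (e a)
    have h2 : 1 / 2 ≤ e a ⬝ᵥ e a := by
      have h := he a a
      rw [if_pos rfl] at h
      have := (abs_le.1 h).1
      linarith
    have h3 : ∑ j, q j * (w j ⬝ᵥ e a) ^ 2 ≤
        ∑ j, ((if p j = a then 9 / 4 * q j else 0) + 9 * ε ^ 2 * q j) := by
      refine sum_le_sum fun j _ => ?_
      rw [dotProduct_comm]
      have hqj := hq0 j
      by_cases hj : p j = a
      · rw [if_pos hj]
        obtain ⟨h4, h5⟩ := hin j hj
        have h6 : (e a ⬝ᵥ w j) ^ 2 ≤ 9 / 4 := by nlinarith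
        have h7 : 0 ≤ 9 * ε ^ 2 * q j := by positivity
        nlinarith
      · rw [if_neg hj, zero_add]
        have h4 := hout j hj
        have h6 : (e a ⬝ᵥ w j) ^ 2 ≤ (3 * ε) ^ 2 := by
          rw [← sq_abs (e a ⬝ᵥ w j)]
          exact pow_le_pow_left₀ (abs_nonneg _) h4 2
        nlinarith
    rw [sum_add_distrib, ← sum_filter, ← mul_sum, ← mul_sum, h1] at h3
    have h4 : 9 * ε ^ 2 * ∑ j, q j ≤ 1 / 100 := by
      calc 9 * ε ^ 2 * ∑ j, q j ≤ 9 * ε ^ 2 * (3 / 2 * K) :=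
            mul_le_mul_of_nonneg_left hsq (by positivity)
        _ = 27 / 2 * ε * (K * ε) := by ring
        _ = 27 / 4000 * ε := by rw [hKε]; ring
        _ ≤ 1 / 100 := by linarith
    linarith
  -- the scale
  set Q := √(3 / 2 * K / N) with hQ
  have hQ0 : 0 < Q := Real.sqrt_pos.2 (by positivity)
  have hQQ : Q * Q = 3 / 2 * K / N := Real.mul_self_sqrt (by positivity)
  have hsQ : ∀ j, √(q j) ≤ Q := by
    intro j
    apply Real.sqrt_le_sqrt
    rw [le_div_iff₀ hNr]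
    exact (hq1 j).2
  have hqQ : ∀ j, q j ≤ Q * √(q j) := by
    intro j
    calc q j = √(q j) * √(q j) := (Real.mul_self_sqrt (hq0 j).le).symm
      _ ≤ Q * √(q j) := mul_le_mul_of_nonneg_right (hsQ j) (Real.sqrt_nonneg _)
  have hsum : Q * ∑ j, √(q j) ≤ 3 / 2 * K := by
    have h1 : ∑ j, √(q j) ≤ N * Q := by
      calc ∑ j, √(q j) ≤ ∑ _j : Fin N, Q := sum_le_sum fun j _ => hsQ j
        _ = N * Q := by rw [sum_const, card_univ, Fintype.card_fin, nsmul_eq_mul]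
    calc Q * ∑ j, √(q j) ≤ Q * (N * Q) := mul_le_mul_of_nonneg_left h1 hQ0.le
      _ = N * (Q * Q) := by ring
      _ = 3 / 2 * K := by
        rw [hQQ]
        field_simp
  -- lower bound
  have hlow : 1 / 4 * ∑ j ∈ univ.filter (fun j => p j = a), √(q j) - 6 * ε * ∑ j, √(q j) ≤
      e a ⬝ᵥ ∑ j, (b j * √(q j)) • w j := by
    rw [dot_sum, mul_sum, mul_sum, sum_filter, ← sum_sub_distrib]
    refine sum_le_sum fun j _ => ?_
    have hs := Real.sqrt_nonneg (q j)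
    obtain ⟨hb1, hb2⟩ := hb j
    by_cases hj : p j = a
    · rw [if_pos hj]
      obtain ⟨h4, h5⟩ := hin j hj
      have h6 : 1 / 4 ≤ b j * (e a ⬝ᵥ w j) := by nlinarith
      have h7 : 1 / 4 * √(q j) ≤ b j * (e a ⬝ᵥ w j) * √(q j) := mul_le_mul_of_nonneg_right h6 hs
      have h8 : 0 ≤ 6 * ε * √(q j) := by positivity
      linarith
    · rw [if_neg hj]
      have h4 := (abs_le.1 (hout j hj)).1
      have h6 : -(6 * ε) ≤ b j * (e a ⬝ᵥ w j) := by
        have h7 : b j * (-(3 * ε)) ≤ b j * (e a ⬝ᵥ w j) :=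
          mul_le_mul_of_nonneg_left h4 (by linarith)
        nlinarith
      have h7 : -(6 * ε) * √(q j) ≤ b j * (e a ⬝ᵥ w j) * √(q j) :=
        mul_le_mul_of_nonneg_right h6 hs
      linarith
  -- upper bound
  have hup : e a ⬝ᵥ ∑ j ∈ T, (lam j * √(q j)) • w j ≤
      6 * ε * ((∑ c, e c) ⬝ᵥ ∑ j ∈ T, (lam j * √(q j)) • w j) := by
    rw [dot_sum, dot_sum, mul_sum]
    refine sum_le_sum fun j hj => ?_
    have hs : 0 ≤ lam j * √(q j) := mul_nonneg (hl j) (Real.sqrt_nonneg _)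
    have h4 := (abs_le.1 (hout j (hno j hj))).2
    have h5 := (hE j).1
    have h6 : e a ⬝ᵥ w j ≤ 6 * ε * ((∑ c, e c) ⬝ᵥ w j) := by nlinarith
    calc lam j * √(q j) * (e a ⬝ᵥ w j) ≤ lam j * √(q j) * (6 * ε * ((∑ c, e c) ⬝ᵥ w j)) :=
          mul_le_mul_of_nonneg_left h6 hs
      _ = _ := by ring
  have hEs : (∑ c, e c) ⬝ᵥ ∑ j, (b j * √(q j)) • w j ≤ 3 * ∑ j, √(q j) := by
    rw [dot_sum, mul_sum]
    refine sum_le_sum fun j _ => ?_
    have hs := Real.sqrt_nonneg (q j)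
    obtain ⟨hb1, hb2⟩ := hb j
    obtain ⟨h4, h5⟩ := hE j
    have h6 : b j * ((∑ c, e c) ⬝ᵥ w j) ≤ 3 := by nlinarith
    calc b j * √(q j) * ((∑ c, e c) ⬝ᵥ w j) = b j * ((∑ c, e c) ⬝ᵥ w j) * √(q j) := by ring
      _ ≤ 3 * √(q j) := mul_le_mul_of_nonneg_right h6 hs
  rw [← heq] at hup
  have h1 : 1 / 4 * ∑ j ∈ univ.filter (fun j => p j = a), √(q j) - 6 * ε * ∑ j, √(q j) ≤
      6 * ε * (3 * ∑ j, √(q j)) :=
    hlow.trans (hup.trans (mul_le_mul_of_nonneg_left hEs (by positivity)))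
  have h2 : Q * (1 / 4 * ∑ j ∈ univ.filter (fun j => p j = a), √(q j) - 6 * ε * ∑ j, √(q j)) ≤
      Q * (6 * ε * (3 * ∑ j, √(q j))) := mul_le_mul_of_nonneg_left h1 hQ0.le
  have h3 : 1 / 9 ≤ Q * ∑ j ∈ univ.filter (fun j => p j = a), √(q j) := by
    rw [mul_sum]
    exact hblock.trans (sum_le_sum fun j _ => hqQ j)
  have h4 : 24 * ε * (Q * ∑ j, √(q j)) ≤ 24 * ε * (3 / 2 * K) :=
    mul_le_mul_of_nonneg_left hsum (by positivity)
  have h5 : 24 * ε * (3 / 2 * (K : ℝ)) = 36 / 2000 := by linear_combination 36 * hKε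
  nlinarith

end Pool.Agent.Helper10.AQ.TRV
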