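import Pool.Agent.Helper10.AQ.Asm2
import Pool.Agent.Helper10.AQ.FBD
import Pool.Agent.Helper10.AQ.STAB
import Pool.Agent.Helper10.AQ.PT
import Pool.Agent.Helper10.AQ.ENT
import Pool.Agent.Helper10.AQ.BDD
import Pool.Agent.Helper10.AQ.CMP
import Pool.Agent.Helper10.AQ.ORT
import Pool.Agent.Helper10.AQ.TRV
import Pool.Agent.Helper10.AQ.CNT
import Pool.Agent.Helper10.AQ.BAL
import Pool.Agent.Helper58.FU.Geo

/-!
# Volumes of projections of the regular simplex in large dimensions
-/

set_option autoImplicit false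
set_option linter.unusedSectionVars false
set_option linter.unusedSimpArgs false
set_option linter.unusedVariables false

open Finset Matrix MeasureTheory Pool.Agent.Helper484 Pool.Agent.Y568.FL Pool.Agent.Helper7.Simplex
  Pool.Agent.Helper58.FU
open scoped ENNReal

namespace Pool.Agent.Helper10.AQ

theorem mods : Mods where
  stab := STAB.main
  pt := PT.main
  ent := ENT.main
  bdd := BDD.main FBD.main
  cmp := CMP.main FBD.main
  ort := ORT.main
  trv := TRV.main
  cnt := CNT.main
  bal := BAL.main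

/-- For all large `N` the convex hull of a centred Parseval frame of `N` vectors in dimension `N - K` has at most the
conjectured volume. -/
theorem hull_large (K : ℕ) (hK : 1 ≤ K) : ∃ N₀ : ℕ, ∀ N m : ℕ, N₀ ≤ N → N = m + K →
    ∀ x : Fin N → Fin m → ℝ, Fr x → ∑ j, x j = 0 →
      volume (convexHull ℝ (Set.range x)) ≤ ENNReal.ofReal (√(bal N K : ℝ) / m.factorial) := by
  obtain ⟨N₀, h⟩ := main_bound mods K hK
  refine ⟨N₀, fun N m hN hNm x hx hsum => ?_⟩
  obtain ⟨b, hb, hgen, hone⟩ := exists_generic_rhs x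
  have hbpos : ∀ j, 0 < b j := fun j => by linarith [(hb j).1]
  refine (vol_le hbpos hone (hrep_of hx hsum)).trans (ENNReal.ofReal_le_ofReal ?_)
  exact div_le_div_of_nonneg_right (h N m hN hNm x b hx hgen hb) (by positivity)

/-- For a balanced partition the product of the block sizes is `bal`. -/
lemma prod_bs {n k : ℕ} (hkn : k ≤ n) (p : Fin (n + 1) → Fin (k + 1))
    (hp : ∀ a, bs p a = (n + 1) / (k + 1) ∨ bs p a = (n + 1) / (k + 1) + 1) :
    ∏ a, bs p a = bal (n + 1) (k + 1) := by
  classical
  set ℓ : ℕ := (n + 1) / (k + 1) with hℓ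
  set r : ℕ := (n + 1) % (k + 1) with hr
  have hdm : (k + 1) * ℓ + r = n + 1 := Nat.div_add_mod (n + 1) (k + 1)
  have hr1 : r < k + 1 := Nat.mod_lt _ (by omega)
  have hsum : ∑ a, bs p a = n + 1 := by
    have := Finset.card_eq_sum_card_fiberwise (f := p) (s := univ) (t := univ)
      (fun i _ => Finset.mem_coe.mpr (Finset.mem_univ _))
    unfold bs
    rw [← this, Finset.card_univ, Fintype.card_fin]
  have hcard : (univ.filter fun a => bs p a = ℓ + 1).card = r := by
    have h1 : ∑ a, bs p a = ∑ a : Fin (k + 1), (ℓ + if bs p a = ℓ + 1 then 1 else 0) := by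
      refine Finset.sum_congr rfl fun a _ => ?_
      rcases hp a with h | h <;> rw [h] <;> simp
    rw [hsum, Finset.sum_add_distrib, Finset.sum_const, Finset.card_univ, Fintype.card_fin,
      smul_eq_mul, ← Finset.card_filter] at h1
    omega
  have h2 : ∏ a, bs p a = ∏ a : Fin (k + 1), if bs p a = ℓ + 1 then ℓ + 1 else ℓ := by
    refine Finset.prod_congr rfl fun a _ => ?_
    rcases hp a with h | h
    · rw [h, if_neg (by omega)]
    · rw [h, if_pos rfl]
  have h3 : (univ.filter fun a => ¬ bs p a = ℓ + 1).card = k + 1 - r := by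
    have h4 := Finset.card_filter_add_card_filter_not (s := (univ : Finset (Fin (k + 1))))
      (p := fun a => bs p a = ℓ + 1)
    rw [hcard, Finset.card_univ, Fintype.card_fin] at h4
    omega
  rw [h2, Finset.prod_ite, Finset.prod_const, Finset.prod_const, hcard, h3]
  unfold bal
  rw [← hℓ, ← hr, mul_comm]

variable {V : Type*} [NormedAddCommGroup V] [InnerProductSpace ℝ V] [FiniteDimensional ℝ V]
  [MeasurableSpace V] [BorelSpace V]

theorem proj_large' {n k : ℕ} (hkn : k ≤ n) (hV : Module.finrank ℝ V = n) (v : Fin (n + 1) → V)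
    (hv : ∀ i j, i ≠ j → dist (v i) (v j) = √2)
    (E : Submodule ℝ V) (hE : Module.finrank ℝ E = n - k)
    (hull : ∀ x : Fin (n + 1) → Fin (n - k) → ℝ, Fr x → ∑ j, x j = 0 →
      volume (convexHull ℝ (Set.range x)) ≤
        ENNReal.ofReal (√(bal (n + 1) (k + 1) : ℝ) / (n - k).factorial)) :
    J7762.projVol (n - k) E (convexHull ℝ (Set.range v)) ≤
      ENNReal.ofReal (√(bal (n + 1) (k + 1) : ℝ) / (n - k).factorial) := by
  obtain ⟨L, h1, h2, h3, -, -⟩ := coord v (J7761.R_frame hV v hv) E hE
  rw [h1]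
  exact hull _ h3 h2

end Pool.Agent.Helper10.AQ
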