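import Pool.Agent.Helper10.AQ.Stm3

/-!
# Project AQ, module GEQ (helper99): the geometry of the equality case
-/

set_option autoImplicit false

open Finset Matrix MeasureTheory Pool.Agent.Helper484 Pool.Agent.Y568.FL Pool.Agent.Helper7.Simplex
  Pool.Agent.Helper58.FU
open scoped ENNReal

universe u

namespace Pool.Agent.Helper10.AQ.GEQ

theorem main : S_GEQ.{u} := by
  intro n k hkn V _ _ _ _ _ hV v hv E hE H
  classical
  have hf := J7761.R_frame hV v hv
  obtain ⟨L, h1, h2, h3, h4, h5⟩ := coord v hf E hE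
  set c : V := ((n : ℝ) + 1)⁻¹ • ∑ j, v j with hc
  obtain ⟨p, q, hp, hq, hb, hx⟩ := H (fun i => L (v i - c)) h3 h2 h1.symm
  refine ⟨p, hb, ?_⟩
  have hx' : ∀ i j, L (v i - c) ⬝ᵥ L (v j - c) =
      (if i = j then 1 else 0) - if p i = p j then √(q i) * √(q j) else 0 := hx
  -- the sums over the blocks
  have hS : ∀ i, √(q i) * ∑ j ∈ univ.filter (fun j => p i = p j), √(q j) = 1 := by
    intro i
    have e1 : L (v i - c) ⬝ᵥ ∑ j, L (v j - c) = 0 := by
      rw [h2, dotProduct_zero]
    rw [dotProduct_sum, Finset.sum_congr rfl fun j _ => hx' i j, Finset.sum_sub_distrib,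
      Finset.sum_ite_eq, if_pos (Finset.mem_univ i), ← Finset.sum_filter, ← Finset.mul_sum] at e1
    linarith
  have hqq : ∀ i j, p i = p j → √(q i) = √(q j) := by
    intro i j hij
    have e1 := hS i
    have e2 := hS j
    rw [hij] at e1
    have e3 : ∑ l ∈ univ.filter (fun l => p j = p l), √(q l) ≠ 0 := by
      intro h0
      rw [h0, mul_zero] at e2
      exact zero_ne_one e2
    exact mul_right_cancel₀ e3 (e1.trans e2.symm)
  -- the differences are in `E`
  have hmem : ∀ i j, p i = p j → v i - v j ∈ E := by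
    intro i j hij
    by_cases hne : i = j
    · rw [hne, sub_self]
      exact E.zero_mem
    have e1 : L (v i - v j) = L (v i - c) - L (v j - c) := by
      rw [← map_sub]
      congr 1
      abel
    have e2 : L (v i - v j) ⬝ᵥ L (v i - v j) = 2 := by
      rw [e1, sub_dotProduct, dotProduct_sub, dotProduct_sub, hx', hx', hx', hx', if_pos rfl, if_pos rfl,
        if_pos rfl, if_pos rfl, if_neg hne, if_neg (Ne.symm hne), if_pos hij, if_pos hij.symm, hqq i j hij]
      ring
    obtain ⟨y, hy, z, hz, hyz⟩ := Submodule.exists_add_mem_mem_orthogonal (K := E) (v i - v j)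
    have e3 : L (v i - v j) = L y := by
      rw [hyz, map_add, h4 z hz, add_zero]
    have e4 : inner ℝ y y = (2 : ℝ) := by
      rw [← h5 y y hy, ← e3]
      exact e2
    have e5 : inner ℝ (v i - v j) (v i - v j) = (2 : ℝ) := by
      rw [real_inner_self_eq_norm_sq, ← dist_eq_norm, hv i j hne]
      exact Real.sq_sqrt (by norm_num)
    have e6 : inner ℝ y z = (0 : ℝ) := Submodule.inner_right_of_mem_orthogonal hy hz
    have e7 : inner ℝ z z = (0 : ℝ) := by
      rw [hyz, inner_add_left, inner_add_right, inner_add_right, e4, e6, real_inner_comm, e6] at e5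
      linarith
    have e8 : z = 0 := inner_self_eq_zero.1 e7
    rw [hyz, e8, add_zero]
    exact hy
  have hle : Submodule.span ℝ {x | ∃ i j, p i = p j ∧ x = v i - v j} ≤ E := by
    rw [Submodule.span_le]
    rintro _ ⟨i, j, hij, rfl⟩
    exact hmem i j hij
  refine (Submodule.eq_of_le_of_finrank_eq hle ?_).symm
  rw [hE]
  exact (proj_star' hkn hV v hv p hp).1

end Pool.Agent.Helper10.AQ.GEQ
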