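import Pool.Agent.Helper10.AQ.FinX
import Pool.Agent.Helper10.AQ.Asm4
import Pool.Agent.Helper10.AQ.BEQ
import Pool.Agent.Helper10.AQ.CEQ
import Pool.Agent.Helper10.AQ.GEQ

/-!
# The equality case
-/

set_option autoImplicit false

open Finset Matrix MeasureTheory Pool.Agent.Helper484 Pool.Agent.Y568.FL Pool.Agent.Helper7.Simplex
  Pool.Agent.Helper58.FU
open scoped ENNReal

universe u

namespace Pool.Agent.Helper10.AQ

variable {V : Type u} [NormedAddCommGroup V] [InnerProductSpace ℝ V] [FiniteDimensional ℝ V]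
  [MeasurableSpace V] [BorelSpace V]

theorem eq_case {n k : ℕ} (hkn : k ≤ n)
    (hn : Real.exp (10 ^ 34 * ((k + 1 : ℕ) : ℝ) ^ 20) ≤ ((n + 1 : ℕ) : ℝ))
    (hV : Module.finrank ℝ V = n) (v : Fin (n + 1) → V)
    (hv : ∀ i j, i ≠ j → dist (v i) (v j) = √2)
    (E : Submodule ℝ V) (hE : Module.finrank ℝ E = n - k)
    (heq : ENNReal.ofReal (√(bal (n + 1) (k + 1) : ℝ) / (n - k).factorial) ≤
      J7762.projVol (n - k) E (convexHull ℝ (Set.range v))) :
    ∃ p : Fin (n + 1) → Fin (k + 1),
      (∀ a, (univ.filter fun i => p i = a).card = (n + 1) / (k + 1) ∨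
        (univ.filter fun i => p i = a).card = (n + 1) / (k + 1) + 1) ∧
      E = Submodule.span ℝ {x | ∃ i j, p i = p j ∧ x = v i - v j} := by
  classical
  refine GEQ.main n k hkn V hV v hv E hE fun x hx hx0 hvol => ?_
  obtain ⟨b, hb, hgen, hone⟩ := exists_generic_rhs x
  have hbpos : ∀ j, 0 < b j := fun j => by linarith [(hb j).1]
  have h1 := vol_le hbpos hone (hrep_of hx hx0)
  rw [hvol] at h1
  have h2 := heq.trans h1
  have hSD0 : 0 ≤ SD x b := Finset.sum_nonneg fun I _ => abs_nonneg _
  rw [ENNReal.ofReal_le_ofReal_iff (by positivity)] at h2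
  have h3 : √(bal (n + 1) (k + 1) : ℝ) ≤ SD x b := by
    have h4 : (0 : ℝ) < (n - k).factorial := by exact_mod_cast Nat.factorial_pos _
    exact (div_le_div_iff_of_pos_right h4).1 h2
  obtain ⟨u, p, q, e, hc, hq, hcard, he, hu⟩ := main_eq_x modsX CEQ.main (k + 1) (by omega)
    (n + 1) (n - k) hn (by omega) x b hx hgen hb (by omega) h3
  have hsum : ∑ a, (univ.filter fun i => p i = a).card = n + 1 := by
    have := Finset.card_eq_sum_card_fiberwise (f := p) (s := Finset.univ) (t := Finset.univ)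
      (fun i _ => Finset.mem_coe.mpr (Finset.mem_univ _))
    rw [Finset.card_univ, Fintype.card_fin] at this
    exact this.symm
  have hbal := BEQ.main (n + 1) (k + 1) (by omega) (by omega)
    (fun a => (univ.filter fun i => p i = a).card) hsum hcard
  refine ⟨p, q, ?_, hq, hbal, ?_⟩
  · intro a
    have hl : 1 ≤ (n + 1) / (k + 1) := Nat.div_pos (by omega) (by omega)
    have h5 : 0 < (univ.filter fun i => p i = a).card := by
      rcases hbal a with h | h <;> omega
    obtain ⟨i, hi⟩ := Finset.card_pos.mp h5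
    exact ⟨i, (Finset.mem_filter.mp hi).2⟩
  · intro i j
    have h5 := hc.row i j
    rw [hu i, hu j, smul_dotProduct, dotProduct_smul, he, smul_eq_mul, smul_eq_mul] at h5
    by_cases hp : p i = p j
    · rw [if_pos hp] at h5 ⊢
      linarith
    · rw [if_neg hp] at h5 ⊢
      linarith

end Pool.Agent.Helper10.AQ
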