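import Pool.Agent.Helper10.AQ.Stm2

/-!
# Module NUM of the project AQ (helper32)
-/

set_option autoImplicit false

open Finset Matrix

namespace Pool.Agent.Helper10.AQ.NUM

theorem rr_eq (K : ℕ) (hK : (1 : ℝ) ≤ K) :
    RR K = 1600000000000 * (K : ℝ) ^ 8 * (14 * K + 29) ^ 2 := by
  have h0 : (K : ℝ) ≠ 0 := by positivity
  unfold RR
  field_simp
  ring

theorem rr_sq (K : ℕ) (hK : (1 : ℝ) ≤ K) : (RR K + 1) ^ 2 ≤ 10 ^ 31 * (K : ℝ) ^ 20 := by
  have h0 : (0 : ℝ) ≤ (K : ℝ) ^ 8 := by positivity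
  have h1 : (14 * (K : ℝ) + 29) ^ 2 ≤ 1849 * (K : ℝ) ^ 2 := by nlinarith
  have h2 : RR K ≤ 3 * 10 ^ 15 * (K : ℝ) ^ 10 := by
    rw [rr_eq K hK]
    have h3 : (K : ℝ) ^ 8 * (14 * K + 29) ^ 2 ≤ (K : ℝ) ^ 8 * (1849 * (K : ℝ) ^ 2) :=
      mul_le_mul_of_nonneg_left h1 h0
    have h4 : (0 : ℝ) ≤ (K : ℝ) ^ 10 := by positivity
    nlinarith
  have h5 : 0 ≤ RR K := by
    rw [rr_eq K hK]
    positivity
  have h6 : (1 : ℝ) ≤ (K : ℝ) ^ 10 := one_le_pow₀ hK
  have h7 : RR K + 1 ≤ 3.1 * 10 ^ 15 * (K : ℝ) ^ 10 := by nlinarith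
  have h8 : (RR K + 1) ^ 2 ≤ (3.1 * 10 ^ 15 * (K : ℝ) ^ 10) ^ 2 :=
    pow_le_pow_left₀ (by linarith) h7 2
  have h9 : (0 : ℝ) ≤ (K : ℝ) ^ 20 := by positivity
  have h10 : (3.1 * 10 ^ 15 * (K : ℝ) ^ 10) ^ 2 = 9.61 * 10 ^ 30 * (K : ℝ) ^ 20 := by ring
  rw [h10] at h8
  nlinarith

theorem main : S_NUM := by
  intro K hK' N hN
  have hK : (1 : ℝ) ≤ K := by exact_mod_cast hK'
  have hR := rr_sq K hK
  set k : ℝ := (K : ℝ) with hk
  set R : ℝ := (RR K + 1) ^ 2 with hRdef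
  set s : ℝ := √(2 * Real.pi) ^ K with hs
  have hpi : 2 * Real.pi ≤ 6.3 := by linarith [Real.pi_lt_d2]
  have hpi0 : 1 ≤ 2 * Real.pi := by linarith [Real.pi_gt_three]
  have hs1 : 1 ≤ s := one_le_pow₀ (by
    rw [Real.one_le_sqrt]
    exact hpi0)
  have hexp1 : (2.7 : ℝ) < Real.exp 1 := by linarith [Real.exp_one_gt_d9]
  have hs2 : s ^ 2 ≤ Real.exp (2 * k) := by
    have h1 : s ^ 2 = (2 * Real.pi) ^ K := by
      rw [hs, ← pow_mul, mul_comm K 2, pow_mul, Real.sq_sqrt (by linarith)]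
    have h2 : (2 * Real.pi) ≤ Real.exp 2 := by
      have h3 : Real.exp 2 = Real.exp 1 * Real.exp 1 := by rw [← Real.exp_add]; norm_num
      rw [h3]
      nlinarith
    rw [h1, show 2 * k = (K : ℝ) * 2 by rw [hk]; ring, Real.exp_nat_mul]
    exact pow_le_pow_left₀ (by linarith) h2 K
  set A : ℝ := (2 / (k + 1)) ^ K with hA
  have hA0 : 0 < A := by positivity
  have hA1 : A ≤ 1 := pow_le_one₀ (by positivity) (by
    rw [div_le_one (by linarith)]
    linarith)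
  have hA2 : Real.exp (-(k ^ 2)) ≤ A := by
    have h1 : Real.exp (-k) ≤ 2 / (k + 1) := by
      rw [Real.exp_neg, le_div_iff₀ (by linarith), inv_mul_le_iff₀ (Real.exp_pos _)]
      nlinarith [Real.add_one_le_exp k]
    have h2 : -(k ^ 2) = (K : ℝ) * (-k) := by rw [hk]; ring
    rw [h2, Real.exp_nat_mul]
    exact pow_le_pow_left₀ (Real.exp_pos _).le h1 K
  have hR0 : 0 ≤ R := sq_nonneg _
  have hEE : EE K = A * Real.exp (-R / 2) / 6 := rfl
  have hE1 : Real.exp (-R / 2) ≤ 1 := by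
    rw [Real.exp_le_one_iff]
    linarith
  have hEE1 : EE K ≤ 1 := by
    rw [hEE]
    have := mul_le_one₀ hA1 (Real.exp_pos _).le hE1
    linarith
  have hEE0 : 0 < EE K := by
    rw [hEE]
    positivity
  have hmin : min (1 / 2) (EE K / (4 * s)) = EE K / (4 * s) := by
    apply min_eq_right
    rw [div_le_iff₀ (by linarith)]
    nlinarith
  rw [hmin, div_le_iff₀ (by positivity)]
  -- 100 k² ≤ N (EE / (4 s))²
  have h1 : (EE K / (4 * s)) ^ 2 = A ^ 2 * Real.exp (-R) / (576 * s ^ 2) := by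
    rw [hEE, div_pow, div_pow, mul_pow, ← Real.exp_nat_mul]
    have : ((2 : ℕ) : ℝ) * (-R / 2) = -R := by push_cast; ring
    rw [this]
    field_simp
    norm_num
  rw [h1, mul_div_assoc', le_div_iff₀ (by positivity)]
  have hk2 : k ^ 2 ≤ Real.exp (2 * k) := by
    have h2 : k ≤ Real.exp k := by linarith [Real.add_one_le_exp k]
    have h3 : Real.exp (2 * k) = Real.exp k * Real.exp k := by rw [← Real.exp_add]; ring_nf
    rw [h3, sq]
    exact mul_le_mul h2 h2 (by linarith) (Real.exp_pos _).le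
  have hc : (57600 : ℝ) ≤ Real.exp 12 := by
    have h2 : Real.exp 12 = Real.exp 1 ^ 12 := by rw [← Real.exp_nat_mul]; norm_num
    rw [h2]
    refine le_trans ?_ (pow_le_pow_left₀ (by norm_num) hexp1.le 12)
    norm_num
  have hL : 100 * k ^ 2 * (576 * s ^ 2) ≤ Real.exp (12 + 4 * k) := by
    have h2 : Real.exp (12 + 4 * k) = Real.exp 12 * (Real.exp (2 * k) * Real.exp (2 * k)) := by
      rw [← Real.exp_add, ← Real.exp_add]
      ring_nf
    rw [h2]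
    have h3 : k ^ 2 * s ^ 2 ≤ Real.exp (2 * k) * Real.exp (2 * k) :=
      mul_le_mul hk2 hs2 (by positivity) (Real.exp_pos _).le
    calc 100 * k ^ 2 * (576 * s ^ 2) = 57600 * (k ^ 2 * s ^ 2) := by ring
      _ ≤ Real.exp 12 * (Real.exp (2 * k) * Real.exp (2 * k)) :=
        mul_le_mul hc h3 (by positivity) (Real.exp_pos _).le
  have hRt : Real.exp (10 ^ 34 * k ^ 20 - 2 * k ^ 2 - R) ≤ (N : ℝ) * (A ^ 2 * Real.exp (-R)) := by
    have h2 : Real.exp (10 ^ 34 * k ^ 20 - 2 * k ^ 2 - R) =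
        Real.exp (10 ^ 34 * k ^ 20) * (Real.exp (-(k ^ 2)) ^ 2 * Real.exp (-R)) := by
      rw [← Real.exp_nat_mul, ← Real.exp_add, ← Real.exp_add]
      push_cast
      ring_nf
    rw [h2]
    refine mul_le_mul hN (mul_le_mul_of_nonneg_right ?_ (Real.exp_pos _).le) (by positivity)
      (Nat.cast_nonneg N)
    exact pow_le_pow_left₀ (Real.exp_pos _).le hA2 2
  refine hL.trans (le_trans ?_ hRt)
  rw [Real.exp_le_exp]
  have p1 : (1 : ℝ) ≤ k ^ 20 := one_le_pow₀ hK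
  have p2 : k ≤ k ^ 20 := by
    calc k = k ^ 1 := (pow_one k).symm
      _ ≤ k ^ 20 := pow_le_pow_right₀ hK (by norm_num)
  have p3 : k ^ 2 ≤ k ^ 20 := pow_le_pow_right₀ hK (by norm_num)
  nlinarith

end Pool.Agent.Helper10.AQ.NUM
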