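import Pool.Agent.Helper10.AQ.Stm2

/-!
# ORX: explicit version of ORT (helper25)
-/

set_option autoImplicit false

open Finset Matrix

namespace Pool.Agent.Helper10.AQ.ORX

open Pool.Agent.Helper10.AQ

variable {K : ℕ}

/-- homogenisation -/
theorem homog (F : (Fin K → ℝ) → ℝ) (E : ℝ)
    (hF : ∀ (c : ℝ) (v : Fin K → ℝ), 0 ≤ c → F (c • v) = c ^ 2 * F v)
    (h : ∀ θ : Fin K → ℝ, θ ⬝ᵥ θ = 1 → |F θ| ≤ E) (v : Fin K → ℝ) : |F v| ≤ E * (v ⬝ᵥ v) := by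
  have h0 : 0 ≤ v ⬝ᵥ v := by
    rw [dotProduct]
    exact sum_nonneg fun i _ => mul_self_nonneg _
  rcases h0.eq_or_lt with h1 | h1
  · have hv : v = 0 := by
      exact dotProduct_self_eq_zero.1 h1.symm
    have := hF 0 0 le_rfl
    rw [smul_zero] at this
    rw [hv, this]
    simp
  · set r := √(v ⬝ᵥ v) with hr
    have hr0 : 0 < r := Real.sqrt_pos.2 h1
    have hr2 : r ^ 2 = v ⬝ᵥ v := Real.sq_sqrt h0
    have h2 : v = r • (r⁻¹ • v) := by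
      rw [smul_smul, mul_inv_cancel₀ hr0.ne', one_smul]
    have h3 : (r⁻¹ • v) ⬝ᵥ (r⁻¹ • v) = 1 := by
      rw [smul_dotProduct, dotProduct_smul, smul_eq_mul, smul_eq_mul, ← hr2]
      field_simp
    have h4 := h _ h3
    have h5 : F v = r ^ 2 * F (r⁻¹ • v) := by
      conv_lhs => rw [h2]
      exact hF r _ hr0.le
    rw [h5, abs_mul, abs_of_nonneg (sq_nonneg r), hr2]
    nlinarith

theorem ng_nonneg (z : ℝ) : 0 ≤ ng z := sq_nonneg _

theorem ng_add (z : ℝ) : ng z + ng (-z) = z ^ 2 := by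
  unfold ng
  rcases le_total z 0 with h | h
  · rw [min_eq_left h, min_eq_right (by linarith)]; ring
  · rw [min_eq_right h, min_eq_left (by linarith)]; ring

theorem ng_neg {z : ℝ} (h : z ≤ 0) : ng z = z ^ 2 := by
  unfold ng
  rw [min_eq_left h]

theorem ng_smul {c : ℝ} (hc : 0 ≤ c) (z : ℝ) : ng (c * z) = c ^ 2 * ng z := by
  unfold ng
  rcases le_total z 0 with h | h
  · rw [min_eq_left h, min_eq_left (mul_nonpos_of_nonneg_of_nonpos hc h)]; ring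
  · rw [min_eq_right h, min_eq_right (mul_nonneg hc h)]; ring

/-- part (i) -/
theorem basic (e : Fin K → Fin K → ℝ) (E : ℝ) (hE : 0 < E) (hE1 : E ≤ 1) (hK : 1 ≤ K)
    (h : ∀ v : Fin K → ℝ, |∑ a, (e a ⬝ᵥ v) ^ 2 - v ⬝ᵥ v| ≤ E * (v ⬝ᵥ v)) :
    (∀ a, e a ⬝ᵥ e a ≤ 1 + E) ∧ (∀ a, 1 - 2 * K * E ≤ e a ⬝ᵥ e a) ∧
      ∀ a c, a ≠ c → (e a ⬝ᵥ e c) ^ 2 ≤ 6 * K * E := by
  have hK' : (1 : ℝ) ≤ K := by exact_mod_cast hK
  have hN0 : ∀ a, 0 ≤ e a ⬝ᵥ e a := fun a => by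
    rw [dotProduct]
    exact sum_nonneg fun i _ => mul_self_nonneg _
  have h1 : ∀ a, e a ⬝ᵥ e a ≤ 1 + E := by
    intro a
    have h2 := (abs_le.1 (h (e a))).2
    have h3 : (e a ⬝ᵥ e a) ^ 2 ≤ ∑ c, (e c ⬝ᵥ e a) ^ 2 :=
      single_le_sum (f := fun c => (e c ⬝ᵥ e a) ^ 2) (fun c _ => sq_nonneg _) (mem_univ a)
    by_contra h4
    push Not at h4
    have : 0 < e a ⬝ᵥ e a := by linarith
    nlinarith
  have hsum : (K : ℝ) * (1 - E) ≤ ∑ a, e a ⬝ᵥ e a := by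
    have h2 : ∑ a, e a ⬝ᵥ e a = ∑ i : Fin K, ∑ a, (e a ⬝ᵥ Pi.single i 1) ^ 2 := by
      rw [sum_comm]
      refine sum_congr rfl fun a _ => ?_
      rw [dotProduct]
      refine sum_congr rfl fun i _ => ?_
      rw [dotProduct_single]
      ring
    rw [h2]
    have h3 : ∀ i ∈ (univ : Finset (Fin K)), 1 - E ≤ ∑ a, (e a ⬝ᵥ Pi.single i 1) ^ 2 := by
      intro i _
      have h4 := (abs_le.1 (h (Pi.single i 1))).1
      have h5 : (Pi.single i (1 : ℝ) : Fin K → ℝ) ⬝ᵥ Pi.single i 1 = 1 := by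
        rw [dotProduct_single]; simp
      rw [h5] at h4
      linarith
    have h6 := card_nsmul_le_sum univ _ _ h3
    rw [card_univ, Fintype.card_fin, nsmul_eq_mul] at h6
    exact h6
  have h2 : ∀ a, 1 - 2 * K * E ≤ e a ⬝ᵥ e a := by
    intro a
    have h3 := sum_erase_add univ (fun a => e a ⬝ᵥ e a) (mem_univ a)
    have h4 : ∑ x ∈ univ.erase a, e x ⬝ᵥ e x ≤ (K - 1 : ℝ) * (1 + E) := by
      have h5 := sum_le_card_nsmul (univ.erase a) (fun x => e x ⬝ᵥ e x) (1 + E) (fun x _ => h1 x)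
      rw [card_erase_of_mem (mem_univ a), card_univ, Fintype.card_fin, nsmul_eq_mul,
        Nat.cast_sub hK, Nat.cast_one] at h5
      exact h5
    nlinarith
  refine ⟨h1, h2, ?_⟩
  intro a c hac
  have h3 := (abs_le.1 (h (e c))).2
  have h4 : (e a ⬝ᵥ e c) ^ 2 + (e c ⬝ᵥ e c) ^ 2 ≤ ∑ x, (e x ⬝ᵥ e c) ^ 2 := by
    have h5 : ∑ x ∈ ({a, c} : Finset (Fin K)), (e x ⬝ᵥ e c) ^ 2 ≤ ∑ x, (e x ⬝ᵥ e c) ^ 2 :=
      sum_le_sum_of_subset_of_nonneg (subset_univ _) fun x _ _ => sq_nonneg _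
    rwa [sum_pair hac] at h5
  have h5 := h1 c
  have h6 := h2 c
  have h7 := hN0 c
  have h8 : (e c ⬝ᵥ e c) * (1 + E - e c ⬝ᵥ e c) ≤ 2 * (3 * K * E) := by
    have : 1 + E - e c ⬝ᵥ e c ≤ 3 * K * E := by nlinarith
    exact mul_le_mul (by linarith) this (by linarith) (by norm_num)
  nlinarith

theorem main : S_ORX := by
  intro K hK ε hε hε1 e w he hw hn
  have hK' : (1 : ℝ) ≤ K := by exact_mod_cast hK
  have hK0 : (0 : ℝ) < K := by linarith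
  set E : ℝ := ε ^ 2 / (2000 * K ^ 5) with hEdef
  have hE : 0 < E := by positivity
  have hKE : (K : ℝ) ^ 5 * E = ε ^ 2 / 2000 := by
    rw [hEdef]; field_simp
  have hε2 : ε ^ 2 ≤ ε := by nlinarith
  have hp5 : ∀ j : ℕ, j ≤ 5 → (K : ℝ) ^ j * E ≤ ε ^ 2 / 2000 := by
    intro j hj
    rw [← hKE]
    exact mul_le_mul_of_nonneg_right (pow_le_pow_right₀ hK' hj) hE.le
  have hE0 := hp5 0 (by norm_num)
  have hE1' := hp5 1 (by norm_num)
  have hE4 := hp5 4 (by norm_num)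
  rw [pow_zero, one_mul] at hE0
  rw [pow_one] at hE1'
  have hEle : E ≤ 1 := by nlinarith
  -- homogenised hypotheses
  have hQ : ∀ (x : Fin K → Fin K → ℝ), (∀ θ : Fin K → ℝ, θ ⬝ᵥ θ = 1 →
      |∑ a, (x a ⬝ᵥ θ) ^ 2 - 1| ≤ E) →
      ∀ v : Fin K → ℝ, |∑ a, (x a ⬝ᵥ v) ^ 2 - v ⬝ᵥ v| ≤ E * (v ⬝ᵥ v) := by
    intro x hx
    refine homog (fun v => ∑ a, (x a ⬝ᵥ v) ^ 2 - v ⬝ᵥ v) E ?_ ?_
    · intro c v _
      simp only [dotProduct_smul, smul_dotProduct, smul_eq_mul, mul_sub, mul_sum]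
      congr 1
      · exact sum_congr rfl fun a _ => by ring
      · ring
    · intro θ hθ
      show |∑ a, (x a ⬝ᵥ θ) ^ 2 - θ ⬝ᵥ θ| ≤ E
      rw [hθ]
      exact hx θ hθ
  have hEe := hQ e he
  have hWw := hQ w hw
  have hNn : ∀ v : Fin K → ℝ, |∑ a, ng (e a ⬝ᵥ v) - ∑ a, ng (w a ⬝ᵥ v)| ≤ E * (v ⬝ᵥ v) := by
    refine homog (fun v => ∑ a, ng (e a ⬝ᵥ v) - ∑ a, ng (w a ⬝ᵥ v)) E ?_ hn
    intro c v hc
    simp only [dotProduct_smul, smul_eq_mul, mul_sub, mul_sum, ng_smul hc]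
  obtain ⟨e1, e2, e3⟩ := basic e E hE hEle hK hEe
  obtain ⟨w1, w2, w3⟩ := basic w E hE hEle hK hWw
  constructor
  · intro a c
    by_cases hac : a = c
    · subst hac
      rw [if_pos rfl, abs_le]
      constructor
      · have := e2 a
        nlinarith
      · have := e1 a
        nlinarith
    · rw [if_neg hac, sub_zero]
      have := e3 a c hac
      refine abs_le_of_sq_le_sq ?_ hε.le
      nlinarith
  intro b
  -- (ii)
  set s := √(8 * K * E) with hs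
  have hs0 : 0 ≤ s := Real.sqrt_nonneg _
  have hs2 : s ^ 2 = 8 * K * E := Real.sq_sqrt (by positivity)
  have hneg : ∀ a b, ng (e a ⬝ᵥ w b) ≤ 8 * K * E := by
    intro a b
    have h1 := (abs_le.1 (hNn (-(w b)))).1
    have h2 := (abs_le.1 (hEe (w b))).2
    simp only [dotProduct_neg, neg_dotProduct, neg_neg] at h1
    have h3 : (w b ⬝ᵥ w b) ^ 2 ≤ ∑ c, ng (-(w c ⬝ᵥ w b)) := by
      have h4 : ng (-(w b ⬝ᵥ w b)) ≤ ∑ c, ng (-(w c ⬝ᵥ w b)) :=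
        single_le_sum (f := fun c => ng (-(w c ⬝ᵥ w b))) (fun c _ => ng_nonneg _) (mem_univ b)
      rw [ng_neg, neg_sq] at h4
      · exact h4
      · have : 0 ≤ w b ⬝ᵥ w b := by
          rw [dotProduct]
          exact sum_nonneg fun i _ => mul_self_nonneg _
        linarith
    have h5 : ∑ c, ng (e c ⬝ᵥ w b) + ∑ c, ng (-(e c ⬝ᵥ w b)) = ∑ c, (e c ⬝ᵥ w b) ^ 2 := by
      rw [← sum_add_distrib]
      exact sum_congr rfl fun c _ => ng_add _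
    have h6 : ng (e a ⬝ᵥ w b) ≤ ∑ c, ng (e c ⬝ᵥ w b) :=
      single_le_sum (f := fun c => ng (e c ⬝ᵥ w b)) (fun c _ => ng_nonneg _) (mem_univ a)
    have h7 := w1 b
    have h8 := w2 b
    have h9 : (w b ⬝ᵥ w b) * (1 + 2 * E - w b ⬝ᵥ w b) ≤ 2 * (4 * K * E) := by
      have h10 : 1 + 2 * E - w b ⬝ᵥ w b ≤ 4 * K * E := by nlinarith
      have h11 : 0 ≤ 1 + 2 * E - w b ⬝ᵥ w b := by linarith
      exact mul_le_mul (by linarith) h10 h11 (by norm_num)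
    nlinarith
  have hlow : ∀ a b, -s ≤ e a ⬝ᵥ w b := by
    intro a b
    by_contra h
    push Not at h
    have h1 := hneg a b
    rw [ng_neg (by linarith), ← hs2] at h1
    nlinarith
  have hup : ∀ a b, e a ⬝ᵥ w b ≤ 2 := by
    intro a b
    have h2 := (abs_le.1 (hEe (w b))).2
    have h3 : (e a ⬝ᵥ w b) ^ 2 ≤ ∑ c, (e c ⬝ᵥ w b) ^ 2 :=
      single_le_sum (f := fun c => (e c ⬝ᵥ w b) ^ 2) (fun c _ => sq_nonneg _) (mem_univ a)
    have h7 := w1 b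
    nlinarith
  -- (iii)
  have hprod : ∀ a b c, -(2 * s) ≤ (e a ⬝ᵥ w b) * (e a ⬝ᵥ w c) := by
    intro a b c
    have h1 := hlow a b
    have h2 := hlow a c
    have h3 := hup a b
    have h4 := hup a c
    rcases le_total 0 (e a ⬝ᵥ w b) with h5 | h5 <;> rcases le_total 0 (e a ⬝ᵥ w c) with h6 | h6
    · nlinarith [mul_nonneg h5 h6]
    · nlinarith
    · nlinarith
    · nlinarith [mul_nonneg_of_nonpos_of_nonpos h5 h6]
  have hmix : ∀ b c, b ≠ c → ∀ a, (e a ⬝ᵥ w b) * (e a ⬝ᵥ w c) ≤ 2 * K * s := by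
    intro b c hbc a
    have h1 := (abs_le.1 (hEe (w b + w c))).2
    have h2 := (abs_le.1 (hEe (w b - w c))).1
    have h3 : ∑ a, (e a ⬝ᵥ (w b + w c)) ^ 2 - ∑ a, (e a ⬝ᵥ (w b - w c)) ^ 2 =
        4 * ∑ a, (e a ⬝ᵥ w b) * (e a ⬝ᵥ w c) := by
      rw [← sum_sub_distrib, mul_sum]
      refine sum_congr rfl fun a _ => ?_
      rw [dotProduct_add, dotProduct_sub]
      ring
    have h4 : (w b + w c) ⬝ᵥ (w b + w c) = w b ⬝ᵥ w b + 2 * (w b ⬝ᵥ w c) + w c ⬝ᵥ w c := by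
      rw [dotProduct_add, add_dotProduct, add_dotProduct, dotProduct_comm (w c) (w b)]
      ring
    have h5 : (w b - w c) ⬝ᵥ (w b - w c) = w b ⬝ᵥ w b - 2 * (w b ⬝ᵥ w c) + w c ⬝ᵥ w c := by
      rw [dotProduct_sub, sub_dotProduct, sub_dotProduct, dotProduct_comm (w c) (w b)]
      ring
    rw [h4] at h1
    rw [h5] at h2
    have h6 := w1 b
    have h7 := w1 c
    have h8 := w3 b c hbc
    have h9 : w b ⬝ᵥ w c ≤ s := by
      have : (w b ⬝ᵥ w c) ^ 2 ≤ s ^ 2 := by nlinarith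
      exact (abs_le_of_sq_le_sq' this hs0).2
    have h10 : 2 * E ≤ s := by
      have : (2 * E) ^ 2 ≤ s ^ 2 := by nlinarith
      exact (abs_le_of_sq_le_sq' this hs0).2
    have h11 : ∑ a, (e a ⬝ᵥ w b) * (e a ⬝ᵥ w c) ≤ 2 * s := by nlinarith
    have h12 : (e a ⬝ᵥ w b) * (e a ⬝ᵥ w c) + 2 * s ≤
        ∑ a, ((e a ⬝ᵥ w b) * (e a ⬝ᵥ w c) + 2 * s) :=
      single_le_sum (f := fun a => (e a ⬝ᵥ w b) * (e a ⬝ᵥ w c) + 2 * s)
        (fun x _ => by linarith [hprod x b c]) (mem_univ a)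
    rw [sum_add_distrib, sum_const, card_univ, Fintype.card_fin, nsmul_eq_mul] at h12
    linarith
  -- (iv)
  have hMb := w2 b
  have hMb1 := w1 b
  have hex : ∃ a, 1 / (2 * K) ≤ (e a ⬝ᵥ w b) ^ 2 := by
    by_contra h
    push Not at h
    have h1 : ∑ a, (e a ⬝ᵥ w b) ^ 2 ≤ ∑ _a : Fin K, 1 / (2 * (K : ℝ)) :=
      sum_le_sum fun a _ => (h a).le
    rw [sum_const, card_univ, Fintype.card_fin, nsmul_eq_mul] at h1
    have h2 : (K : ℝ) * (1 / (2 * K)) = 1 / 2 := by field_simp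
    rw [h2] at h1
    have h3 := (abs_le.1 (hEe (w b))).1
    nlinarith
  obtain ⟨a, ha⟩ := hex
  have hKE16 : 8 * K * E < 1 / (2 * K) := by
    rw [lt_div_iff₀ (by positivity)]
    have h2 := hp5 2 (by norm_num)
    nlinarith
  have hapos : 0 < e a ⬝ᵥ w b := by
    by_contra h
    push Not at h
    have h1 := hneg a b
    rw [ng_neg h] at h1
    linarith
  have hsmall : ∀ c, c ≠ b → (e a ⬝ᵥ w c) ^ 2 ≤ 64 * K ^ 4 * E := by
    intro c hc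
    have h1 := hlow a c
    have h2 := hmix b c (Ne.symm hc) a
    have h3 : (64 * K ^ 4 * E : ℝ) = 8 * K ^ 3 * s ^ 2 := by rw [hs2]; ring
    rw [h3]
    rcases le_total (e a ⬝ᵥ w c) 0 with h4 | h4
    · have h5 : (e a ⬝ᵥ w c) ^ 2 ≤ s ^ 2 := by nlinarith
      have h6 : (1 : ℝ) ≤ K ^ 3 := one_le_pow₀ hK'
      nlinarith [sq_nonneg s]
    · have h5 : ((e a ⬝ᵥ w b) * (e a ⬝ᵥ w c)) ^ 2 ≤ (2 * K * s) ^ 2 :=
        pow_le_pow_left₀ (mul_nonneg hapos.le h4) h2 2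
      rw [mul_pow] at h5
      have h6 : 1 / (2 * K) * (e a ⬝ᵥ w c) ^ 2 ≤ (2 * K * s) ^ 2 :=
        (mul_le_mul_of_nonneg_right ha (sq_nonneg _)).trans h5
      rw [one_div, inv_mul_le_iff₀ (by positivity)] at h6
      calc (e a ⬝ᵥ w c) ^ 2 ≤ 2 * K * (2 * K * s) ^ 2 := h6
        _ = 8 * K ^ 3 * s ^ 2 := by ring
  -- (v)
  refine ⟨a, ?_⟩
  have hy : 1 - 67 * K ^ 5 * E ≤ (e a ⬝ᵥ w b) ^ 2 := by
    have h1 := (abs_le.1 (hWw (e a))).1
    have h2 : ∑ c, (w c ⬝ᵥ e a) ^ 2 ≤ (e a ⬝ᵥ w b) ^ 2 + K * (64 * K ^ 4 * E) := by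
      rw [← sum_erase_add univ _ (mem_univ b), dotProduct_comm (w b) (e a), add_comm]
      have h3 : ∑ x ∈ univ.erase b, (w x ⬝ᵥ e a) ^ 2 ≤ ∑ x ∈ univ.erase b, 64 * (K : ℝ) ^ 4 * E := by
        refine sum_le_sum fun x hx => ?_
        rw [dotProduct_comm]
        exact hsmall x (ne_of_mem_erase hx)
      rw [sum_const, card_erase_of_mem (mem_univ b), card_univ, Fintype.card_fin, nsmul_eq_mul,
        Nat.cast_sub hK, Nat.cast_one] at h3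
      have h4 : 0 ≤ 64 * (K : ℝ) ^ 4 * E := by positivity
      nlinarith
    have h3 := e2 a
    have h4 : (K : ℝ) * E ≤ K ^ 5 * E := by
      have : (K : ℝ) ^ 1 ≤ K ^ 5 := pow_le_pow_right₀ hK' (by norm_num)
      rw [pow_one] at this
      exact mul_le_mul_of_nonneg_right this hE.le
    have h5 : E ≤ K * E := by nlinarith
    nlinarith
  have hx : 1 - 67 * K ^ 5 * E ≤ e a ⬝ᵥ w b := by
    by_contra h
    push Not at h
    have h1 : 0 ≤ 67 * (K : ℝ) ^ 5 * E := by positivity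
    nlinarith
  have h1 : (w b - e a) ⬝ᵥ (w b - e a) = w b ⬝ᵥ w b - 2 * (e a ⬝ᵥ w b) + e a ⬝ᵥ e a := by
    rw [dotProduct_sub, sub_dotProduct, sub_dotProduct, dotProduct_comm (w b) (e a)]
    ring
  rw [h1]
  have h2 := e1 a
  nlinarith

end Pool.Agent.Helper10.AQ.ORX
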