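import Pool.Agent.Helper10.AQ.Fin
import Pool.Agent.Helper10.AQ.Asm3
import Pool.Agent.Helper10.AQ.PTX
import Pool.Agent.Helper10.AQ.ENX
import Pool.Agent.Helper10.AQ.BDX
import Pool.Agent.Helper10.AQ.CMX
import Pool.Agent.Helper10.AQ.ORX
import Pool.Agent.Helper10.AQ.TRX
import Pool.Agent.Helper10.AQ.NUM

/-!
# The explicit bound
-/

set_option autoImplicit false

open Finset Matrix MeasureTheory Pool.Agent.Helper484 Pool.Agent.Y568.FL Pool.Agent.Helper7.Simplex
  Pool.Agent.Helper58.FU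
open scoped ENNReal

namespace Pool.Agent.Helper10.AQ

theorem modsX : ModsX where
  stab := STAB.main
  pt := PTX.main
  ent := ENX.main
  bdd := BDX.main FBD.main
  cmp := CMX.main FBD.main
  ort := ORX.main
  trv := TRX.main
  num := NUM.main
  cnt := CNT.main
  bal := BAL.main

theorem hull_x (K : ℕ) (hK : 1 ≤ K) (N m : ℕ) (hN : Real.exp (10 ^ 34 * K ^ 20) ≤ N)
    (hNm : N = m + K) (x : Fin N → Fin m → ℝ) (hx : Fr x) (hsum : ∑ j, x j = 0) :
    volume (convexHull ℝ (Set.range x)) ≤ ENNReal.ofReal (√(bal N K : ℝ) / m.factorial) := by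
  obtain ⟨b, hb, hgen, hone⟩ := exists_generic_rhs x
  have hbpos : ∀ j, 0 < b j := fun j => by linarith [(hb j).1]
  refine (vol_le hbpos hone (hrep_of hx hsum)).trans (ENNReal.ofReal_le_ofReal ?_)
  exact div_le_div_of_nonneg_right (main_bound_x modsX K hK N m hN hNm x b hx hgen hb)
    (by positivity)

end Pool.Agent.Helper10.AQ
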