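import Mathlib

set_option autoImplicit false

/-! The exact case of the module ORT (helper30). -/

open Finset Matrix

namespace Pool.Agent.Helper10.AQ.OrtExact

variable {K : ℕ}

theorem quad (e : Fin K → Fin K → ℝ)
    (he : ∀ θ : Fin K → ℝ, θ ⬝ᵥ θ = 1 → ∑ a, (e a ⬝ᵥ θ) ^ 2 = 1) (θ : Fin K → ℝ) :
    ∑ a, (e a ⬝ᵥ θ) ^ 2 = θ ⬝ᵥ θ := by
  by_cases h : θ ⬝ᵥ θ = 0
  · have h0 : θ = 0 := dotProduct_self_eq_zero.1 h
    subst h0
    simp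
  · have hp : 0 < θ ⬝ᵥ θ := lt_of_le_of_ne (Finset.sum_nonneg fun i _ => mul_self_nonneg _) (Ne.symm h)
    have hs : √(θ ⬝ᵥ θ) ^ 2 = θ ⬝ᵥ θ := Real.sq_sqrt hp.le
    have hs0 : √(θ ⬝ᵥ θ) ≠ 0 := (Real.sqrt_pos.2 hp).ne'
    have h1 := he ((√(θ ⬝ᵥ θ))⁻¹ • θ) (by
      rw [smul_dotProduct, dotProduct_smul, smul_eq_mul, smul_eq_mul, ← mul_assoc, ← sq, inv_pow, hs]
      exact inv_mul_cancel₀ h)
    have h2 : ∀ a, (e a ⬝ᵥ ((√(θ ⬝ᵥ θ))⁻¹ • θ)) ^ 2 = (θ ⬝ᵥ θ)⁻¹ * (e a ⬝ᵥ θ) ^ 2 := by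
      intro a
      rw [dotProduct_smul, smul_eq_mul, mul_pow, inv_pow, hs]
    rw [Finset.sum_congr rfl fun a _ => h2 a, ← Finset.mul_sum] at h1
    field_simp at h1
    exact h1

theorem polar (e : Fin K → Fin K → ℝ)
    (he : ∀ θ : Fin K → ℝ, θ ⬝ᵥ θ = 1 → ∑ a, (e a ⬝ᵥ θ) ^ 2 = 1) (θ η : Fin K → ℝ) :
    ∑ a, (e a ⬝ᵥ θ) * (e a ⬝ᵥ η) = θ ⬝ᵥ η := by
  have h1 := quad e he (θ + η)
  have h2 := quad e he θ
  have h3 := quad e he η
  have h4 : ∀ a, (e a ⬝ᵥ (θ + η)) ^ 2 =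
      (e a ⬝ᵥ θ) ^ 2 + (e a ⬝ᵥ η) ^ 2 + 2 * ((e a ⬝ᵥ θ) * (e a ⬝ᵥ η)) := by
    intro a
    rw [dotProduct_add]
    ring
  rw [Finset.sum_congr rfl fun a _ => h4 a, Finset.sum_add_distrib, Finset.sum_add_distrib,
    ← Finset.mul_sum, h2, h3, dotProduct_add, add_dotProduct, add_dotProduct,
    dotProduct_comm η θ] at h1
  linarith

theorem ortho (e : Fin K → Fin K → ℝ)
    (he : ∀ θ : Fin K → ℝ, θ ⬝ᵥ θ = 1 → ∑ a, (e a ⬝ᵥ θ) ^ 2 = 1) (a c : Fin K) :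
    e a ⬝ᵥ e c = if a = c then 1 else 0 := by
  have h1 : (Matrix.of e)ᵀ * Matrix.of e = 1 := by
    ext i j
    have := polar e he (Pi.single i 1) (Pi.single j 1)
    simp only [dotProduct_single, mul_one] at this
    rw [Matrix.mul_apply, Matrix.one_apply]
    simp only [transpose_apply, of_apply]
    rw [this, Pi.single_apply]
    by_cases hij : i = j
    · simp [hij]
    · simp [hij, Ne.symm hij]
  have h2 : Matrix.of e * (Matrix.of e)ᵀ = 1 := mul_eq_one_comm.1 h1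
  have h3 := congrFun (congrFun h2 a) c
  rw [Matrix.mul_apply, Matrix.one_apply] at h3
  simpa [dotProduct] using h3

/-- The exact case. -/
theorem exact (e w : Fin K → Fin K → ℝ)
    (he : ∀ θ : Fin K → ℝ, θ ⬝ᵥ θ = 1 → ∑ a, (e a ⬝ᵥ θ) ^ 2 = 1)
    (hw : ∀ θ : Fin K → ℝ, θ ⬝ᵥ θ = 1 → ∑ a, (w a ⬝ᵥ θ) ^ 2 = 1)
    (hn : ∀ θ : Fin K → ℝ, θ ⬝ᵥ θ = 1 →
      ∑ a, (min (e a ⬝ᵥ θ) 0) ^ 2 = ∑ a, (min (w a ⬝ᵥ θ) 0) ^ 2) :
    (∀ a c, e a ⬝ᵥ e c = if a = c then 1 else 0) ∧ ∀ b, ∃ a, w b = e a := by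
  refine ⟨ortho e he, ?_⟩
  have hpos : ∀ b a, 0 ≤ e a ⬝ᵥ w b := by
    intro b
    have hb : w b ⬝ᵥ w b = 1 := by rw [ortho w hw, if_pos rfl]
    have h1 := hn (-w b) (by rw [neg_dotProduct, dotProduct_neg, neg_neg, hb])
    have h2 : ∑ a, (min (w a ⬝ᵥ (-w b)) 0) ^ 2 = 1 := by
      rw [Finset.sum_eq_single b]
      · rw [dotProduct_neg, hb]; norm_num
      · intro a _ hab
        rw [dotProduct_neg, ortho w hw, if_neg hab]; norm_num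
      · intro h; exact absurd (Finset.mem_univ b) h
    have h3 : ∑ a, (e a ⬝ᵥ w b) ^ 2 = 1 := he _ hb
    have h4 : ∀ a ∈ (univ : Finset (Fin K)),
        0 ≤ (e a ⬝ᵥ w b) ^ 2 - (min (e a ⬝ᵥ (-w b)) 0) ^ 2 := by
      intro a _
      rw [dotProduct_neg]
      rcases le_total (-(e a ⬝ᵥ w b)) 0 with h | h
      · rw [min_eq_left h]; nlinarith
      · rw [min_eq_right h]; nlinarith [sq_nonneg (e a ⬝ᵥ w b)]
    have h5 : ∑ a, ((e a ⬝ᵥ w b) ^ 2 - (min (e a ⬝ᵥ (-w b)) 0) ^ 2) = 0 := by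
      rw [Finset.sum_sub_distrib, h3, h1, h2, sub_self]
    intro a
    have h6 := (Finset.sum_eq_zero_iff_of_nonneg h4).1 h5 a (Finset.mem_univ a)
    by_contra hlt
    push Not at hlt
    rw [dotProduct_neg, min_eq_right (by linarith)] at h6
    nlinarith
  intro b
  have hb : w b ⬝ᵥ w b = 1 := by rw [ortho w hw, if_pos rfl]
  obtain ⟨a, ha⟩ : ∃ a, 0 < e a ⬝ᵥ w b := by
    by_contra hc
    push Not at hc
    have h1 : ∑ a, (e a ⬝ᵥ w b) ^ 2 = 0 := by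
      refine Finset.sum_eq_zero fun a _ => ?_
      rw [le_antisymm (hc a) (hpos b a)]
      norm_num
    rw [he _ hb] at h1
    exact one_ne_zero h1
  refine ⟨a, ?_⟩
  have hz : ∀ c, c ≠ b → e a ⬝ᵥ w c = 0 := by
    intro c hc
    have h1 := polar e he (w b) (w c)
    rw [ortho w hw, if_neg (Ne.symm hc)] at h1
    have h2 := (Finset.sum_eq_zero_iff_of_nonneg (fun x _ => mul_nonneg (hpos b x) (hpos c x))).1 h1 a
      (Finset.mem_univ a)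
    rcases mul_eq_zero.1 h2 with h | h
    · exact absurd h ha.ne'
    · exact h
  have haa : e a ⬝ᵥ e a = 1 := by rw [ortho e he, if_pos rfl]
  have h1 := quad w hw (e a)
  rw [haa, Finset.sum_eq_single b] at h1
  · have h2 : w b ⬝ᵥ e a = 1 := by
      rw [dotProduct_comm] at h1 ⊢
      nlinarith
    have h3 : (w b - e a) ⬝ᵥ (w b - e a) = 0 := by
      rw [sub_dotProduct, dotProduct_sub, dotProduct_sub, hb, haa, h2, dotProduct_comm (e a), h2]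
      norm_num
    exact sub_eq_zero.1 (dotProduct_self_eq_zero.1 h3)
  · intro c _ hc
    rw [dotProduct_comm, hz c hc]; norm_num
  · intro h; exact absurd (Finset.mem_univ b) h

end Pool.Agent.Helper10.AQ.OrtExact
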