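import Pool.Agent.Helper58.FU.Main

/-!
# Filliman's second conjecture for all large `n`: statements of the modules

Setting: `x : Fin N → Fin m → ℝ` a Parseval frame, `N = m + K`, `u` its complement (`Compl x u`), `q = marg x b` the
marginals, `w j = u j / √(q j)`. For a feasible basis `I` let `T` be the complement of its range (`K` elements).
-/

set_option autoImplicit false

open Finset Matrix MeasureTheory Pool.Agent.Helper484 Pool.Agent.Y568.FL Pool.Agent.Helper7.Simplex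
  Pool.Agent.Helper58.FU
open scoped ENNReal

namespace Pool.Agent.Helper10.AQ

/-- logarithm of the Gaussian hazard rate -/
noncomputable def fz (z : ℝ) : ℝ := Real.log (gpdf z / gtail z)

/-- square of the negative part -/
noncomputable def ng (z : ℝ) : ℝ := (min z 0) ^ 2

/-- `e^L - 1 - L` -/
noncomputable def chi (L : ℝ) : ℝ := Real.exp L - 1 - L

/-- the logarithm of the quotient of the term of the basis `T` and of the geometric mean -/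
noncomputable def LL {N K : ℕ} (q : Fin N → ℝ) (w : Fin N → Fin K → ℝ) (T : Finset (Fin N))
    (v : Fin K → ℝ) : ℝ :=
  ∑ j ∈ T, (Real.log (q j) / 2 + fz (w j ⬝ᵥ v)) -
    ∑ j, q j * (Real.log (q j) / 2 + fz (w j ⬝ᵥ v))

/-- near every point of norm at most `R` there is a point where the term of `T` is comparable with the
geometric mean -/
def Good {N K : ℕ} (q : Fin N → ℝ) (w : Fin N → Fin K → ℝ) (T : Finset (Fin N)) (R : ℝ) : Prop :=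
  ∀ c : Fin K → ℝ, c ⬝ᵥ c ≤ R ^ 2 → ∃ v : Fin K → ℝ, (v - c) ⬝ᵥ (v - c) ≤ 1 ∧ |LL q w T v| ≤ 1

/-- the balanced product `ℓ ^ (K - r) (ℓ + 1) ^ r` -/
def bal (N K : ℕ) : ℕ := (N / K) ^ (K - N % K) * (N / K + 1) ^ (N % K)

/-- **FBD.** Mills ratio. For `z < 0`: `gtail z ∈ [1/2, 1]`. For `z ≥ 0`: `gpdf z / gtail z ≤ 1 + z` and
`≥ gpdf 0 / gtail 0 = √(2/π) > 1/e` (or any other bound: `gtail z ≤ gpdf z * √(π/2)` for `z ≥ 0`).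
The upper bound: `G z = gpdf z / (1 + z) - gtail z` is negative ... its derivative is
`-z φ/(1+z) - φ/(1+z)^2 + φ = φ z / (1+z)^2 ≥ 0` and `G → 0` at infinity, so `G ≤ 0` on `[0, ∞)`. -/
def S_FBD : Prop := ∀ z : ℝ, |fz z + ng z / 2| ≤ 1 + Real.log (1 + |z|)

/-- **STAB.** Stability of the entropy inequality `SD_entropy` (Helper58/FU/Main.lean). Same proof, with the
explicit pair `f t = √p * gpdf (t / √p) * gtail (t / √p) ^ (p - 1)`, `F t = gtail (t / √p) ^ p` of `fam_pos`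
(`p = q j > 0`), so that `log (f / F) = log p / 2 + fz (t / √p)` and `f ^ p * F ^ (1 - p) = kap p * exp (-t²/2)`. With
`G v = ∏ kap (q j) * exp (-(v ⬝ v)/2)` the term of `I` is `G v * exp (LL q w T v)`. As
`∑_I p_I LL_I(v) = 0` (definition of the marginals), `∑_I p_I exp LL_I = 1 + ∑_I p_I chi LL_I`; `decomp_prod` and
`Dens.int` give `SD * ∫ G (1 + ∑ p_I chi LL_I) ≤ 1`, and `SD * ∫ G = SD * ∏ q_j ^ (q_j / 2)`. -/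
def S_STAB : Prop := ∀ (m K N : ℕ), N = m + K → ∀ (x : Fin N → Fin m → ℝ) (b : Fin N → ℝ)
  (u : Fin N → Fin K → ℝ), Fr x → Gen x b → 0 < SD x b → Compl x u → (∀ j, 0 < marg x b j) →
  ∫⁻ v : Fin K → ℝ, ENNReal.ofReal ((∑ I ∈ FF x b, (|D x I| / SD x b) *
      chi (LL (marg x b) (fun j => (√(marg x b j))⁻¹ • u j) (univ.image I)ᶜ v)) *
        Real.exp (-(v ⬝ᵥ v) / 2)) ≤
    ENNReal.ofReal ((1 / (SD x b * ∏ j, marg x b j ^ (marg x b j / 2)) - 1) *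
      √(2 * Real.pi) ^ K)

/-- **PT.** If the integral is small then there are points with `|F| ≤ 1` near every `c` with `|c| ≤ R`: the sup
ball of radius `1 / (K + 1)` around `c` has volume `(2/(K+1))^K` and lies in the Euclidean unit ball, the weight is at
least `exp (-(R + 1)²/2)` on it, and `chi L ≥ 1/3` for `|L| ≥ 1`. -/
def S_PT : Prop := ∀ (K : ℕ) (R : ℝ), 0 ≤ R → ∃ η : ℝ, 0 < η ∧ ∀ F : (Fin K → ℝ) → ℝ,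
  ∫⁻ v : Fin K → ℝ, ENNReal.ofReal (chi (F v) * Real.exp (-(v ⬝ᵥ v) / 2)) ≤ ENNReal.ofReal η →
    ∀ c : Fin K → ℝ, c ⬝ᵥ c ≤ R ^ 2 → ∃ v : Fin K → ℝ, (v - c) ⬝ᵥ (v - c) ≤ 1 ∧ |F v| ≤ 1

/-- **ENT.** Let `κ = K / N`, `ℓ = N / K`. By `balanced_log` (Helper58/FU/Geo.lean; or `log_gap` there)
`√(N / K) ^ K ≤ exp (K / (16 ℓ²)) √bal`. Put `P = ∏ q_j^(q_j/2)`. From `√bal P ≤ Z P ≤ 1`:
`∑ q_j log (q_j / κ) = 2 log P + K log (N / K) ≤ K / (8 ℓ²)`; each term `q log (q/κ) - q + κ` is at least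
`(√q - √κ)²` (these terms have the same sum), so `(√(q_j/κ) - 1)² ≤ K / (8 ℓ² κ) = N / (8 ℓ²)`, which is small. Second
part: `P ≥ (K / N)^(K/2)` (`entropy_le`), so `Z P ≥ exp (-K / (16 ℓ²))`, and `N (exp (K / (16 ℓ²)) - 1) → 0`. -/
def S_ENT : Prop := ∀ (K : ℕ), 1 ≤ K → ∀ ε : ℝ, 0 < ε → ∃ N₀ : ℕ, ∀ N : ℕ, N₀ ≤ N →
  ∀ (q : Fin N → ℝ) (Z : ℝ), (∀ j, 0 ≤ q j) → ∑ j, q j = K → √(bal N K : ℝ) ≤ Z →
    Z * ∏ j, q j ^ (q j / 2) ≤ 1 →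
    (∀ j, |q j * (N / K) - 1| ≤ ε) ∧ 1 / (Z * ∏ j, q j ^ (q j / 2)) - 1 ≤ ε * (K / N)

/-- **BDD.** Let `M² = max_{j ∈ T} w_j ⬝ w_j`, attained at `k`, `M > 1`. Take `c = -2 w_k / M` and `v` as in `Good`: so
`w_k ⬝ v ≤ -2 M + M = -M`, `|v| ≤ 3`. By `S_FBD`: `∑_{j∈T} fz (w_j ⬝ v) ≤ -M²/2 + K (1 + log (1 + 3 M))` and
`∑_j q_j fz (w_j ⬝ v) ≥ -|v|²/2 - K - ∑ q_j log (1 + |w_j ⬝ v|) ≥ -9/2 - K - (K + 9)` (`log (1 + y) ≤ y ≤ 1 + y²`,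
`∑ q_j (w_j ⬝ v)² = v ⬝ v`). The terms `log q_j` differ from `log (K / N)` by at most `1`, `∑ q_j = K = #T`. So
`M²/2 ≤ 1 + K + 9/2 + 2 K + 9 + K (1 + log (1 + 3 M))`, which bounds `M`. -/
def S_BDD : Prop := ∀ (K : ℕ), 1 ≤ K → ∃ B : ℝ, 1 ≤ B ∧ ∀ (N : ℕ) (q : Fin N → ℝ)
  (w : Fin N → Fin K → ℝ) (T : Finset (Fin N)), 0 < N → (∀ j, |q j * (N / K) - 1| ≤ 1 / 2) →
    ∑ j, q j = K → (∀ v : Fin K → ℝ, ∑ j, q j * (w j ⬝ᵥ v) ^ 2 = v ⬝ᵥ v) → T.card = K →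
    Good q w T 3 → ∀ j ∈ T, w j ⬝ᵥ w j ≤ B ^ 2

/-- **CMP.** Take `c = R θ` and `v` as in `Good`. By `S_FBD` and `|w_j ⬝ v| ≤ B (R + 1)`:
`|∑_{j∈T} ng (w_j ⬝ v) - ∑_j q_j ng (w_j ⬝ v)| ≤ 2 (1 + K) + 4 K (1 + log (1 + B (R + 1)))` (the `log q_j` as in BDD).
`ng` is homogeneous of degree two, and `|ng y - ng z| ≤ |y - z| (|y| + |z|)`; replace `v` by `R θ` (error
`2 K * B * B (2 R + 1)`), divide by `R²`. -/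
def S_CMP : Prop := ∀ (K : ℕ), 1 ≤ K → ∀ B ε : ℝ, 1 ≤ B → 0 < ε → ∃ R : ℝ, 3 ≤ R ∧ ∀ (N : ℕ)
  (q : Fin N → ℝ) (w : Fin N → Fin K → ℝ) (T : Finset (Fin N)), 0 < N →
    (∀ j, |q j * (N / K) - 1| ≤ 1 / 2) → ∑ j, q j = K → (∀ j, w j ⬝ᵥ w j ≤ B ^ 2) → T.card = K →
    Good q w T R → ∀ θ : Fin K → ℝ, θ ⬝ᵥ θ = 1 →
      |∑ j ∈ T, ng (w j ⬝ᵥ θ) - ∑ j, q j * ng (w j ⬝ᵥ θ)| ≤ ε

/-- **ORT.** Compactness: otherwise there are sequences with `ε → 0`, bounded (`(e_a ⬝ e_a)² ≤ (1 + ε) (e_a ⬝ e_a)`, take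
`θ = e_a / |e_a|`); in the limit `∑ (e_a ⬝ θ)² = 1 = ∑ (w_a ⬝ θ)²` for unit `θ`, so `e`, `w` are orthonormal bases
(square matrix with `Eᵀ E = 1`), and `∑ ng (e_a ⬝ θ) = ∑ ng (w_a ⬝ θ)`. With `θ = -w_b`: `∑_a ((e_a ⬝ w_b)_+)² = 1 =
∑_a (e_a ⬝ w_b)²`, so all `e_a ⬝ w_b ≥ 0`. For `b` take `a` with `e_a ⬝ w_b > 0`; for `c ≠ b`,
`0 = w_b ⬝ w_c = ∑_a (e_a ⬝ w_b) (e_a ⬝ w_c)` gives `e_a ⬝ w_c = 0`, so `e_a = (e_a ⬝ w_b) w_b = w_b`. -/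
def S_ORT : Prop := ∀ (K : ℕ) (ε' : ℝ), 0 < ε' → ∃ ε : ℝ, 0 < ε ∧ ∀ e w : Fin K → Fin K → ℝ,
  (∀ θ : Fin K → ℝ, θ ⬝ᵥ θ = 1 → |∑ a, (e a ⬝ᵥ θ) ^ 2 - 1| ≤ ε) →
  (∀ θ : Fin K → ℝ, θ ⬝ᵥ θ = 1 → |∑ a, (w a ⬝ᵥ θ) ^ 2 - 1| ≤ ε) →
  (∀ θ : Fin K → ℝ, θ ⬝ᵥ θ = 1 → |∑ a, ng (e a ⬝ᵥ θ) - ∑ a, ng (w a ⬝ᵥ θ)| ≤ ε) →
    (∀ a c, |e a ⬝ᵥ e c - if a = c then 1 else 0| ≤ ε') ∧
    ∀ b, ∃ a, (w b - e a) ⬝ᵥ (w b - e a) ≤ ε' ^ 2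

/-- **TRV.** Let `ε` be small, `σ = 4 K ε`. For all `k` with `p k ≠ a`: `|e_a ⬝ w_k| ≤ σ`; `e_a ⬝ w_k ≥ 1/2` if
`p k = a`; with `E = ∑ e_c`: `1/2 ≤ E ⬝ w_k ≤ 2`. The block of `a` has at least `N / (16 K)` elements:
`∑ q_k (w_k ⬝ e_a)² = e_a ⬝ e_a ≥ 1/2`, and the sum over the other blocks is at most `K σ²`. If no `j ∈ T` has `p j = a`
then `e_a ⬝ s = ∑_{T} lam_j √q_j e_a ⬝ w_j ≤ 2 σ ∑_T lam_j √q_j E ⬝ w_j = 2 σ E ⬝ s`, for `s = ∑ b_j √q_j w_j`; but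
`e_a ⬝ s ≥ √(K/(2N)) (N / (16 K)) / 4 - 2 σ N √(2 K / N)`, `E ⬝ s ≤ 4 N √(2 K / N)`. -/
def S_TRV : Prop := ∀ (K : ℕ), 1 ≤ K → ∃ ε : ℝ, 0 < ε ∧ ∀ (N : ℕ) (q b lam : Fin N → ℝ)
  (w : Fin N → Fin K → ℝ) (e : Fin K → Fin K → ℝ) (p : Fin N → Fin K) (T : Finset (Fin N)),
    0 < N → (∀ j, |q j * (N / K) - 1| ≤ 1 / 2) →
    (∀ v : Fin K → ℝ, ∑ j, q j * (w j ⬝ᵥ v) ^ 2 = v ⬝ᵥ v) →
    (∀ a c, |e a ⬝ᵥ e c - if a = c then 1 else 0| ≤ ε) →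
    (∀ k, (w k - e (p k)) ⬝ᵥ (w k - e (p k)) ≤ ε ^ 2) →
    (∀ j, 1 / 2 ≤ b j ∧ b j ≤ 2) → (∀ j, 0 ≤ lam j) →
    ∑ j, (b j * √(q j)) • w j = ∑ j ∈ T, (lam j * √(q j)) • w j →
    ∀ a, ∃ j ∈ T, p j = a

/-- **CNT.** If every feasible basis misses exactly one element of each block then `∑_{p j = a} q_j = 1` for each `a`,
and `SD_entropy` with `entropy_le` for each block (`K = 1`) gives `SD ≤ ∏ √(block size)`. -/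
def S_CNT : Prop := ∀ (m K N : ℕ), N = m + K → 1 ≤ K → ∀ (x : Fin N → Fin m → ℝ) (b : Fin N → ℝ)
  (p : Fin N → Fin K), Fr x → Gen x b →
  (∀ I ∈ FF x b, ∀ a, ∃ j ∈ (univ.image I)ᶜ, p j = a) →
    SD x b ≤ √(∏ a, ((univ.filter fun i => p i = a).card : ℝ))

/-- **BAL.** The balanced product is the largest product of `K` natural numbers with sum `N`. -/
def S_BAL : Prop := ∀ (N K : ℕ), 1 ≤ K → ∀ n : Fin K → ℕ, ∑ a, n a = N → ∏ a, n a ≤ bal N K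

end Pool.Agent.Helper10.AQ
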